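import Mathlib
import Pool.Agent.N20.Sub5

/-!
The Brauer map at a `p`-element and block idempotents modulo the maximal ideal.
-/

set_option autoImplicit false
set_option linter.style.haveILetI false
set_option linter.unusedSectionVars false

open scoped BigOperators Classical
open Pool.Agent.Helper884 Pool.Agent.H254R3.IN Pool.Agent.N20

noncomputable section

namespace Pool.Agent.J6H19.KB

section algebra

variable {H : Type} [Group H] [Fintype H] {O : ValuationSubring ℂ}

/-- the reduction of a function as an element of the group algebra -/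
def toA (O : ValuationSubring ℂ) (f : H → ℂ) : MonoidAlgebra (RF O) H :=
  ∑ h, MonoidAlgebra.single h (red O (f h))

lemma toA_coeff (f : H → ℂ) (h : H) : (toA O f).coeff h = red O (f h) := by
  unfold toA
  rw [MonoidAlgebra.coeff_sum, Finsupp.finsetSum_apply, Finset.sum_eq_single h]
  · rw [MonoidAlgebra.coeff_single, Finsupp.single_eq_same]
  · intro x _ hx
    rw [MonoidAlgebra.coeff_single, Finsupp.single_eq_of_ne (Ne.symm hx)]
  · intro h1
    exact absurd (Finset.mem_univ _) h1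

lemma toA_conv {f g : H → ℂ} (hf : ∀ x, f x ∈ O) (hg : ∀ x, g x ∈ O) :
    toA O (conv f g) = toA O f * toA O g := by
  have h1 : ∀ h, MonoidAlgebra.single h (red O (conv f g h)) =
      ∑ x, MonoidAlgebra.single h (red O (f x) * red O (g (x⁻¹ * h))) := by
    intro h
    unfold conv
    rw [red_sum _ _ (fun x _ => O.mul_mem _ _ (hf x) (hg _))]
    have h2 : ∀ x, red O (f x * g (x⁻¹ * h)) = red O (f x) * red O (g (x⁻¹ * h)) :=
      fun x => red_mul (hf x) (hg _)
    rw [Finset.sum_congr rfl fun x _ => h2 x]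
    exact map_sum (MonoidAlgebra.singleAddHom h) _ _
  unfold toA
  rw [Finset.sum_congr rfl fun h _ => h1 h, Finset.sum_mul_sum, Finset.sum_comm]
  refine Finset.sum_congr rfl fun x _ => ?_
  refine Fintype.sum_equiv (Equiv.mulLeft x⁻¹) _ _ fun h => ?_
  simp only [Equiv.coe_mulLeft]
  rw [MonoidAlgebra.single_mul_single, mul_inv_cancel_left]

lemma toA_sub {f g : H → ℂ} (hf : ∀ x, f x ∈ O) (hg : ∀ x, g x ∈ O) :
    toA O (fun h => f h - g h) = toA O f - toA O g := by
  unfold toA
  rw [← Finset.sum_sub_distrib]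
  refine Finset.sum_congr rfl fun h _ => ?_
  rw [red_sub (hf h) (hg h)]
  exact map_sub (MonoidAlgebra.singleAddHom h) _ _

lemma toA_dl : toA O (dl : H → ℂ) = 1 := by
  unfold toA
  rw [Finset.sum_eq_single (1 : H)]
  · have : red O (dl (1 : H)) = 1 := by
      unfold dl
      rw [if_pos rfl, red_one]
    rw [this, MonoidAlgebra.one_def]
  · intro h _ hne
    have : red O (dl h) = 0 := by
      unfold dl
      rw [if_neg hne, red_zero]
    rw [this]
    exact map_zero (MonoidAlgebra.singleAddHom h)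
  · intro h
    exact absurd (Finset.mem_univ _) h

lemma toA_zero {f : H → ℂ} (hf : ∀ x, red O (f x) = 0) : toA O f = 0 := by
  unfold toA
  refine Finset.sum_eq_zero fun h _ => ?_
  rw [hf h]
  exact map_zero (MonoidAlgebra.singleAddHom h)

/-- the scalar attached to an integral class function is integral -/
lemma Om_mem {χ : H → ℂ} (hχ : IsIrr χ) {f : H → ℂ} (hf : IsCl f) (hfO : ∀ g, f g ∈ O) :
    Om f χ ∈ O := by
  have h1 : Om f χ = ∑ K : ConjClasses H, f (rep K) * omega χ (rep K) := by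
    unfold Om
    rw [sum_classes, Finset.sum_div]
    refine Finset.sum_congr rfl fun K _ => ?_
    have h2 : ∀ g ∈ Finset.univ.filter (fun g => IsConj (rep K) g),
        f g * χ g = f (rep K) * χ (rep K) := by
      intro g hg
      have hc := (Finset.mem_filter.mp hg).2
      rw [hf.isConj hc, hχ.isConj hc]
    rw [Finset.sum_congr rfl h2, Finset.sum_const, nsmul_eq_mul]
    have h3 : (Finset.univ.filter (fun g => IsConj (rep K) g)).card =
        Nat.card {y : H // IsConj (rep K) y} := by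
      rw [Nat.card_eq_fintype_card, Fintype.card_subtype]
    rw [h3]
    unfold omega
    ring
  rw [h1]
  exact sum_mem fun K _ => O.mul_mem _ _ (hfO _) (hχ.omega_mem O _)

lemma Om_zero (χ : H → ℂ) : Om (fun _ => (0 : ℂ)) χ = 0 := by
  unfold Om
  simp

/-- a class function all of whose scalars lie in the maximal ideal is nilpotent modulo it -/
theorem nilp {δ : H → ℂ} (hδ : IsCl δ) (hδO : ∀ h, δ h ∈ O)
    (h0 : ∀ θ, IsIrr θ → red O (Om δ θ) = 0) : toA O δ ^ (IC.Irr H).card = 0 := by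
  have key : ∀ T : Finset (H → ℂ), (∀ θ ∈ T, IsIrr θ) → ∃ z : H → ℂ, IsCl z ∧ (∀ h, z h ∈ O) ∧
      (∀ θ ∈ T, Om z θ = 0) ∧ toA O z = toA O δ ^ T.card := by
    intro T
    induction T using Finset.induction_on with
    | empty =>
      intro _
      exact ⟨dl, dl_cl, dl_mem O, by simp, by rw [toA_dl, Finset.card_empty, pow_zero]⟩
    | insert a s ha ih =>
      intro hT
      obtain ⟨z, hz1, hz2, hz3, hz4⟩ := ih fun θ hθ => hT θ (Finset.mem_insert_of_mem hθ)
      have hai := hT a (Finset.mem_insert_self a s)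
      have hc : Om δ a ∈ O := Om_mem hai hδ hδO
      have hcl : IsCl (fun h : H => δ h - Om δ a * dl h) := by
        intro g y
        change δ (y * g * y⁻¹) - Om δ a * dl (y * g * y⁻¹) = _
        rw [hδ g y, dl_cl g y]
      have hmem2 : ∀ h : H, Om δ a * dl h ∈ O := fun h => O.mul_mem _ _ hc (dl_mem O h)
      have hmem : ∀ h : H, δ h - Om δ a * dl h ∈ O := fun h => sub_mem' (hδO h) (hmem2 h)
      refine ⟨conv z (fun h => δ h - Om δ a * dl h), hz1.conv hcl, conv_mem hz2 hmem, ?_, ?_⟩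
      · intro θ hθ
        have hθi := hT θ hθ
        rw [Om_conv hθi hz1 hcl]
        rcases Finset.mem_insert.mp hθ with rfl | hθ
        · rw [Om_sub, Om_smul, Om_dl hθi, mul_one, sub_self, mul_zero]
        · rw [hz3 θ hθ, zero_mul]
      · rw [toA_conv hz2 hmem, hz4, toA_sub hδO hmem2, toA_zero (f := fun h => Om δ a * dl h),
          sub_zero, Finset.card_insert_of_notMem ha, pow_succ]
        intro h
        rw [red_mul hc (dl_mem O h), h0 a hai, zero_mul]
  obtain ⟨z, hz1, hz2, hz3, hz4⟩ := key (IC.Irr H) (fun θ hθ => mem_Irr.mp hθ)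
  rw [← hz4]
  have hz : z = fun _ => 0 := by
    apply eq_of_Om hz1 (fun _ _ => rfl)
    intro χ hχ
    rw [hz3 χ (mem_Irr.mpr hχ), Om_zero]
  rw [hz]
  exact toA_zero fun _ => red_zero

/-- class functions are central -/
lemma toA_comm {f g : H → ℂ} (hf : IsCl f) (hg : IsCl g) (hfO : ∀ x, f x ∈ O)
    (hgO : ∀ x, g x ∈ O) : toA O f * toA O g = toA O g * toA O f := by
  rw [← toA_conv hfO hgO, ← toA_conv hgO hfO]
  congr 1
  apply eq_of_Om (hf.conv hg) (hg.conv hf)
  intro χ hχ
  rw [Om_conv hχ hf hg, Om_conv hχ hg hf, mul_comm]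

/-- **Idempotents modulo the maximal ideal are determined by their scalars.** -/
theorem idem_eq {a e : H → ℂ} (ha : IsCl a) (he : IsCl e) (haO : ∀ h, a h ∈ O)
    (heO : ∀ h, e h ∈ O) (haa : toA O a * toA O a = toA O a)
    (hee : toA O e * toA O e = toA O e)
    (h0 : ∀ θ, IsIrr θ → red O (Om a θ) = red O (Om e θ)) (h : H) :
    red O (a h) = red O (e h) := by
  have hδcl : IsCl (fun h : H => a h - e h) := by
    intro g y
    change a (y * g * y⁻¹) - e (y * g * y⁻¹) = _
    rw [ha g y, he g y]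
  have hδO : ∀ h, a h - e h ∈ O := fun h => sub_mem' (haO h) (heO h)
  have h1 := nilp hδcl hδO (by
    intro θ hθ
    rw [Om_sub, red_sub (Om_mem hθ ha haO) (Om_mem hθ he heO), h0 θ hθ, sub_self])
  rw [toA_sub haO heO] at h1
  have hcm := toA_comm ha he haO heO
  set A := toA O a
  set E := toA O e
  have h3 : (A - E) * (A - E) * (A - E) = A - E := by
    have e1 : (A - E) * (A - E) = A - A * E - A * E + E := by
      calc (A - E) * (A - E) = A * A - A * E - E * A + E * E := by noncomm_ring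
        _ = _ := by rw [haa, hee, ← hcm]
    have e2 : A * E * A = A * E := by rw [mul_assoc, ← hcm, ← mul_assoc, haa]
    have e3 : A * E * E = A * E := by rw [mul_assoc, hee]
    rw [e1]
    calc (A - A * E - A * E + E) * (A - E) = A * A - A * E - (A * E * A - A * E * E)
          - (A * E * A - A * E * E) + E * A - E * E := by noncomm_ring
      _ = A - E := by
        rw [haa, hee, e2, e3, ← hcm]
        noncomm_ring
  have h4 : ∀ n : ℕ, (A - E) ^ (2 * n + 1) = A - E := by
    intro n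
    induction n with
    | zero => simp
    | succ n ih =>
      have : 2 * (n + 1) + 1 = (2 * n + 1) + 1 + 1 := by ring
      rw [this, pow_succ, pow_succ, ih, h3]
  have h5 : A - E = 0 := by
    rw [← h4 (IC.Irr H).card]
    have : 2 * (IC.Irr H).card + 1 = (IC.Irr H).card + ((IC.Irr H).card + 1) := by ring
    rw [this, pow_add, h1, zero_mul]
  have h6 : toA O a = toA O e := sub_eq_zero.mp h5
  rw [← toA_coeff, ← toA_coeff, h6]

lemma toA_congr {f g : H → ℂ} (h : ∀ x, red O (f x) = red O (g x)) : toA O f = toA O g := by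
  unfold toA
  refine Finset.sum_congr rfl fun x _ => ?_
  rw [h x]

lemma red_Om_congr {f g : H → ℂ} (hf : IsCl f) (hg : IsCl g) (hfO : ∀ x, f x ∈ O)
    (hgO : ∀ x, g x ∈ O) (h : ∀ x, red O (f x) = red O (g x)) {θ : H → ℂ} (hθ : IsIrr θ) :
    red O (Om f θ) = red O (Om g θ) := by
  rw [Pool.Agent.N20.red_Om hθ hf hfO, Pool.Agent.N20.red_Om hθ hg hgO]
  refine Finset.sum_congr rfl fun K _ => ?_
  rw [h]

/-- block idempotents are idempotent -/
lemma conv_blockCoeff {B : Set (H → ℂ)} (hB : ∀ χ ∈ B, IsIrr χ) :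
    conv (blockCoeff B) (blockCoeff B) = blockCoeff B := by
  apply eq_of_Om ((blockCoeff_cl hB).conv (blockCoeff_cl hB)) (blockCoeff_cl hB)
  intro χ hχ
  rw [Om_conv hχ (blockCoeff_cl hB) (blockCoeff_cl hB), Om_blockCoeff hB hχ]
  split_ifs <;> ring

/-- the block of a character -/
def blk (O : ValuationSubring ℂ) (θ : H → ℂ) : Set (H → ℂ) :=
  {χ | IsIrr χ ∧ ∀ x : H, omega χ x - omega θ x ∈ O.nonunits}

lemma blk_block {θ : H → ℂ} (hθ : IsIrr θ) : IsBlock O (blk O θ) := ⟨θ, hθ, rfl⟩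

lemma mem_blk {θ : H → ℂ} (hθ : IsIrr θ) : θ ∈ blk O θ :=
  ⟨hθ, fun x => by rw [sub_self]; exact O.nonunits.zero_mem⟩

lemma mem_blk_iff {θ χ : H → ℂ} (hθ : IsIrr θ) (hχ : IsIrr χ) :
    χ ∈ blk O θ ↔ ∀ x, red O (omega χ x) = red O (omega θ x) := by
  constructor
  · intro h x
    exact (red_eq_iff (hχ.omega_mem O x) (hθ.omega_mem O x)).mpr (h.2 x)
  · intro h
    exact ⟨hχ, fun x => (red_eq_iff (hχ.omega_mem O x) (hθ.omega_mem O x)).mp (h x)⟩

lemma blk_eq_of_mem {θ χ : H → ℂ} (hθ : IsIrr θ) (hχ : χ ∈ blk O θ) : blk O χ = blk O θ := by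
  have hχi := hχ.1
  have h1 := (mem_blk_iff hθ hχi).mp hχ
  ext ψ
  constructor
  · intro h
    rw [mem_blk_iff hθ h.1]
    intro x
    rw [← h1 x]
    exact (mem_blk_iff hχi h.1).mp h x
  · intro h
    rw [mem_blk_iff hχi h.1]
    intro x
    rw [h1 x]
    exact (mem_blk_iff hθ h.1).mp h x

/-- the coefficients of a union of blocks -/
lemma blockCoeff_union {C : Set (H → ℂ)} (hC : ∀ χ ∈ C, IsIrr χ)
    (hC2 : ∀ θ ∈ C, ∀ χ ∈ blk O θ, χ ∈ C) (y : H) :
    blockCoeff C y = ∑ b ∈ ((IC.Irr H).filter (· ∈ C)).image (blk O), blockCoeff b y := by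
  have h2 : ∀ b ∈ ((IC.Irr H).filter (· ∈ C)).image (blk O), blockCoeff b y =
      (Nat.card H : ℂ)⁻¹ * ∑ χ ∈ ((IC.Irr H).filter (· ∈ C)).filter (fun χ => blk O χ = b),
        χ 1 * χ y⁻¹ := by
    intro b hb
    obtain ⟨θ, hθ, rfl⟩ := Finset.mem_image.mp hb
    obtain ⟨hθ1, hθ2⟩ := Finset.mem_filter.mp hθ
    have hθi := mem_Irr.mp hθ1
    rw [blockCoeff_eq (fun χ hχ => hχ.1)]
    congr 1
    apply Finset.sum_congr _ fun _ _ => rfl
    ext χ
    simp only [Finset.mem_filter]
    constructor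
    · rintro ⟨h3, h4⟩
      exact ⟨⟨h3, hC2 θ hθ2 χ h4⟩, blk_eq_of_mem hθi h4⟩
    · rintro ⟨⟨h3, h4⟩, h5⟩
      refine ⟨h3, ?_⟩
      rw [← h5]
      exact mem_blk (mem_Irr.mp h3)
  rw [Finset.sum_congr rfl h2, blockCoeff_eq hC, ← Finset.mul_sum,
    Finset.sum_fiberwise_of_maps_to (fun χ hχ => Finset.mem_image_of_mem _ hχ)]

end algebra

section brauer

variable {G : Type} [Group G] [Fintype G] {O : ValuationSubring ℂ} {p : ℕ} [hp : Fact p.Prime]
  (hpO : (p : ℂ) ∈ O.nonunits) {u : G} {k : ℕ} (hu : orderOf u = p ^ k)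

/-- restriction to the centralizer -/
def rs (u : G) (f : G → ℂ) (h : CC u) : ℂ := f h

lemma dl_coe (u : G) (h : CC u) : (dl (h : G) : ℂ) = dl h := by
  unfold dl
  by_cases h2 : h = 1
  · simp [h2]
  · have h3 : ¬ (h : G) = 1 := fun h3 => h2 (Subtype.ext h3)
    rw [if_neg h2, if_neg h3]

lemma rs_cl (u : G) {f : G → ℂ} (hf : IsCl f) : IsCl (rs u f) := fun g y => hf (g : G) (y : G)

include hpO hu in
/-- the Brauer map is multiplicative -/
lemma red_rs_conv {f g : G → ℂ} (hf : IsCl f) (hg : IsCl g) (hfO : ∀ x, f x ∈ O)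
    (hgO : ∀ x, g x ∈ O) (y : CC u) :
    red O (rs u (conv f g) y) = red O (conv (rs u f) (rs u g) y) := by
  haveI := charP_RF hpO
  have hP : IsPGroup p (Subgroup.zpowers u) := IsPGroup.of_card (n := k) (by
    rw [Nat.card_zpowers, hu])
  have hmem : ∀ x : G, f x * g (x⁻¹ * y) ∈ O := fun x => O.mul_mem _ _ (hfO _) (hgO _)
  have h1 : red O (rs u (conv f g) y) = ∑ x : G, red O (f x * g (x⁻¹ * y)) := by
    unfold rs conv
    rw [red_sum _ _ (fun x _ => hmem x)]
  letI : MulAction (Subgroup.zpowers u) G :=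
    MulAction.compHom G ((MulAut.conj : G →* MulAut G).comp (Subgroup.zpowers u).subtype)
  have hyc : ∀ d ∈ Subgroup.zpowers u, d * (y : G) = y * d := by
    intro d hd
    obtain ⟨i, rfl⟩ := Subgroup.mem_zpowers_iff.mp hd
    have h2 : Commute u (y : G) := mem_CC.mp y.2
    exact (h2.zpow_left i).eq
  have h3 := sum_fixed hP (X := G) (F := RF O)
    (fun a => by rw [← Nat.cast_smul_eq_nsmul (RF O), CharP.cast_eq_zero, zero_smul])
    (fun x => red O (f x * g (x⁻¹ * y))) (by
      intro d x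
      have e1 : d • x = (d : G) * x * (d : G)⁻¹ := rfl
      have e2 : ((d : G) * x * (d : G)⁻¹)⁻¹ * (y : G) = (d : G) * (x⁻¹ * y) * (d : G)⁻¹ := by
        have h4 := hyc (d : G)⁻¹ (Subgroup.inv_mem _ d.2)
        calc ((d : G) * x * (d : G)⁻¹)⁻¹ * (y : G) = (d : G) * x⁻¹ * ((d : G)⁻¹ * y) := by group
          _ = _ := by rw [h4]; group
      rw [e1, e2, hf, hg])
  rw [h1, h3]
  have h5 : red O (conv (rs u f) (rs u g) y) =
      ∑ x : CC u, red O (f (x : G) * g ((x : G)⁻¹ * y)) := by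
    unfold conv
    rw [red_sum]
    · rfl
    · intro x _
      exact O.mul_mem _ _ (hfO _) (hgO _)
  rw [h5]
  symm
  apply Finset.sum_bij (fun (x : CC u) _ => (x : G))
  · intro x _
    simp only [Finset.mem_filter, Finset.mem_univ, true_and]
    intro d
    have e1 : d • (x : G) = (d : G) * x * (d : G)⁻¹ := rfl
    rw [e1]
    obtain ⟨i, hi⟩ := Subgroup.mem_zpowers_iff.mp d.2
    have h2 : Commute u (x : G) := mem_CC.mp x.2
    have h6 : (d : G) * x = x * d := by
      rw [← hi]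
      exact (h2.zpow_left i).eq
    rw [h6, mul_inv_cancel_right]
  · intro x _ x' _ h
    exact Subtype.ext h
  · intro x hx
    simp only [Finset.mem_filter, Finset.mem_univ, true_and] at hx
    have h6 := hx ⟨u, Subgroup.mem_zpowers u⟩
    have h7 : u * x * u⁻¹ = x := h6
    refine ⟨⟨x, mem_CC.mpr ?_⟩, Finset.mem_univ _, rfl⟩
    have h8 := congrArg (· * u) h7
    simpa [mul_assoc] using h8
  · intro x _
    rfl

/-- the functional attached to a character of the centralizer -/
def Lam (O : ValuationSubring ℂ) (u : G) (θ : CC u → ℂ) (f : G → ℂ) : RF O :=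
  red O (Om (rs u f) θ)

include hpO hu in
lemma Lam_conv {f g : G → ℂ} (hf : IsCl f) (hg : IsCl g) (hfO : ∀ x, f x ∈ O)
    (hgO : ∀ x, g x ∈ O) {θ : CC u → ℂ} (hθ : IsIrr θ) :
    Lam O u θ (conv f g) = Lam O u θ f * Lam O u θ g := by
  unfold Lam
  have h1 := red_Om_congr (rs_cl u (hf.conv hg)) ((rs_cl u hf).conv (rs_cl u hg))
    (fun x => conv_mem hfO hgO _) (fun x => conv_mem (fun _ => hfO _) (fun _ => hgO _) x)
    (red_rs_conv hpO hu hf hg hfO hgO) hθ
  rw [h1, Om_conv hθ (rs_cl u hf) (rs_cl u hg),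
    red_mul (Om_mem hθ (rs_cl u hf) (fun _ => hfO _)) (Om_mem hθ (rs_cl u hg) (fun _ => hgO _))]

lemma Lam_congr {f : G → ℂ} (hf : IsCl f) (hfO : ∀ x, f x ∈ O) {θ χ : CC u → ℂ} (hθ : IsIrr θ)
    (hχ : χ ∈ blk O θ) : Lam O u χ f = Lam O u θ f := by
  unfold Lam
  rw [Pool.Agent.N20.red_Om hχ.1 (rs_cl u hf) (fun _ => hfO _),
    Pool.Agent.N20.red_Om hθ (rs_cl u hf) (fun _ => hfO _)]
  refine Finset.sum_congr rfl fun K _ => ?_
  rw [(mem_blk_iff hθ hχ.1).mp hχ]

include hpO hu in
/-- if `e_B` does not act as zero on a character `θ` of the centralizer, then the central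
characters of `B` are induced from the one of `θ` -/
theorem Lam_eq {B : Set (G → ℂ)} (hB : IsBlock O B) {θ : CC u → ℂ} (hθ : IsIrr θ)
    (hne : Lam O u θ (blockCoeff B) ≠ 0) {f : G → ℂ} (hf : IsCl f) (hfO : ∀ x, f x ∈ O)
    {χ : G → ℂ} (hχ : χ ∈ B) : Lam O u θ f = red O (Om f χ) := by
  have key : ∀ T : Finset (G → ℂ), (∀ ψ ∈ T, ψ ∈ B) → ∃ z : G → ℂ, IsCl z ∧ (∀ h, z h ∈ O) ∧
      (∀ ψ ∈ T, Om z ψ = 0) ∧ Lam O u θ z = (Lam O u θ f - red O (Om f χ)) ^ T.card := by
    intro T
    induction T using Finset.induction_on with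
    | empty =>
      intro _
      refine ⟨dl, dl_cl, dl_mem O, by simp, ?_⟩
      rw [Finset.card_empty, pow_zero]
      unfold Lam
      have h1 : rs u (dl : G → ℂ) = dl := funext (dl_coe u)
      rw [h1, Om_dl hθ, red_one]
    | insert a s ha ih =>
      intro hT
      obtain ⟨z, hz1, hz2, hz3, hz4⟩ := ih fun θ hθ => hT θ (Finset.mem_insert_of_mem hθ)
      have haB := hT a (Finset.mem_insert_self a s)
      have hai := hB.irr a haB
      have hc : Om f a ∈ O := Om_mem hai hf hfO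
      have hcl : IsCl (fun h : G => f h - Om f a * dl h) := by
        intro g y
        change f (y * g * y⁻¹) - Om f a * dl (y * g * y⁻¹) = _
        rw [hf g y, dl_cl g y]
      have hmem2 : ∀ h : G, Om f a * dl h ∈ O := fun h => O.mul_mem _ _ hc (dl_mem O h)
      have hmem : ∀ h : G, f h - Om f a * dl h ∈ O := fun h => sub_mem' (hfO h) (hmem2 h)
      refine ⟨conv z (fun h => f h - Om f a * dl h), hz1.conv hcl, conv_mem hz2 hmem, ?_, ?_⟩
      · intro ψ hψ
        have hψi := hB.irr ψ (hT ψ hψ)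
        rw [Om_conv hψi hz1 hcl]
        rcases Finset.mem_insert.mp hψ with rfl | hψ
        · rw [Om_sub, Om_smul, Om_dl hψi, mul_one, sub_self, mul_zero]
        · rw [hz3 ψ hψ, zero_mul]
      · rw [Lam_conv hpO hu hz1 hcl hz2 hmem hθ, hz4, Finset.card_insert_of_notMem ha, pow_succ]
        congr 1
        unfold Lam
        have h1 : rs u (fun h : G => f h - Om f a * dl h) =
            fun h => rs u f h - Om f a * dl h := by
          funext h
          change f h - Om f a * dl (h : G) = f h - Om f a * dl h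
          rw [dl_coe]
        rw [h1, Om_sub, Om_smul, Om_dl hθ, mul_one,
          red_sub (Om_mem hθ (rs_cl u hf) (fun _ => hfO _)) hc]
        congr 1
        rw [Pool.Agent.N20.red_Om hai hf hfO, Pool.Agent.N20.red_Om (hB.irr χ hχ) hf hfO]
        refine Finset.sum_congr rfl fun K _ => ?_
        rw [hB.red_eq haB hχ]
  obtain ⟨z, hz1, hz2, hz3, hz4⟩ := key (XB B) (fun ψ hψ => (mem_XB hB.irr).mp hψ)
  have hecl := blockCoeff_cl hB.irr
  have hz : conv z (blockCoeff B) = fun _ => 0 := by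
    apply eq_of_Om (hz1.conv hecl) (fun _ _ => rfl)
    intro ψ hψ
    rw [Om_conv hψ hz1 hecl, Om_zero, Om_blockCoeff hB.irr hψ]
    split_ifs with h
    · rw [hz3 ψ ((mem_XB hB.irr).mpr h), zero_mul]
    · rw [mul_zero]
  have h1 := Lam_conv hpO hu hz1 hecl hz2 (blockCoeff_mem hB) hθ
  have h2 : Lam O u θ (conv z (blockCoeff B)) = 0 := by
    rw [hz]
    unfold Lam
    have : rs u (fun _ : G => (0 : ℂ)) = fun _ => 0 := rfl
    rw [this, Om_zero, red_zero]
  rw [h2, hz4] at h1
  have h3 := (mul_eq_zero.mp h1.symm).resolve_right hne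
  have h4 : (XB B).card ≠ 0 := (Finset.card_pos.mpr ⟨χ, (mem_XB hB.irr).mpr hχ⟩).ne'
  exact sub_eq_zero.mp ((pow_eq_zero_iff h4).mp h3)

end brauer

end Pool.Agent.J6H19.KB
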