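import Mathlib

/-!
A mean value estimate for integral matrices which are proportional to projections and have rank
one modulo `p`.
-/

set_option autoImplicit false
set_option linter.unusedSectionVars false

open scoped BigOperators Classical

noncomputable section

namespace Pool.Agent.J6H19.KB

section form

variable {Q : Type} [Fintype Q] (N : Q → Q → ℤ)

/-- the bilinear form of a matrix -/
def bf (v w : Q → ℤ) : ℤ := ∑ x, ∑ y, v x * w y * N x y

variable {N} {c : ℤ} (hc : 0 < c) (hsym : ∀ x y, N x y = N y x)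
  (hsq : ∀ x y, ∑ z, N x z * N z y = c * N x y)

include hsym hsq in
lemma sum_sq_form (v : Q → ℤ) : ∑ z, (∑ x, v x * N x z) ^ 2 = c * bf N v v := by
  have h1 : ∀ z, (∑ x, v x * N x z) ^ 2 = ∑ x, ∑ y, v x * v y * (N x z * N z y) := by
    intro z
    rw [sq, Finset.sum_mul_sum]
    refine Finset.sum_congr rfl fun x _ => Finset.sum_congr rfl fun y _ => ?_
    rw [hsym z y]
    ring
  rw [Finset.sum_congr rfl fun z _ => h1 z, Finset.sum_comm]
  unfold bf
  rw [Finset.mul_sum]
  refine Finset.sum_congr rfl fun x _ => ?_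
  rw [Finset.sum_comm, Finset.mul_sum]
  refine Finset.sum_congr rfl fun y _ => ?_
  rw [← Finset.mul_sum, hsq]
  ring

include hc hsym hsq in
lemma bf_nonneg (v : Q → ℤ) : 0 ≤ bf N v v := by
  have h1 := sum_sq_form hsym hsq v
  have h2 : 0 ≤ ∑ z, (∑ x, v x * N x z) ^ 2 := Finset.sum_nonneg fun _ _ => sq_nonneg _
  rw [h1] at h2
  exact nonneg_of_mul_nonneg_right h2 hc

include hc hsym hsq in
lemma bf_le (v : Q → ℤ) : bf N v v ≤ c * ∑ x, v x ^ 2 := by
  have h1 := sum_sq_form hsym hsq v
  have h2 : 0 ≤ ∑ z, (c * v z - ∑ x, v x * N x z) ^ 2 := Finset.sum_nonneg fun _ _ => sq_nonneg _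
  have h3 : ∑ z, (c * v z - ∑ x, v x * N x z) ^ 2 =
      c * (c * ∑ x, v x ^ 2 - bf N v v) := by
    have h4 : ∀ z, (c * v z - ∑ x, v x * N x z) ^ 2 =
        c * (c * v z ^ 2) - 2 * c * (∑ x, v x * v z * N x z) + (∑ x, v x * N x z) ^ 2 := by
      intro z
      have : ∑ x, v x * v z * N x z = v z * ∑ x, v x * N x z := by
        rw [Finset.mul_sum]
        exact Finset.sum_congr rfl fun x _ => by ring
      rw [this]
      ring
    rw [Finset.sum_congr rfl fun z _ => h4 z, Finset.sum_add_distrib, Finset.sum_sub_distrib, h1,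
      ← Finset.mul_sum, ← Finset.mul_sum, ← Finset.mul_sum, Finset.sum_comm]
    unfold bf
    ring
  rw [h3] at h2
  have h5 := nonneg_of_mul_nonneg_right h2 hc
  linarith

include hc hsym hsq in
lemma bf_cross (v w : Q → ℤ) : 2 * bf N v w ≤ c * (∑ x, v x ^ 2 + ∑ x, w x ^ 2) := by
  have h1 := bf_nonneg hc hsym hsq (fun x => v x - w x)
  have h2 := bf_le hc hsym hsq v
  have h3 := bf_le hc hsym hsq w
  have h4 : bf N (fun x => v x - w x) (fun x => v x - w x) =
      bf N v v - 2 * bf N v w + bf N w w := by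
    have h5 : bf N w v = bf N v w := by
      unfold bf
      rw [Finset.sum_comm]
      refine Finset.sum_congr rfl fun x _ => Finset.sum_congr rfl fun y _ => ?_
      rw [hsym y x]
      ring
    have h6 : bf N (fun x => v x - w x) (fun x => v x - w x) =
        bf N v v - bf N v w - bf N w v + bf N w w := by
      unfold bf
      rw [← Finset.sum_sub_distrib, ← Finset.sum_sub_distrib, ← Finset.sum_add_distrib]
      refine Finset.sum_congr rfl fun x _ => ?_
      rw [← Finset.sum_sub_distrib, ← Finset.sum_sub_distrib, ← Finset.sum_add_distrib]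
      refine Finset.sum_congr rfl fun y _ => ?_
      ring
    rw [h6, h5]
    ring
  linarith

end form

section res

variable {p : ℕ} [hp : Fact p.Prime] {Q : Type} [Fintype Q] {N : Q → Q → ℤ} {c : ℤ}
  (hc : 0 < c) (hsym : ∀ x y, N x y = N y x)
  (hsq : ∀ x y, ∑ z, N x z * N z y = c * N x y)
  (A : Finset Q) (w : Q → ZMod p) (lam : ZMod p)

/-- signed indicators of residue classes -/
def ev (A : Finset Q) (w : Q → ZMod p) (h : ZMod p) (x : Q) : ℤ :=
  if x ∈ A then (if w x = h then 1 else 0) - (if w x = -h then 1 else 0) else 0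

/-- signed indicators on a pair -/
def sg (r a : ZMod p) : ℤ := (if a = r then 1 else 0) - (if a = -r then 1 else 0)

lemma sg_neg (r a : ZMod p) : sg r (-a) = - sg r a := by
  unfold sg
  have h1 : (-a = r) ↔ (a = -r) := by
    constructor
    · intro h; rw [← h, neg_neg]
    · intro h; rw [h, neg_neg]
  have h2 : (-a = -r) ↔ (a = r) := neg_inj
  simp only [h1, h2]
  ring

lemma sum_ev_sq : ∑ h : ZMod p, ∑ x, ev A w h x ^ 2 ≤ 2 * A.card := by
  rw [Finset.sum_comm]
  have h1 : ∀ x, ∑ h : ZMod p, ev A w h x ^ 2 ≤ if x ∈ A then 2 else 0 := by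
    intro x
    unfold ev
    split_ifs with hx
    · calc ∑ h : ZMod p, ((if w x = h then (1 : ℤ) else 0) - (if w x = -h then 1 else 0)) ^ 2
          ≤ ∑ h : ZMod p, ((if w x = h then (1 : ℤ) else 0) + (if w x = -h then 1 else 0)) := by
            refine Finset.sum_le_sum fun h _ => ?_
            split_ifs <;> norm_num
        _ = 2 := by
            rw [Finset.sum_add_distrib]
            have e1 : ∑ h : ZMod p, (if w x = h then (1 : ℤ) else 0) = 1 := by simp
            have e2 : ∑ h : ZMod p, (if w x = -h then (1 : ℤ) else 0) = 1 := by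
              rw [← e1]
              refine Fintype.sum_equiv (Equiv.neg (ZMod p)) _ _ fun h => ?_
              simp
            rw [e1, e2]
            norm_num
    · simp
  calc ∑ x, ∑ h : ZMod p, ev A w h x ^ 2 ≤ ∑ x, (if x ∈ A then (2 : ℤ) else 0) :=
        Finset.sum_le_sum fun x _ => h1 x
    _ = 2 * A.card := by
        rw [← Finset.sum_filter, Finset.filter_mem_eq_inter, Finset.univ_inter, Finset.sum_const,
          nsmul_eq_mul]
        ring

/-- the residue sums -/
def ER (N : Q → Q → ℤ) (A : Finset Q) (r : ZMod p) : ℤ :=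
  ∑ x ∈ A, ∑ y ∈ A, sg r (N x y : ZMod p) * N x y

include hc hsym hsq in
/-- **The key estimate**: residues `r` and `-r` almost cancel. -/
theorem ER_le (hlam : lam ≠ 0) (hw : ∀ x ∈ A, w x ≠ 0)
    (hN : ∀ x ∈ A, ∀ y ∈ A, (N x y : ZMod p) = lam * w x * w y) {r : ZMod p} (hr : r ≠ 0) :
    ER N A r ≤ c * A.card := by
  -- the pairing of residue classes
  have h1 : ∑ h : ZMod p, bf N (ev A w h) (ev A w (r / (lam * h))) = 2 * ER N A r := by
    unfold bf ER
    rw [Finset.sum_comm]
    have h2 : ∀ x, ∑ h : ZMod p, ∑ y, ev A w h x * ev A w (r / (lam * h)) y * N x y =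
        if x ∈ A then 2 * ∑ y ∈ A, sg r (N x y : ZMod p) * N x y else 0 := by
      intro x
      split_ifs with hx
      · rw [Finset.sum_comm, Finset.mul_sum]
        have h3 : ∀ y, ∑ h : ZMod p, ev A w h x * ev A w (r / (lam * h)) y * N x y =
            if y ∈ A then 2 * (sg r (N x y : ZMod p) * N x y) else 0 := by
          intro y
          split_ifs with hy
          · rw [← Finset.sum_mul]
            have h4 : ∑ h : ZMod p, ev A w h x * ev A w (r / (lam * h)) y =
                2 * sg r (N x y : ZMod p) := by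
              have hx0 := hw x hx
              have hy0 := hw y hy
              have h5 : ∀ h : ZMod p, ev A w h x * ev A w (r / (lam * h)) y =
                  (if w x = h then ev A w (r / (lam * h)) y else 0) -
                  (if w x = -h then ev A w (r / (lam * h)) y else 0) := by
                intro h
                unfold ev
                simp only [hx, if_true]
                split_ifs <;> ring
              rw [Finset.sum_congr rfl fun h _ => h5 h, Finset.sum_sub_distrib]
              have h6 : ∑ h : ZMod p, (if w x = h then ev A w (r / (lam * h)) y else 0) =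
                  ev A w (r / (lam * w x)) y := by
                rw [Finset.sum_ite_eq, if_pos (Finset.mem_univ _)]
              have h7 : ∑ h : ZMod p, (if w x = -h then ev A w (r / (lam * h)) y else 0) =
                  ev A w (r / (lam * (- w x))) y := by
                have e0 : ∀ h : ZMod p, (w x = -h) ↔ (-w x = h) := by
                  intro h
                  constructor
                  · intro e; rw [e, neg_neg]
                  · intro e; rw [← e, neg_neg]
                simp only [e0]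
                rw [Finset.sum_ite_eq, if_pos (Finset.mem_univ _)]
              rw [h6, h7]
              have h8 : r / (lam * -w x) = -(r / (lam * w x)) := by
                rw [mul_neg, div_neg]
              rw [h8]
              unfold ev sg
              simp only [hy, if_true, neg_neg]
              rw [hN x hx y hy]
              have h9 : (w y = r / (lam * w x)) ↔ (lam * w x * w y = r) := by
                rw [eq_div_iff (mul_ne_zero hlam hx0)]
                constructor
                · intro e; rw [← e]; ring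
                · intro e; rw [← e]; ring
              have h10 : (w y = -(r / (lam * w x))) ↔ (lam * w x * w y = -r) := by
                rw [← neg_div, eq_div_iff (mul_ne_zero hlam hx0)]
                constructor
                · intro e; rw [← e]; ring
                · intro e; rw [← e]; ring
              simp only [h9, h10]
              ring
            rw [h4]
            ring
          · rw [Finset.sum_eq_zero]
            intro h _
            have : ev A w (r / (lam * h)) y = 0 := by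
              unfold ev
              rw [if_neg hy]
            rw [this]
            ring
        rw [Finset.sum_congr rfl fun y _ => h3 y, ← Finset.sum_filter,
          Finset.filter_mem_eq_inter, Finset.univ_inter]
      · rw [Finset.sum_eq_zero]
        intro h _
        rw [Finset.sum_eq_zero]
        intro y _
        have : ev A w h x = 0 := by
          unfold ev
          rw [if_neg hx]
        rw [this]
        ring
    rw [Finset.sum_congr rfl fun x _ => h2 x, ← Finset.sum_filter, Finset.filter_mem_eq_inter,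
      Finset.univ_inter, Finset.mul_sum]
  have h2 : ∑ h : ZMod p, 2 * bf N (ev A w h) (ev A w (r / (lam * h))) ≤
      ∑ h : ZMod p, c * (∑ x, ev A w h x ^ 2 + ∑ x, ev A w (r / (lam * h)) x ^ 2) :=
    Finset.sum_le_sum fun h _ => bf_cross hc hsym hsq _ _
  rw [← Finset.mul_sum, h1, ← Finset.mul_sum, Finset.sum_add_distrib] at h2
  have h3 : ∑ h : ZMod p, ∑ x, ev A w (r / (lam * h)) x ^ 2 =
      ∑ h : ZMod p, ∑ x, ev A w h x ^ 2 := by
    have hinv : Function.Involutive (fun h : ZMod p => r / (lam * h)) := by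
      intro h
      by_cases h0 : h = 0
      · subst h0
        simp
      · field_simp
    refine Fintype.sum_equiv hinv.toPerm _ _ fun h => ?_
    rfl
  rw [h3] at h2
  have h4 := sum_ev_sq A w
  have h5 : c * (∑ h : ZMod p, ∑ x, ev A w h x ^ 2 + ∑ h : ZMod p, ∑ x, ev A w h x ^ 2) ≤
      c * (4 * A.card) := by
    apply mul_le_mul_of_nonneg_left _ hc.le
    linarith
  linarith

end res

section point

variable {p : ℕ} [hp : Fact p.Prime]

/-- the small residues -/
def sm (p : ℕ) : Finset ℕ := (Finset.range p).filter (fun m => 0 < m ∧ m ^ 2 < p - 1)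

/-- the constant of the mean value estimate -/
def cst (p : ℕ) : ℝ := ∑ m ∈ sm p, (((p : ℝ) - 1) / m - m)

lemma mem_sm {m : ℕ} (h : m ∈ sm p) : 0 < m ∧ m ^ 2 < p - 1 ∧ 2 * m < p := by
  unfold sm at h
  obtain ⟨-, h1, h2⟩ := Finset.mem_filter.mp h
  refine ⟨h1, h2, ?_⟩
  by_contra hcon
  push Not at hcon
  have h3 : p * p ≤ 2 * m * (2 * m) := Nat.mul_le_mul hcon hcon
  have h4 : m ^ 2 + 1 < p := by omega
  nlinarith [hp.out.two_le, sq_nonneg ((p : ℤ) - 2)]

lemma mem_sm' {m : ℕ} (h1 : 0 < m) (h2 : m ^ 2 < p - 1) : m ∈ sm p := by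
  unfold sm
  rw [Finset.mem_filter, Finset.mem_range]
  refine ⟨?_, h1, h2⟩
  nlinarith [Nat.sub_le p 1]

lemma fact_nonneg {m n k : ℤ} (hm : 1 ≤ m) (hmp : m ≤ p - 1) (hn : n = m + p * k) :
    0 ≤ (n - m) * (m * n + (p - 1)) := by
  have hp1 : (1 : ℤ) ≤ p := by exact_mod_cast hp.out.one_lt.le
  rcases le_or_gt 0 k with hk | hk
  · have h1 : 0 ≤ (p : ℤ) * k := mul_nonneg (by linarith) hk
    have h2 : 0 ≤ m * n := by
      apply mul_nonneg <;> linarith
    apply mul_nonneg
    · rw [hn]; linarith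
    · linarith
  · have h1 : (p : ℤ) * k ≤ -p := by nlinarith
    have h2 : n ≤ m - p := by linarith
    have h3 : m * n + (p - 1) ≤ 0 := by
      have h4 : m * n ≤ m * (m - p) := mul_le_mul_of_nonneg_left h2 (by linarith)
      have h5 : m * (m - p) + (p - 1) = (m - 1) * (m + 1 - p) := by ring
      have h6 : (m - 1) * (m + 1 - p) ≤ 0 :=
        mul_nonpos_of_nonneg_of_nonpos (by linarith) (by linarith)
      linarith
    apply mul_nonneg_of_nonpos_of_nonpos _ h3
    rw [hn]
    linarith

/-- the pointwise estimate -/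
theorem point_le (hp2 : p ≠ 2) {n : ℤ} (hn : (n : ZMod p) ≠ 0) :
    (p : ℝ) - 1 ≤ (n : ℝ) ^ 2 +
      ∑ m ∈ sm p, (((p : ℝ) - 1) / m - m) * ((sg (m : ZMod p) (n : ZMod p) * n : ℤ) : ℝ) := by
  have : NeZero p := ⟨hp.out.ne_zero⟩
  have hp3 : p % 2 = 1 := by
    rcases hp.out.eq_two_or_odd with h | h
    · exact absurd h hp2
    · exact h
  set r := (n : ZMod p).valMinAbs with hr
  have hrn : ((r : ℤ) : ZMod p) = (n : ZMod p) := ZMod.coe_valMinAbs _
  have hr0 : r ≠ 0 := by
    intro h
    rw [h, Int.cast_zero] at hrn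
    exact hn hrn.symm
  have hle : r.natAbs ≤ p / 2 := ZMod.natAbs_valMinAbs_le _
  obtain ⟨k, hk⟩ : ∃ k : ℤ, n = r + p * k := by
    have h1 : (p : ℤ) ∣ n - r := by
      rw [← ZMod.intCast_zmod_eq_zero_iff_dvd, Int.cast_sub, hrn, sub_self]
    obtain ⟨k, hk⟩ := h1
    exact ⟨k, by linarith⟩
  have key1 : ∀ m ∈ sm p, ((n : ZMod p) = (m : ZMod p)) ↔ r = m := by
    intro m hm
    obtain ⟨h1, h2, h3⟩ := mem_sm hm
    constructor
    · intro h
      rw [hr, h]
      exact ZMod.valMinAbs_natCast_of_le_half (by omega)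
    · intro h
      rw [← hrn, h]
      simp
  have key2 : ∀ m ∈ sm p, ((n : ZMod p) = -(m : ZMod p)) ↔ r = -(m : ℤ) := by
    intro m hm
    obtain ⟨h1, h2, h3⟩ := mem_sm hm
    constructor
    · intro h
      rw [hr, h, ZMod.valMinAbs_neg_of_ne_half]
      · rw [ZMod.valMinAbs_natCast_of_le_half (by omega)]
      · rw [ZMod.val_natCast_of_lt (by omega)]
        omega
    · intro h
      rw [← hrn, h]
      simp
  by_cases hsm : r.natAbs ∈ sm p
  · obtain ⟨h1, h2, h3⟩ := mem_sm hsm
    have hother : ∀ m ∈ sm p, m ≠ r.natAbs →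
        (((p : ℝ) - 1) / m - m) * ((sg (m : ZMod p) (n : ZMod p) * n : ℤ) : ℝ) = 0 := by
      intro m hm hne
      have e1 : ¬ ((n : ZMod p) = (m : ZMod p)) := by
        rw [key1 m hm]
        intro h
        apply hne
        rw [h]
        simp
      have e2 : ¬ ((n : ZMod p) = -(m : ZMod p)) := by
        rw [key2 m hm]
        intro h
        apply hne
        rw [h]
        simp
      unfold sg
      rw [if_neg e1, if_neg e2]
      simp
    rw [Finset.sum_eq_single r.natAbs hother (fun h => absurd hsm h)]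
    set m := r.natAbs with hm
    have hmR : (0 : ℝ) < m := by exact_mod_cast h1
    have hfac : ∀ n' : ℤ, (∃ k' : ℤ, n' = m + p * k') →
        (p : ℝ) - 1 ≤ (n' : ℝ) ^ 2 + (((p : ℝ) - 1) / m - m) * n' := by
      rintro n' ⟨k', hk'⟩
      have h4 := fact_nonneg (p := p) (m := (m : ℤ)) (n := n') (k := k') (by exact_mod_cast h1)
        (by
          have : m + 1 ≤ p := by omega
          have h5 : ((m + 1 : ℕ) : ℤ) ≤ p := by exact_mod_cast this
          push_cast at h5
          linarith) hk'
      have h5 : (0 : ℝ) ≤ ((n' : ℝ) - m) * (m * n' + (p - 1)) := by exact_mod_cast h4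
      have h6 : (n' : ℝ) ^ 2 + (((p : ℝ) - 1) / m - m) * n' - (p - 1) =
          ((n' : ℝ) - m) * (m * n' + (p - 1)) / m := by
        field_simp
        ring
      have h7 : 0 ≤ ((n' : ℝ) - m) * (m * n' + (p - 1)) / m := div_nonneg h5 hmR.le
      linarith
    rcases Int.natAbs_eq r with hrm | hrm
    · rw [← hm] at hrm
      have e1 : (n : ZMod p) = (m : ZMod p) := (key1 m hsm).mpr hrm
      have e2 : ¬ ((n : ZMod p) = -(m : ZMod p)) := by
        rw [key2 m hsm, hrm]
        have : (0 : ℤ) < m := by exact_mod_cast h1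
        intro h
        linarith
      have h4 := hfac n ⟨k, by rw [← hrm]; exact hk⟩
      unfold sg
      rw [if_pos e1, if_neg e2]
      simpa using h4
    · rw [← hm] at hrm
      have e2 : (n : ZMod p) = -(m : ZMod p) := (key2 m hsm).mpr hrm
      have e1 : ¬ ((n : ZMod p) = (m : ZMod p)) := by
        rw [key1 m hsm, hrm]
        have : (0 : ℤ) < m := by exact_mod_cast h1
        intro h
        linarith
      have h4 := hfac (-n) ⟨-k, by rw [hk, hrm]; ring⟩
      unfold sg
      rw [if_neg e1, if_pos e2]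
      push_cast at h4 ⊢
      calc (p : ℝ) - 1 ≤ (-(n : ℝ)) ^ 2 + (((p : ℝ) - 1) / m - m) * -n := h4
        _ = _ := by ring
  · have hbig : p - 1 ≤ r.natAbs ^ 2 := by
      by_contra hcon
      push Not at hcon
      exact hsm (mem_sm' (Int.natAbs_pos.mpr hr0) hcon)
    have hzero : ∑ m ∈ sm p, (((p : ℝ) - 1) / m - m) *
        ((sg (m : ZMod p) (n : ZMod p) * n : ℤ) : ℝ) = 0 := by
      apply Finset.sum_eq_zero
      intro m hm
      have hne : m ≠ r.natAbs := by
        rintro rfl
        exact hsm hm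
      have e1 : ¬ ((n : ZMod p) = (m : ZMod p)) := by
        rw [key1 m hm]
        intro h
        apply hne
        rw [h]
        simp
      have e2 : ¬ ((n : ZMod p) = -(m : ZMod p)) := by
        rw [key2 m hm]
        intro h
        apply hne
        rw [h]
        simp
      unfold sg
      rw [if_neg e1, if_neg e2]
      simp
    rw [hzero, add_zero]
    have habs : r.natAbs ≤ n.natAbs := by
      rcases eq_or_ne k 0 with hk0 | hk0
      · rw [hk, hk0]
        simp
      · have h1 : (p : ℤ) * 1 ≤ p * |k| :=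
          mul_le_mul_of_nonneg_left (Int.one_le_abs hk0) (by positivity)
        have h2 : |(p : ℤ) * k| = p * |k| := by
          rw [abs_mul, abs_of_nonneg (by positivity : (0 : ℤ) ≤ p)]
        have h3 : |(p : ℤ) * k| ≤ |n| + |r| := by
          have : (p : ℤ) * k = n - r := by linarith
          rw [this]
          exact abs_sub _ _
        have h4 : (r.natAbs : ℤ) * 2 ≤ p := by
          have : r.natAbs * 2 ≤ p := by omega
          exact_mod_cast this
        rw [h2] at h3
        rw [Int.natCast_natAbs] at h4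
        have h5 : (r.natAbs : ℤ) ≤ n.natAbs := by
          rw [Int.natCast_natAbs, Int.natCast_natAbs]
          linarith
        exact_mod_cast h5
    have h5 : (p - 1 : ℕ) ≤ n.natAbs ^ 2 := hbig.trans (Nat.pow_le_pow_left habs 2)
    have h6 : ((p - 1 : ℕ) : ℝ) ≤ ((n.natAbs ^ 2 : ℕ) : ℝ) := by exact_mod_cast h5
    rw [Nat.cast_sub hp.out.one_lt.le, Nat.cast_one] at h6
    have h7 : ((n.natAbs ^ 2 : ℕ) : ℝ) = (n : ℝ) ^ 2 := by
      rw [Nat.cast_pow, Nat.cast_natAbs, Int.cast_abs, sq_abs]
    rw [h7] at h6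
    exact h6

end point

section main

variable {p : ℕ} [hp : Fact p.Prime] {Q : Type} [Fintype Q] {N : Q → Q → ℤ} {c : ℤ}
  (hc : 0 < c) (hsym : ∀ x y, N x y = N y x)
  (hsq : ∀ x y, ∑ z, N x z * N z y = c * N x y)

lemma cst_term_nonneg {m : ℕ} (hm : m ∈ sm p) : 0 ≤ ((p : ℝ) - 1) / m - m := by
  obtain ⟨h1, h2, -⟩ := mem_sm hm
  have hmR : (0 : ℝ) < m := by exact_mod_cast h1
  rw [sub_nonneg, le_div_iff₀ hmR]
  have h3 : m ^ 2 + 1 ≤ p := by omega
  have h4 : ((m ^ 2 + 1 : ℕ) : ℝ) ≤ p := by exact_mod_cast h3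
  push_cast at h4
  nlinarith

include hc hsym hsq in
/-- **The mean value estimate.** -/
theorem mean_ineq (hp2 : p ≠ 2) {K : Type} [Field K] [CharP K p] (U S : Q → K)
    (hUS : ∀ x y, ((N x y : ℤ) : K) = U x * S y) (A : Finset Q)
    (hA : ∀ x ∈ A, U x * S x ≠ 0) :
    ((p : ℝ) - 1) * (A.card : ℝ) ^ 2 ≤ c * ((∑ x, N x x : ℤ) : ℝ) + cst p * (c * A.card) := by
  have htr : ∑ x, ∑ y, N x y ^ 2 = c * ∑ x, N x x := by
    rw [Finset.mul_sum]
    refine Finset.sum_congr rfl fun x _ => ?_
    rw [← hsq x x]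
    refine Finset.sum_congr rfl fun y _ => ?_
    rw [hsym y x]
    ring
  have hA2 : ∑ x ∈ A, ∑ y ∈ A, N x y ^ 2 ≤ c * ∑ x, N x x := by
    rw [← htr]
    calc ∑ x ∈ A, ∑ y ∈ A, N x y ^ 2 ≤ ∑ x ∈ A, ∑ y, N x y ^ 2 :=
          Finset.sum_le_sum fun x _ => Finset.sum_le_sum_of_subset_of_nonneg
            (Finset.subset_univ _) fun _ _ _ => sq_nonneg _
      _ ≤ _ := Finset.sum_le_sum_of_subset_of_nonneg (Finset.subset_univ _)
            fun _ _ _ => Finset.sum_nonneg fun _ _ => sq_nonneg _
  rcases A.eq_empty_or_nonempty with rfl | ⟨x₀, hx₀⟩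
  · have h1 : (0 : ℝ) ≤ ((c * ∑ x, N x x : ℤ) : ℝ) := by
      rw [← htr]
      exact_mod_cast Finset.sum_nonneg fun x _ => Finset.sum_nonneg fun y _ => sq_nonneg (N x y)
    push_cast at h1
    simpa using h1
  -- the residues
  have hcast : ∀ a : ℤ, ((a : ℤ) : K) = 0 ↔ ((a : ℤ) : ZMod p) = 0 := by
    intro a
    rw [CharP.intCast_eq_zero_iff K p, ZMod.intCast_zmod_eq_zero_iff_dvd]
  have hne : ∀ x ∈ A, ∀ y ∈ A, ((N x y : ℤ) : ZMod p) ≠ 0 := by
    intro x hx y hy h
    rw [← hcast, hUS] at h
    have h1 := hA x hx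
    have h2 := hA y hy
    exact (mul_ne_zero (left_ne_zero_of_mul h1) (right_ne_zero_of_mul h2)) h
  set w : Q → ZMod p := fun x => (N x x₀ : ZMod p) with hw
  set lam : ZMod p := ((N x₀ x₀ : ℤ) : ZMod p)⁻¹ with hlam
  have hlam0 : lam ≠ 0 := inv_ne_zero (hne x₀ hx₀ x₀ hx₀)
  have hNw : ∀ x ∈ A, ∀ y ∈ A, (N x y : ZMod p) = lam * w x * w y := by
    intro x hx y hy
    have h1 : ((N x y * N x₀ x₀ - N x x₀ * N y x₀ : ℤ) : K) = 0 := by
      have e1 := hUS x y
      have e2 := hUS x₀ x₀
      have e3 := hUS x x₀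
      have e4 : ((N y x₀ : ℤ) : K) = U x₀ * S y := by
        rw [hsym y x₀, hUS]
      rw [Int.cast_sub, Int.cast_mul, Int.cast_mul, e1, e2, e3, e4]
      ring
    rw [hcast, Int.cast_sub, Int.cast_mul, Int.cast_mul, sub_eq_zero] at h1
    have h0 := hne x₀ hx₀ x₀ hx₀
    rw [hlam]
    simp only [hw]
    rw [mul_assoc, ← h1]
    field_simp
  have hpt : ∑ x ∈ A, ∑ y ∈ A, ((p : ℝ) - 1) ≤ ∑ x ∈ A, ∑ y ∈ A, ((N x y : ℝ) ^ 2 +
      ∑ m ∈ sm p, (((p : ℝ) - 1) / m - m) *
        ((sg (m : ZMod p) (N x y : ZMod p) * N x y : ℤ) : ℝ)) :=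
    Finset.sum_le_sum fun x hx => Finset.sum_le_sum fun y hy => point_le hp2 (hne x hx y hy)
  have hl : ∑ x ∈ A, ∑ y ∈ A, ((p : ℝ) - 1) = ((p : ℝ) - 1) * (A.card : ℝ) ^ 2 := by
    simp only [Finset.sum_const, nsmul_eq_mul]
    ring
  have hrr : ∑ x ∈ A, ∑ y ∈ A, ((N x y : ℝ) ^ 2 +
      ∑ m ∈ sm p, (((p : ℝ) - 1) / m - m) *
        ((sg (m : ZMod p) (N x y : ZMod p) * N x y : ℤ) : ℝ)) =
      ((∑ x ∈ A, ∑ y ∈ A, N x y ^ 2 : ℤ) : ℝ) +
      ∑ m ∈ sm p, (((p : ℝ) - 1) / m - m) * ((ER N A (m : ZMod p) : ℤ) : ℝ) := by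
    simp only [Finset.sum_add_distrib]
    congr 1
    · push_cast
      rfl
    · unfold ER
      push_cast
      simp only [Finset.mul_sum]
      rw [Finset.sum_congr rfl (fun x _ => Finset.sum_comm), Finset.sum_comm]
  have hER : ∑ m ∈ sm p, (((p : ℝ) - 1) / m - m) * ((ER N A (m : ZMod p) : ℤ) : ℝ) ≤
      ∑ m ∈ sm p, (((p : ℝ) - 1) / m - m) * (c * A.card) := by
    refine Finset.sum_le_sum fun m hm => mul_le_mul_of_nonneg_left ?_ (cst_term_nonneg hm)
    have hm0 : (m : ZMod p) ≠ 0 := by
      obtain ⟨h1, -, h3⟩ := mem_sm hm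
      rw [Ne, ZMod.natCast_eq_zero_iff]
      intro h
      have := Nat.le_of_dvd h1 h
      omega
    have h1 := ER_le hc hsym hsq A w lam hlam0 (fun x hx => hne x hx x₀ hx₀) hNw hm0
    exact_mod_cast h1
  rw [hl, hrr] at hpt
  have h1 : ((∑ x ∈ A, ∑ y ∈ A, N x y ^ 2 : ℤ) : ℝ) ≤ c * ((∑ x, N x x : ℤ) : ℝ) := by
    exact_mod_cast hA2
  unfold cst
  rw [Finset.sum_mul]
  linarith

end main

end Pool.Agent.J6H19.KB
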