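import Mathlib
import Pool.Agent.J6H19.KB.Mean

/-!
The linear algebra of contribution matrices and integral frames.
-/

set_option autoImplicit false
set_option linter.unusedSectionVars false

open scoped BigOperators Classical

noncomputable section

namespace Pool.Agent.J6H19.KB

/-- matrix data: an integral matrix proportional to a projection, of rank one modulo `p`,
together with an integral frame -/
structure MD (p d l N₀ : ℕ) (K : Type) [Field K] (X Q : Type) [Fintype X] [Fintype Q] where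
  /-- the matrix -/
  M : X → X → ℤ
  sym : ∀ θ η, M θ η = M η θ
  sq : ∀ θ η, ∑ φ, M θ φ * M φ η = (p : ℤ) ^ d * M θ η
  tr : ∑ θ, M θ θ = (p : ℤ) ^ d * (l : ℤ)
  /-- the left factor modulo `p` -/
  U : X → K
  /-- the right factor modulo `p` -/
  S : X → K
  red : ∀ θ η, ((M θ η : ℤ) : K) = U θ * S η
  ex : ∃ z : X → ℤ, (∑ θ, (z θ : K) * U θ) * (∑ η, (z η : K) * S η) ≠ 0
  /-- the frame -/
  f : Q → X → ℤ
  fr : ∀ θ θ', ∑ q, (∑ η, M θ η * f q η) * (∑ η, M θ' η * f q η) =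
    (N₀ : ℤ) * (p : ℤ) ^ d * M θ θ'

namespace MD

variable {p d l N₀ : ℕ} [hp : Fact p.Prime] {K : Type} [Field K] [CharP K p] {X Q : Type}
  [Fintype X] [Fintype Q] (D : MD p d l N₀ K X Q)

/-- left functional -/
def uf (z : X → ℤ) : K := ∑ θ, (z θ : K) * D.U θ

/-- right functional -/
def sf (z : X → ℤ) : K := ∑ θ, (z θ : K) * D.S θ

lemma bf_red (v w : X → ℤ) : ((bf D.M v w : ℤ) : K) = D.uf v * D.sf w := by
  unfold bf uf sf
  push_cast
  rw [Finset.sum_mul_sum]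
  refine Finset.sum_congr rfl fun x _ => Finset.sum_congr rfl fun y _ => ?_
  rw [D.red]
  ring

lemma bf_comm (v w : X → ℤ) : bf D.M v w = bf D.M w v := by
  unfold bf
  rw [Finset.sum_comm]
  refine Finset.sum_congr rfl fun x _ => Finset.sum_congr rfl fun y _ => ?_
  rw [D.sym y x]
  ring

/-- the two functionals have the same zeros -/
lemma uf_ne_iff (v : X → ℤ) : D.uf v ≠ 0 ↔ D.sf v ≠ 0 := by
  obtain ⟨z, hz⟩ := D.ex
  have hz1 : D.uf z ≠ 0 := left_ne_zero_of_mul hz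
  have hz2 : D.sf z ≠ 0 := right_ne_zero_of_mul hz
  have h1 : D.uf v * D.sf z = D.uf z * D.sf v := by
    rw [← D.bf_red, ← D.bf_red, D.bf_comm]
  constructor
  · intro h h0
    rw [h0, mul_zero] at h1
    exact (mul_ne_zero h hz2) h1
  · intro h h0
    rw [h0, zero_mul] at h1
    exact (mul_ne_zero hz1 h) h1.symm

/-- the Gram matrix of the frame -/
def N (x y : Q) : ℤ := bf D.M (D.f x) (D.f y)

lemma bf_eq (v w : X → ℤ) : bf D.M v w = ∑ θ, v θ * ∑ η, D.M θ η * w η := by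
  unfold bf
  refine Finset.sum_congr rfl fun x _ => ?_
  rw [Finset.mul_sum]
  refine Finset.sum_congr rfl fun y _ => ?_
  ring

/-- the frame identity for arbitrary vectors -/
lemma frame (v w : X → ℤ) : ∑ q, bf D.M v (D.f q) * bf D.M (D.f q) w =
    (N₀ : ℤ) * (p : ℤ) ^ d * bf D.M v w := by
  have h1 : ∀ q, bf D.M v (D.f q) * bf D.M (D.f q) w =
      ∑ θ, ∑ θ', v θ * w θ' * ((∑ η, D.M θ η * D.f q η) * (∑ η, D.M θ' η * D.f q η)) := by
    intro q
    rw [D.bf_comm (D.f q) w, bf_eq, bf_eq, Finset.sum_mul_sum]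
    refine Finset.sum_congr rfl fun x _ => Finset.sum_congr rfl fun y _ => ?_
    ring
  rw [Finset.sum_congr rfl fun q _ => h1 q, Finset.sum_comm]
  have h2 : ∀ θ, ∑ q, ∑ θ', v θ * w θ' * ((∑ η, D.M θ η * D.f q η) *
      (∑ η, D.M θ' η * D.f q η)) = ∑ θ', v θ * w θ' * ((N₀ : ℤ) * (p : ℤ) ^ d * D.M θ θ') := by
    intro θ
    rw [Finset.sum_comm]
    refine Finset.sum_congr rfl fun θ' _ => ?_
    rw [← Finset.mul_sum, D.fr]
  rw [Finset.sum_congr rfl fun θ _ => h2 θ]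
  unfold bf
  rw [Finset.mul_sum]
  refine Finset.sum_congr rfl fun x _ => ?_
  rw [Finset.mul_sum]
  refine Finset.sum_congr rfl fun y _ => ?_
  ring

lemma N_symm (x y : Q) : D.N x y = D.N y x := D.bf_comm _ _

lemma N_sq (x y : Q) : ∑ z, D.N x z * D.N z y = ((N₀ : ℤ) * (p : ℤ) ^ d) * D.N x y :=
  D.frame _ _

lemma N_tr : ∑ x, D.N x x = (N₀ : ℤ) * (p : ℤ) ^ d * l := by
  have hp0 : ((p : ℤ) ^ d) ≠ 0 := pow_ne_zero _ (by exact_mod_cast hp.out.ne_zero)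
  have h1 : ∀ q, (p : ℤ) ^ d * D.N q q = ∑ θ, (∑ η, D.M θ η * D.f q η) ^ 2 := by
    intro q
    have h2 : ∀ θ, (∑ η, D.M θ η * D.f q η) ^ 2 =
        ∑ η, ∑ η', D.f q η * D.f q η' * (D.M η θ * D.M θ η') := by
      intro θ
      rw [_root_.sq, Finset.sum_mul_sum]
      refine Finset.sum_congr rfl fun x _ => Finset.sum_congr rfl fun y _ => ?_
      rw [D.sym x θ]
      ring
    rw [Finset.sum_congr rfl fun θ _ => h2 θ, Finset.sum_comm]
    unfold N bf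
    rw [Finset.mul_sum]
    refine Finset.sum_congr rfl fun x _ => ?_
    rw [Finset.sum_comm, Finset.mul_sum]
    refine Finset.sum_congr rfl fun y _ => ?_
    rw [← Finset.mul_sum, D.sq]
    ring
  have h2 : (p : ℤ) ^ d * ∑ q, D.N q q = (p : ℤ) ^ d * ((N₀ : ℤ) * (p : ℤ) ^ d * l) := by
    rw [Finset.mul_sum, Finset.sum_congr rfl fun q _ => h1 q, Finset.sum_comm]
    have h3 : ∀ θ, ∑ q, (∑ η, D.M θ η * D.f q η) ^ 2 = (N₀ : ℤ) * (p : ℤ) ^ d * D.M θ θ := by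
      intro θ
      rw [← D.fr θ θ]
      exact Finset.sum_congr rfl fun q _ => _root_.sq _
    rw [Finset.sum_congr rfl fun θ _ => h3 θ, ← Finset.mul_sum, D.tr]
    ring
  exact mul_left_cancel₀ hp0 h2

/-- **The mean value estimate for frames.** -/
theorem mean (hN₀ : 0 < N₀) (hp2 : p ≠ 2) (A : Finset Q) (hA : ∀ x ∈ A, D.sf (D.f x) ≠ 0) :
    ((p : ℝ) - 1) * (A.card : ℝ) ^ 2 ≤ (N₀ : ℝ) ^ 2 * ((p : ℝ) ^ d) ^ 2 * l +
      cst p * (N₀ * (p : ℝ) ^ d * A.card) := by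
  have hc : 0 < (N₀ : ℤ) * (p : ℤ) ^ d := by
    have := hp.out.pos
    positivity
  have h1 := mean_ineq (p := p) (N := D.N) (c := (N₀ : ℤ) * (p : ℤ) ^ d) hc D.N_symm D.N_sq hp2
    (K := K) (fun x => D.uf (D.f x)) (fun x => D.sf (D.f x)) (fun x y => D.bf_red _ _) A
    (fun x hx => mul_ne_zero ((D.uf_ne_iff _).mpr (hA x hx)) (hA x hx))
  rw [D.N_tr] at h1
  push_cast at h1
  calc _ ≤ _ := h1
    _ = _ := by ring

lemma M_pos : 0 < (p : ℤ) ^ d := by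
  have := hp.out.pos
  positivity

lemma bf_nn (v : X → ℤ) : 0 ≤ bf D.M v v :=
  bf_nonneg (M_pos (p := p) (d := d)) D.sym D.sq v

/-- **The minimum of the form.** -/
theorem exists_min : ∃ z : X → ℤ, D.uf z ≠ 0 ∧ ∀ w : X → ℤ, D.uf w ≠ 0 →
    bf D.M z z ≤ bf D.M w w := by
  obtain ⟨z, hz⟩ := D.ex
  have hz1 : D.uf z ≠ 0 := left_ne_zero_of_mul hz
  have hex : ∃ n : ℕ, ∃ w : X → ℤ, D.uf w ≠ 0 ∧ (bf D.M w w).toNat = n :=
    ⟨_, z, hz1, rfl⟩
  obtain ⟨w, hw1, hw2⟩ := Nat.find_spec hex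
  refine ⟨w, hw1, fun v hv => ?_⟩
  have h1 : Nat.find hex ≤ (bf D.M v v).toNat := Nat.find_min' hex ⟨v, hv, rfl⟩
  rw [← hw2] at h1
  have h2 := D.bf_nn w
  have h3 := D.bf_nn v
  omega

/-- the trace bound for the minimum -/
theorem min_le (m : ℤ) (hm : ∀ w : X → ℤ, D.uf w ≠ 0 → m ≤ bf D.M w w) (A : Finset Q)
    (hA : ∀ x ∈ A, D.sf (D.f x) ≠ 0) : (A.card : ℤ) * m ≤ (N₀ : ℤ) * (p : ℤ) ^ d * l := by
  rw [← D.N_tr]
  calc (A.card : ℤ) * m = ∑ x ∈ A, m := by rw [Finset.sum_const, nsmul_eq_mul]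
    _ ≤ ∑ x ∈ A, D.N x x :=
        Finset.sum_le_sum fun x hx => hm _ ((D.uf_ne_iff _).mpr (hA x hx))
    _ ≤ ∑ x, D.N x x := Finset.sum_le_sum_of_subset_of_nonneg (Finset.subset_univ _)
        fun x _ _ => D.bf_nn _

/-- the frame identity for one vector -/
lemma frame_one (z : X → ℤ) : ∑ q, bf D.M (D.f q) z ^ 2 = (N₀ : ℤ) * (p : ℤ) ^ d * bf D.M z z := by
  rw [← D.frame z z]
  refine Finset.sum_congr rfl fun q _ => ?_
  rw [D.bf_comm z (D.f q), _root_.sq]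

end MD

end Pool.Agent.J6H19.KB
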