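import Mathlib
import Pool.Agent.N20.Sub5
import Pool.Agent.J6H19.KB.Mat

/-!
The contribution matrix of a subsection, with its integral frame.
-/

set_option autoImplicit false
set_option linter.style.haveILetI false
set_option linter.unusedSectionVars false

open scoped BigOperators Classical
open Pool.Agent.Helper884 Pool.Agent.H254R3.IN Pool.Agent.N20

noncomputable section

namespace Pool.Agent.J6H19.KB

variable {G : Type} [Group G] [Fintype G]

/-- the parts of the restriction of a character -/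
def xv {X : Type} {p k : ℕ} (jj : X → ZMod (p ^ (k + 1))) (n : X → ℤ) (i : ZMod (p ^ (k + 1)))
    (η : X) : ℤ := if jj η = i then n η else 0

/-- The contribution matrix of a block of the centralizer of a `p`-element. -/
theorem exists_MD {p : ℕ} [hp : Fact p.Prime] {O : ValuationSubring ℂ}
    (hpO : (p : ℂ) ∈ O.nonunits) {u : G} {k : ℕ} (hu : orderOf u = p ^ (k + 1))
    {b : Set (CC u → ℂ)} (hb : IsBlock O b) {D' : Subgroup (CC u)}
    (hD' : IsDefectGroup p O b D') {d : ℕ} (hd : Nat.card D' = p ^ d)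
    [NeZero (p ^ (k + 1))] :
    ∃ (jj : {θ // θ ∈ XB b} → ZMod (p ^ (k + 1)))
      (n : {χ // χ ∈ IC.Irr G} → {θ // θ ∈ XB b} → ℤ)
      (E : MD p d (lB p b) (2 * (p - 1)) (RF O) {θ // θ ∈ XB b}
        ({χ // χ ∈ IC.Irr G} × ZMod (p ^ (k + 1)) × ZMod (p ^ (k + 1)))),
      (∀ θ η : {θ // θ ∈ XB b}, (E.M θ η : ℂ) = (Nat.card D' : ℂ) * IC.B (cut p (θ : CC u → ℂ)) η) ∧
      (∀ θ : {θ // θ ∈ XB b}, E.U θ = red O (uu D' (θ : CC u → ℂ))) ∧
      (∀ χ i j η, E.f (χ, i, j) η = if RR p k i j then xv jj (n χ) i η - xv jj (n χ) j η else 0) ∧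
      (∀ (t : ZMod (p ^ (k + 1))) (z : {θ // θ ∈ XB b} → ℤ) (χ : {χ // χ ∈ IC.Irr G}),
        ∑ i, ch p k (t * i) * (bf E.M z (xv jj (n χ) i) : ℂ) =
          ∑ θ : {θ // θ ∈ XB b}, (z θ : ℂ) * ((Nat.card D' : ℂ) * JJ p u t.val θ χ)) := by
  haveI := charP_RF hpO
  have hD0 : (Nat.card D' : ℂ) ≠ 0 := by exact_mod_cast Nat.card_pos.ne'
  have hDp : (Nat.card D' : ℂ) = (p : ℂ) ^ d := by rw [hd]; push_cast; rfl
  have hmem : ∀ θ : {θ // θ ∈ XB b}, (θ : CC u → ℂ) ∈ b := fun θ => (mem_XB hb.irr).mp θ.2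
  have hirr : ∀ θ : {θ // θ ∈ XB b}, IsIrr (θ : CC u → ℂ) := fun θ => hb.irr _ (hmem θ)
  choose M hM using fun θ η : {θ // θ ∈ XB b} => contr_int hpO hb hD' (hmem θ) (hmem η)
  have hsym : ∀ θ η : {θ // θ ∈ XB b}, M θ η = M η θ := by
    intro θ η
    have : (M θ η : ℂ) = M η θ := by
      rw [hM, hM, B_cut_comm]
    exact_mod_cast this
  have hsq : ∀ θ η, ∑ φ, M θ φ * M φ η = (p : ℤ) ^ d * M θ η := by
    intro θ η
    have : ((∑ φ, M θ φ * M φ η : ℤ) : ℂ) = (((p : ℤ) ^ d * M θ η : ℤ) : ℂ) := by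
      have h1 := B_cut_idem hpO hb (χ := θ) (ψ := η) (hmem θ)
      rw [← Finset.sum_coe_sort (XB b)
        (fun φ : CC u → ℂ => IC.B (cut p (θ : CC u → ℂ)) φ * IC.B (cut p φ) η)] at h1
      push_cast
      simp only [hM]
      rw [← h1, ← hDp, Finset.mul_sum, Finset.mul_sum]
      refine Finset.sum_congr rfl fun φ _ => ?_
      ring
    exact_mod_cast this
  have htr : ∑ θ, M θ θ = (p : ℤ) ^ d * (lB p b : ℤ) := by
    have : ((∑ θ, M θ θ : ℤ) : ℂ) = (((p : ℤ) ^ d * (lB p b : ℤ) : ℤ) : ℂ) := by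
      push_cast
      simp only [hM]
      rw [← trace_eq hpO hb, ← Finset.mul_sum,
        ← Finset.sum_coe_sort (XB b) (fun φ : CC u → ℂ => IC.B (cut p φ) φ), hDp]
    exact_mod_cast this
  obtain ⟨θ₀, hθ₀, hθ₀ne⟩ := exists_uu_ne hpO hb hD'
  have hredM : ∀ θ η, ((M θ η : ℤ) : RF O) = red O (uu D' (θ : CC u → ℂ)) * sr p O θ₀ η := by
    intro θ η
    rw [← red_intCast, hM, card_mul_B D' (hirr θ) (fun g y => (hirr η).conj g y),
      red_mul (Pool.Agent.N20.uu_mem hpO hb hD' (hmem θ)) (SS_mem (hirr θ) (hirr η)), red_SS (hirr θ) (hirr η),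
      sr_block hb (hmem θ) hθ₀]
  have hX : ∀ χ : {χ // χ ∈ IC.Irr G}, IsIrr (χ : G → ℂ) := fun χ => mem_Irr.mp χ.2
  choose n hn using fun (χ : {χ // χ ∈ IC.Irr G}) (η : {θ // θ ∈ XB b}) =>
    mm_int u (hX χ) (hirr η)
  have K1 : ∀ (t : ℕ) (θ : {θ // θ ∈ XB b}) (χ : {χ // χ ∈ IC.Irr G}),
      (Nat.card D' : ℂ) * JJ p u t θ χ = ∑ η : {θ // θ ∈ XB b},
        (M θ η : ℂ) * n χ η * cu u (η : CC u → ℂ) ^ t := by
    intro t θ χ
    rw [JJ_eq hpO u hb (hmem θ) (hX χ) t, Finset.mul_sum,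
      ← Finset.sum_coe_sort (XB b) (fun η : CC u → ℂ =>
        (Nat.card D' : ℂ) * (mm u χ η * cu u η ^ t * IC.B (cut p (θ : CC u → ℂ)) η))]
    refine Finset.sum_congr rfl fun η _ => ?_
    rw [hM, hn]
    ring
  have K2 : ∀ (t : ℕ), Nat.Coprime t p → ∀ θ θ' : {θ // θ ∈ XB b},
      ∑ χ : {χ // χ ∈ IC.Irr G}, (starRingEnd ℂ) ((Nat.card D' : ℂ) * JJ p u t θ χ) *
        ((Nat.card D' : ℂ) * JJ p u t θ' χ) = (Nat.card D' : ℂ) * M θ θ' := by
    intro t ht θ θ'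
    have h1 := sec_frame hu ht (a := (θ : CC u → ℂ)) (a' := (θ' : CC u → ℂ))
      (fun s => (Pool.Agent.Y62.conj_char (hirr θ) s).symm) (fun g y => (hirr θ').conj g y)
      (fun s => (Pool.Agent.Y62.conj_char (hirr θ') s).symm)
    rw [← Finset.sum_coe_sort (IC.Irr G) (fun χ : G → ℂ =>
      (starRingEnd ℂ) (JJ p u t (θ : CC u → ℂ) χ) * JJ p u t (θ' : CC u → ℂ) χ)] at h1
    rw [hM, ← h1, Finset.mul_sum, Finset.mul_sum]
    refine Finset.sum_congr rfl fun χ _ => ?_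
    rw [map_mul, Complex.conj_natCast]
    ring
  have hex : ∃ z : {θ // θ ∈ XB b} → ℤ,
      (∑ θ, (z θ : RF O) * red O (uu D' (θ : CC u → ℂ))) *
        (∑ η, (z η : RF O) * sr p O θ₀ η) ≠ 0 := by
    refine ⟨fun θ => if (θ : CC u → ℂ) = θ₀ then 1 else 0, ?_⟩
    have h1 : ∀ w : (CC u → ℂ) → RF O, ∑ θ : {θ // θ ∈ XB b},
        (((if (θ : CC u → ℂ) = θ₀ then 1 else 0 : ℤ)) : RF O) * w θ = w θ₀ := by
      intro w
      rw [Finset.sum_eq_single (⟨θ₀, (mem_XB hb.irr).mpr hθ₀⟩ : {θ // θ ∈ XB b})]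
      · simp
      · intro θ _ hne
        rw [if_neg]
        · simp
        · intro h
          exact hne (Subtype.ext h)
      · intro h
        exact absurd (Finset.mem_univ _) h
    rw [h1 (fun θ => red O (uu D' θ)), h1 (fun η => sr p O θ₀ η), sr_eq hpO hb hD' hθ₀ hθ₀]
    exact mul_ne_zero hθ₀ne (mul_ne_zero hθ₀ne (cc_ne hpO hb hD' hθ₀))
  have hcu : ∀ η : {θ // θ ∈ XB b}, ∃ j, ch p k j = cu u (η : CC u → ℂ) := by
    intro η
    apply exists_jj
    rw [← hu]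
    exact cu_pow u (hirr η)
  choose jj hjj using hcu
  set m : {χ // χ ∈ IC.Irr G} → {θ // θ ∈ XB b} → ZMod (p ^ (k + 1)) → ℤ :=
    fun χ θ i => ∑ η, M θ η * (if jj η = i then n χ η else 0) with hm
  have K4 : ∀ (t : ZMod (p ^ (k + 1))) (θ : {θ // θ ∈ XB b}) (χ : {χ // χ ∈ IC.Irr G}),
      ∑ i, ch p k (t * i) * m χ θ i = (Nat.card D' : ℂ) * JJ p u t.val θ χ := by
    intro t θ χ
    rw [K1]
    simp only [hm]
    push_cast
    simp only [Finset.mul_sum]
    rw [Finset.sum_comm]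
    refine Finset.sum_congr rfl fun η _ => ?_
    rw [Finset.sum_eq_single (jj η)]
    · rw [if_pos rfl, ← hjj, ← AddChar.map_nsmul_eq_pow, nsmul_eq_mul, ZMod.natCast_zmod_val]
      ring
    · intro i _ hi
      rw [if_neg (Ne.symm hi)]
      ring
    · intro h
      exact absurd (Finset.mem_univ _) h
  set f : {χ // χ ∈ IC.Irr G} × ZMod (p ^ (k + 1)) × ZMod (p ^ (k + 1)) →
      {θ // θ ∈ XB b} → ℤ := fun q η => if RR p k q.2.1 q.2.2 then
        (if jj η = q.2.1 then n q.1 η else 0) - (if jj η = q.2.2 then n q.1 η else 0) else 0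
    with hf
  have hfM : ∀ (θ : {θ // θ ∈ XB b}) q, ∑ η, M θ η * f q η =
      if RR p k q.2.1 q.2.2 then m q.1 θ q.2.1 - m q.1 θ q.2.2 else 0 := by
    intro θ q
    simp only [hf, hm]
    split_ifs with h
    · rw [← Finset.sum_sub_distrib]
      refine Finset.sum_congr rfl fun η _ => ?_
      ring
    · simp
  have hfr : ∀ θ θ', ∑ q, (∑ η, M θ η * f q η) * (∑ η, M θ' η * f q η) =
      ((2 * (p - 1) : ℕ) : ℤ) * (p : ℤ) ^ d * M θ θ' := by
    intro θ θ'
    simp only [hfM]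
    have h1 := int_frame (fun χ i => m χ θ i) (fun χ i => m χ θ' i) ((p : ℤ) ^ d * M θ θ') (by
      intro t ht
      simp only [K4]
      have ht' : Nat.Coprime t.val p := by
        rw [mem_NT] at ht
        exact ((Nat.Prime.coprime_iff_not_dvd hp.out).mpr ht).symm
      rw [K2 t.val ht' θ θ', hDp]
      push_cast
      rfl)
    rw [Fintype.sum_prod_type]
    simp only [Fintype.sum_prod_type]
    have h2 : ∀ (χ : {χ // χ ∈ IC.Irr G}) (i j : ZMod (p ^ (k + 1))),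
        (if RR p k i j then m χ θ i - m χ θ j else 0) *
          (if RR p k i j then m χ θ' i - m χ θ' j else 0) =
        if RR p k i j then (m χ θ i - m χ θ j) * (m χ θ' i - m χ θ' j) else 0 := by
      intro χ i j
      split_ifs <;> ring
    simp only [h2]
    rw [h1]
    have h3 : ((2 * (p - 1) : ℕ) : ℤ) = 2 * ((p : ℤ) - 1) := by
      rw [Nat.cast_mul, Nat.cast_sub hp.out.one_lt.le]
      simp
    rw [h3]
    ring
  refine ⟨jj, n, ⟨M, hsym, hsq, htr, fun θ => red O (uu D' (θ : CC u → ℂ)),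
    fun η => sr p O θ₀ η, hredM, hex, f, hfr⟩, hM, fun _ => rfl, ?_, ?_⟩
  · intro χ i j η
    rfl
  · intro t z χ
    change ∑ i, ch p k (t * i) * (bf M z (xv jj (n χ) i) : ℂ) = _
    have h1 : ∀ i, (bf M z (xv jj (n χ) i) : ℂ) = ∑ θ, (z θ : ℂ) * m χ θ i := by
      intro i
      unfold bf xv
      simp only [hm]
      push_cast
      refine Finset.sum_congr rfl fun θ _ => ?_
      rw [Finset.mul_sum]
      refine Finset.sum_congr rfl fun η _ => ?_
      ring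
    simp only [h1, ← K4, Finset.mul_sum]
    rw [Finset.sum_comm]
    refine Finset.sum_congr rfl fun i _ => Finset.sum_congr rfl fun θ _ => ?_
    ring

end Pool.Agent.J6H19.KB
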