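import Mathlib
import Pool.Agent.J6H19.KB.Frame

/-!
Counting pairs: characters of height zero, and divisibility for positive height.
-/

set_option autoImplicit false
set_option linter.style.haveILetI false
set_option linter.unusedSectionVars false

open scoped BigOperators Classical
open Pool.Agent.Helper884 Pool.Agent.H254R3.IN Pool.Agent.N20

noncomputable section

namespace Pool.Agent.J6H19.KB

section zmod

variable {p k : ℕ} [hp : Fact p.Prime] [NeZero (p ^ (k + 1))]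

/-- the generator of the elements killed by `p` -/
def wz (p k : ℕ) : ZMod (p ^ (k + 1)) := ((p ^ k : ℕ) : ZMod (p ^ (k + 1)))

lemma p_mul_wz : (p : ZMod (p ^ (k + 1))) * wz p k = 0 := by
  unfold wz
  rw [← Nat.cast_mul, ← pow_succ', ZMod.natCast_self]

lemma wz_ne : wz p k ≠ 0 := by
  unfold wz
  rw [Ne, ZMod.natCast_eq_zero_iff]
  intro hdvd
  have := Nat.le_of_dvd (pow_pos hp.out.pos k) hdvd
  have h2 : p ^ k < p ^ (k + 1) := Nat.pow_lt_pow_right hp.out.one_lt (Nat.lt_succ_self k)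
  omega

/-- the count of pairs for a function which is not invariant -/
theorem pair_count_gen {α : Type} (g : ZMod (p ^ (k + 1)) → α)
    (h : ∃ i, g (i + wz p k) ≠ g i) :
    2 * (p - 1) ≤ (Finset.univ.filter (fun q : ZMod (p ^ (k + 1)) × ZMod (p ^ (k + 1)) =>
      RR p k q.1 q.2 ∧ g q.1 ≠ g q.2)).card := by
  obtain ⟨i₀, hi₀⟩ := h
  have hpw := p_mul_wz (p := p) (k := k)
  set w := wz p k
  set C := Finset.univ.filter (fun j : ZMod (p ^ (k + 1)) => RR p k i₀ j) with hC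
  have hCcard : C.card = p := card_coset i₀
  set E₀ := C.filter (fun j => g j = g i₀) with hE₀
  set E₁ := C.filter (fun j => ¬ g j = g i₀) with hE₁
  have hsum : E₀.card + E₁.card = p :=
    (Finset.card_filter_add_card_filter_not _).trans hCcard
  have h0 : 0 < E₀.card := by
    apply Finset.card_pos.mpr
    refine ⟨i₀, ?_⟩
    rw [hE₀, Finset.mem_filter, hC, Finset.mem_filter]
    refine ⟨⟨Finset.mem_univ _, ?_⟩, rfl⟩
    unfold RR
    rw [sub_self, mul_zero]
  have h1 : 0 < E₁.card := by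
    apply Finset.card_pos.mpr
    refine ⟨i₀ + w, ?_⟩
    rw [hE₁, Finset.mem_filter, hC, Finset.mem_filter]
    refine ⟨⟨Finset.mem_univ _, ?_⟩, hi₀⟩
    unfold RR
    have : i₀ - (i₀ + w) = -w := by ring
    rw [this, mul_neg, hpw, neg_zero]
  have hmul : p - 1 ≤ E₀.card * E₁.card := by
    obtain ⟨a, ha⟩ := Nat.exists_eq_add_of_lt h0
    obtain ⟨b, hb⟩ := Nat.exists_eq_add_of_lt h1
    rw [ha, hb] at hsum ⊢
    have : p - 1 = a + b + 1 := by omega
    rw [this]
    nlinarith [Nat.zero_le (a * b)]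
  have hdisj : Disjoint (E₀ ×ˢ E₁) (E₁ ×ˢ E₀) := by
    rw [Finset.disjoint_left]
    rintro ⟨a, b⟩ h2 h3
    rw [Finset.mem_product] at h2 h3
    exact (Finset.mem_filter.mp h3.1).2 (Finset.mem_filter.mp h2.1).2
  have hsub : (E₀ ×ˢ E₁) ∪ (E₁ ×ˢ E₀) ⊆
      Finset.univ.filter (fun q : ZMod (p ^ (k + 1)) × ZMod (p ^ (k + 1)) =>
        RR p k q.1 q.2 ∧ g q.1 ≠ g q.2) := by
    rintro ⟨a, b⟩ h2
    rw [Finset.mem_filter]
    refine ⟨Finset.mem_univ _, ?_⟩
    rcases Finset.mem_union.mp h2 with h2 | h2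
    · obtain ⟨ha, hb⟩ := Finset.mem_product.mp h2
      obtain ⟨ha1, ha2⟩ := Finset.mem_filter.mp ha
      obtain ⟨hb1, hb2⟩ := Finset.mem_filter.mp hb
      refine ⟨RR_trans (RR_symm (Finset.mem_filter.mp ha1).2) (Finset.mem_filter.mp hb1).2, ?_⟩
      intro h3
      exact hb2 (h3 ▸ ha2)
    · obtain ⟨ha, hb⟩ := Finset.mem_product.mp h2
      obtain ⟨ha1, ha2⟩ := Finset.mem_filter.mp ha
      obtain ⟨hb1, hb2⟩ := Finset.mem_filter.mp hb
      refine ⟨RR_trans (RR_symm (Finset.mem_filter.mp ha1).2) (Finset.mem_filter.mp hb1).2, ?_⟩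
      intro h3
      exact ha2 (h3.trans hb2)
  calc 2 * (p - 1) ≤ 2 * (E₀.card * E₁.card) := Nat.mul_le_mul_left 2 hmul
    _ = ((E₀ ×ˢ E₁) ∪ (E₁ ×ˢ E₀)).card := by
      rw [Finset.card_union_of_disjoint hdisj, Finset.card_product, Finset.card_product]
      ring
    _ ≤ _ := Finset.card_le_card hsub

/-- an invariant function has sum zero in characteristic `p` -/
lemma sum_inv_zero {K : Type} [Field K] [CharP K p] (g : ZMod (p ^ (k + 1)) → K)
    (hg : ∀ i, g (i + wz p k) = g i) : ∑ i, g i = 0 := by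
  let T : AddSubgroup (ZMod (p ^ (k + 1))) :=
    { carrier := {a | ∀ x, g (a + x) = g x}
      zero_mem' := fun x => by rw [zero_add]
      add_mem' := fun {a b} ha hb x => by rw [add_assoc, ha, hb]
      neg_mem' := fun {a} ha x => by
        have := ha (-a + x)
        rw [add_neg_cancel_left] at this
        exact this.symm }
  have hwT : wz p k ∈ T := fun x => by rw [add_comm, hg]
  have hle : AddSubgroup.zmultiples (wz p k) ≤ T := by
    rw [AddSubgroup.zmultiples_le]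
    exact hwT
  have hinv : ∀ (a : Multiplicative (AddSubgroup.zmultiples (wz p k)))
      (x : ZMod (p ^ (k + 1))), g (a • x) = g x := fun a x => hle a.toAdd.2 x
  have hP : IsPGroup p (Multiplicative (AddSubgroup.zmultiples (wz p k))) := by
    intro a
    refine ⟨k + 1, ?_⟩
    apply Multiplicative.toAdd.injective
    rw [toAdd_pow, toAdd_one]
    apply Subtype.ext
    rw [AddSubgroup.coe_nsmul, nsmul_eq_mul, ZMod.natCast_self, zero_mul]
    rfl
  refine (sum_fixed hP (X := ZMod (p ^ (k + 1))) (F := K)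
    (fun a => by rw [← Nat.cast_smul_eq_nsmul K, CharP.cast_eq_zero, zero_smul]) g hinv).trans ?_
  apply Finset.sum_eq_zero
  intro x hx
  exfalso
  simp only [Finset.mem_filter, Finset.mem_univ, true_and] at hx
  have h4 := hx (Multiplicative.ofAdd ⟨wz p k, AddSubgroup.mem_zmultiples _⟩)
  have h5 : wz p k + x = x := h4
  exact wz_ne (p := p) (k := k) (add_eq_right.mp h5)

/-- the count of pairs in characteristic `p` -/
theorem pair_count_p {K : Type} [Field K] [CharP K p] (g : ZMod (p ^ (k + 1)) → K)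
    (h : ∑ i, g i ≠ 0) :
    2 * (p - 1) ≤ (Finset.univ.filter (fun q : ZMod (p ^ (k + 1)) × ZMod (p ^ (k + 1)) =>
      RR p k q.1 q.2 ∧ g q.1 ≠ g q.2)).card := by
  apply pair_count_gen
  by_contra hcon
  push Not at hcon
  exact h (sum_inv_zero g hcon)

lemma ch_pow (r : ZMod (p ^ (k + 1))) : ch p k r ^ p ^ (k + 1) = 1 := by
  rw [← AddChar.map_nsmul_eq_pow, nsmul_eq_mul, ZMod.natCast_self, zero_mul,
    AddChar.map_zero_eq_one]

/-- values of the additive character are congruent to one -/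
lemma red_ch {O : ValuationSubring ℂ} (hpO : (p : ℂ) ∈ O.nonunits) (r : ZMod (p ^ (k + 1))) :
    red O (ch p k r) = 1 := Pool.Agent.Y62.red_root hpO (ch_pow r)

lemma ch_mem {O : ValuationSubring ℂ} (r : ZMod (p ^ (k + 1))) : ch p k r ∈ O :=
  Pool.Agent.Y62.root_mem (pow_ne_zero _ hp.out.ne_zero) (ch_pow r)

/-- the reduction of a twisted sum does not depend on the twist -/
lemma red_twist {O : ValuationSubring ℂ} (hpO : (p : ℂ) ∈ O.nonunits)
    (m : ZMod (p ^ (k + 1)) → ℤ) (t : ZMod (p ^ (k + 1))) :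
    red O (∑ i, ch p k (t * i) * (m i : ℂ)) = ∑ i, ((m i : ℤ) : RF O) := by
  rw [red_sum _ _ (fun i _ => O.mul_mem _ _ (ch_mem _) (intCast_mem' _))]
  refine Finset.sum_congr rfl fun i _ => ?_
  rw [red_mul (ch_mem _) (intCast_mem' _), red_ch hpO, one_mul, red_intCast]

end zmod

section bilinear

variable {X : Type} [Fintype X] (M : X → X → ℤ)

lemma bf_sub_left (v w z : X → ℤ) : bf M (fun η => v η - w η) z = bf M v z - bf M w z := by
  unfold bf
  rw [← Finset.sum_sub_distrib]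
  refine Finset.sum_congr rfl fun x _ => ?_
  rw [← Finset.sum_sub_distrib]
  refine Finset.sum_congr rfl fun y _ => ?_
  ring

lemma bf_zero_left (z : X → ℤ) : bf M (fun _ => 0) z = 0 := by
  unfold bf
  simp

end bilinear

section frame

variable {G : Type} [Group G] [Fintype G] {p : ℕ} [hp : Fact p.Prime] {O : ValuationSubring ℂ}
  [CharP (RF O) p] {u : G} {k : ℕ} {b : Set (CC u → ℂ)} {D' : Subgroup (CC u)} {d : ℕ} [NeZero (p ^ (k + 1))]
  {jj : {θ // θ ∈ XB b} → ZMod (p ^ (k + 1))}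
  {n : {χ // χ ∈ IC.Irr G} → {θ // θ ∈ XB b} → ℤ}
  {E : MD p d (lB p b) (2 * (p - 1)) (RF O) {θ // θ ∈ XB b}
        ({χ // χ ∈ IC.Irr G} × ZMod (p ^ (k + 1)) × ZMod (p ^ (k + 1)))}
  (hf : ∀ χ i j η, E.f (χ, i, j) η = if RR p k i j then xv jj (n χ) i η - xv jj (n χ) j η else 0)

include hf in
lemma f_eq (χ : {χ // χ ∈ IC.Irr G}) (i j : ZMod (p ^ (k + 1))) (h : RR p k i j) :
    E.f (χ, i, j) = fun η => xv jj (n χ) i η - xv jj (n χ) j η := by
  funext η
  rw [hf, if_pos h]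

include hf in
lemma f_eq0 (χ : {χ // χ ∈ IC.Irr G}) (i j : ZMod (p ^ (k + 1))) (h : ¬ RR p k i j) :
    E.f (χ, i, j) = fun _ => 0 := by
  funext η
  rw [hf, if_neg h]

include hf in
lemma bf_f (z : {θ // θ ∈ XB b} → ℤ) (χ : {χ // χ ∈ IC.Irr G}) (i j : ZMod (p ^ (k + 1))) :
    bf E.M (E.f (χ, i, j)) z = if RR p k i j then
      bf E.M z (xv jj (n χ) i) - bf E.M z (xv jj (n χ) j) else 0 := by
  split_ifs with h
  · rw [f_eq hf χ i j h, bf_sub_left, E.bf_comm z, E.bf_comm z]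
  · rw [f_eq0 hf χ i j h, bf_zero_left]

include hf in
lemma sf_f (χ : {χ // χ ∈ IC.Irr G}) (i j : ZMod (p ^ (k + 1))) :
    E.sf (E.f (χ, i, j)) = if RR p k i j then
      E.sf (xv jj (n χ) i) - E.sf (xv jj (n χ) j) else 0 := by
  split_ifs with h
  · rw [f_eq hf χ i j h]
    unfold MD.sf
    rw [← Finset.sum_sub_distrib]
    refine Finset.sum_congr rfl fun η _ => ?_
    push_cast
    ring
  · rw [f_eq0 hf χ i j h]
    unfold MD.sf
    simp

variable (hK : ∀ (t : ZMod (p ^ (k + 1))) (z : {θ // θ ∈ XB b} → ℤ) (χ : {χ // χ ∈ IC.Irr G}),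
        ∑ i, ch p k (t * i) * (bf E.M z (xv jj (n χ) i) : ℂ) =
          ∑ θ : {θ // θ ∈ XB b}, (z θ : ℂ) * ((Nat.card D' : ℂ) * JJ p u t.val θ χ))

lemma val_one' : (1 : ZMod (p ^ (k + 1))).val = 1 := by
  haveI : Fact (1 < p ^ (k + 1)) := ⟨Nat.one_lt_pow (Nat.succ_ne_zero k) hp.out.one_lt⟩
  exact ZMod.val_one _

include hf hK in
/-- counting nonzero pairings with a vector -/
theorem count_z (z : {θ // θ ∈ XB b} → ℤ) (χ : {χ // χ ∈ IC.Irr G})
    (h : ∑ θ : {θ // θ ∈ XB b}, (z θ : ℂ) * ((Nat.card D' : ℂ) * JJ p u 1 θ χ) ≠ 0) :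
    2 * (p - 1) ≤ (Finset.univ.filter (fun q : ZMod (p ^ (k + 1)) × ZMod (p ^ (k + 1)) =>
      bf E.M (E.f (χ, q.1, q.2)) z ≠ 0)).card := by
  refine (pair_count (fun i => bf E.M z (xv jj (n χ) i)) ?_).trans (Finset.card_le_card ?_)
  · have h1 := hK 1 z χ
    rw [val_one'] at h1
    simp only [one_mul] at h1
    rw [h1]
    exact h
  · intro q hq
    rw [Finset.mem_filter] at hq ⊢
    refine ⟨Finset.mem_univ _, ?_⟩
    rw [bf_f hf, if_pos hq.2.1]
    exact sub_ne_zero.mpr hq.2.2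

include hf hK in
/-- counting active frame vectors -/
theorem count_s (hpO : (p : ℂ) ∈ O.nonunits) (z : {θ // θ ∈ XB b} → ℤ)
    (χ : {χ // χ ∈ IC.Irr G})
    (h : red O (∑ θ : {θ // θ ∈ XB b}, (z θ : ℂ) * ((Nat.card D' : ℂ) * JJ p u 1 θ χ)) ≠ 0) :
    2 * (p - 1) ≤ (Finset.univ.filter (fun q : ZMod (p ^ (k + 1)) × ZMod (p ^ (k + 1)) =>
      E.sf (E.f (χ, q.1, q.2)) ≠ 0)).card := by
  refine (pair_count_p (fun i => E.sf (xv jj (n χ) i)) ?_).trans (Finset.card_le_card ?_)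
  · intro h0
    apply h
    have h1 := hK 1 z χ
    rw [val_one'] at h1
    rw [← h1, red_twist hpO]
    simp only [E.bf_red]
    rw [← Finset.mul_sum, h0, mul_zero]
  · intro q hq
    rw [Finset.mem_filter] at hq ⊢
    refine ⟨Finset.mem_univ _, ?_⟩
    rw [sf_f hf, if_pos hq.2.1]
    exact sub_ne_zero.mpr hq.2.2

end frame

end Pool.Agent.J6H19.KB
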