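import Mathlib
import Pool.Agent.J6H19.KB.Local

/-!
Divisibility of the generalized decomposition numbers of characters of positive height, and the
local inequalities for a major subsection of order `p`.
-/

set_option autoImplicit false
set_option linter.style.haveILetI false
set_option linter.unusedSectionVars false

open scoped BigOperators Classical
open Pool.Agent.Helper884 Pool.Agent.H254R3.IN Pool.Agent.N20

noncomputable section

namespace Pool.Agent.J6H19.KB

variable {G : Type} [Group G] [Fintype G]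

lemma card_congr_sub {H H' : Subgroup G} (h : H = H') {s : G} (hs : s ∈ H) (hs' : s ∈ H') :
    Nat.card (Subgroup.centralizer ({⟨s, hs⟩} : Set H)) =
      Nat.card (Subgroup.centralizer ({⟨s, hs'⟩} : Set H')) := by
  subst h
  rfl

lemma card_cent_t {p k t : ℕ} [hp : Fact p.Prime] {u : G} (hu : orderOf u = p ^ k)
    (ht : Nat.Coprime t p) (s : CC u) (hs : ¬ p ∣ orderOf s) :
    Nat.card (Subgroup.centralizer ({u ^ t * (s : G)} : Set G)) =
      Nat.card (Subgroup.centralizer ({s} : Set (CC u))) := by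
  obtain ⟨k', hk'⟩ : ∃ k', orderOf (u ^ t) = p ^ k' := by
    have h1 : orderOf (u ^ t) ∣ p ^ k := by rw [← hu]; exact orderOf_pow_dvd t
    obtain ⟨k', -, h2⟩ := (Nat.dvd_prime_pow hp.out).mp h1
    exact ⟨k', h2⟩
  have hCC := CC_pow hu ht
  have hs2 : (s : G) ∈ CC (u ^ t) := by rw [hCC]; exact s.2
  have h1 := card_cent hk' ⟨(s : G), hs2⟩ (by
    rw [Subgroup.orderOf_mk, Subgroup.orderOf_coe]
    exact hs)
  rw [card_congr_sub hCC hs2 s.2] at h1
  exact h1

/-- the sum over the `p`-regular classes of the centralizer -/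
def TGt (p : ℕ) (u : G) (t : ℕ) (χ : G → ℂ) (θ : CC u → ℂ) : ℂ :=
  ∑ L : ConjClasses (CC u), if p ∣ orderOf (rep L) then 0 else
    omega χ (u ^ t * ((rep L : CC u) : G)) * θ (rep L)⁻¹

lemma TGt_mem {p : ℕ} {O : ValuationSubring ℂ} {u : G} {t : ℕ} {χ : G → ℂ} (hχ : IsIrr χ)
    {θ : CC u → ℂ} (hθ : IsIrr θ) : TGt p u t χ θ ∈ O := by
  refine sum_mem fun L _ => ?_
  split_ifs
  · exact O.zero_mem
  · exact O.mul_mem _ _ (hχ.omega_mem O _) (hθ.val_mem O _)

lemma card_JJt {p k t : ℕ} [hp : Fact p.Prime] {u : G} (hu : orderOf u = p ^ k)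
    (ht : Nat.Coprime t p) (D : Subgroup G) {χ : G → ℂ} (hχ : IsIrr χ) {θ : CC u → ℂ}
    (hθ : IsIrr θ) : (Nat.card D : ℂ) * JJ p u t θ χ = uu D χ * TGt p u t χ θ := by
  have hH0 : (Nat.card (CC u) : ℂ) ≠ 0 := by exact_mod_cast Nat.card_pos.ne'
  have hG0 : (Nat.card G : ℂ) ≠ 0 := by exact_mod_cast Nat.card_pos.ne'
  have h1 : ∑ s : CC u, cut p θ s⁻¹ * χ (u ^ t * s) =
      (Nat.card (CC u) : ℂ) * (χ 1 / Nat.card G) * TGt p u t χ θ := by
    rw [sum_classes]
    unfold TGt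
    rw [Finset.mul_sum]
    refine Finset.sum_congr rfl fun L _ => ?_
    have h2 : ∀ s ∈ Finset.univ.filter (fun s => IsConj (rep L) s),
        cut p θ s⁻¹ * χ (u ^ t * s) = cut p θ (rep L)⁻¹ * χ (u ^ t * (rep L : CC u)) := by
      intro s hs
      have hs' := (Finset.mem_filter.mp hs).2
      obtain ⟨c, hc⟩ := isConj_iff.mp hs'
      rw [← hc]
      have e1 : (c * rep L * c⁻¹)⁻¹ = c * (rep L)⁻¹ * c⁻¹ := by group
      have hcl : IsCl θ := fun g y => hθ.conj g y
      rw [e1, cut_cl hcl]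
      congr 1
      have e2 : u ^ t * ((c * rep L * c⁻¹ : CC u) : G) =
          (c : G) * (u ^ t * (rep L : CC u)) * (c : G)⁻¹ := by
        have h3' : Commute u (c : G) := mem_CC.mp c.2
        have h3 : u ^ t * (c : G) = c * u ^ t := h3'.pow_left t
        calc u ^ t * ((c * rep L * c⁻¹ : CC u) : G) =
              (u ^ t * c) * ((rep L : CC u) : G) * (c : G)⁻¹ := by
              simp only [Subgroup.coe_mul, Subgroup.coe_inv, mul_assoc]
          _ = _ := by rw [h3]; simp only [mul_assoc]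
      rw [e2, hχ.conj]
    rw [Finset.sum_congr rfl h2, Finset.sum_const, nsmul_eq_mul]
    unfold cut
    rw [orderOf_inv]
    split_ifs with h
    · ring
    · have h3 : (Finset.univ.filter (fun s : CC u => IsConj (rep L) s)).card =
          Nat.card {y : CC u // IsConj (rep L) y} := by
        rw [Nat.card_eq_fintype_card, Fintype.card_subtype]
      have h4 := card_class_mul (rep L)
      rw [h3, hχ.val_eq (u ^ t * ((rep L : CC u) : G)), card_cent_t hu ht (rep L) h, ← h4]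
      push_cast
      field_simp
  unfold JJ
  rw [h1]
  unfold uu
  field_simp

/-- divisibility in the rational case -/
lemma uu_div {p : ℕ} [hp : Fact p.Prime] {O : ValuationSubring ℂ} (hpO : (p : ℂ) ∈ O.nonunits)
    {D : Subgroup G} {χ : G → ℂ} (hχ : IsIrr χ) (hm : uu D χ ∈ O) (h0 : red O (uu D χ) = 0) :
    ∃ v ∈ O, uu D χ = p * v := by
  haveI := charP_RF hpO
  obtain ⟨n, hn0, hn⟩ := hχ.deg
  have hp0 : (p : ℂ) ≠ 0 := by exact_mod_cast hp.out.ne_zero
  set a := (Nat.card G).factorization p with ha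
  have hG0 : Nat.card G ≠ 0 := Nat.card_pos.ne'
  have h2 : Nat.card G = p ^ a * ordCompl[p] (Nat.card G) :=
    (Nat.ordProj_mul_ordCompl_eq_self _ p).symm
  have hy : ¬ p ∣ ordCompl[p] (Nat.card G) := Nat.not_dvd_ordCompl hp.out hG0
  generalize ordCompl[p] (Nat.card G) = Y at h2 hy
  have hY0 : (Y : ℂ) ≠ 0 := by
    intro h0
    have : Y = 0 := by exact_mod_cast h0
    rw [this, mul_zero] at h2
    exact hG0 h2
  have h3 : uu D χ * Y = ((n * Nat.card D : ℕ) : ℂ) / (p : ℂ) ^ a := by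
    unfold uu
    rw [← hn]
    have h5 : (Nat.card G : ℂ) = (p : ℂ) ^ a * Y := by exact_mod_cast h2
    rw [h5]
    push_cast
    field_simp
  have h4 : ((n * Nat.card D : ℕ) : ℂ) / (p : ℂ) ^ a ∈ O := by
    rw [← h3]
    exact O.mul_mem _ _ hm (natCast_mem' Y)
  obtain ⟨N, hN⟩ := dvd_of_div_mem hpO h4
  have h5 : uu D χ * Y = N := by
    rw [h3, hN]
    push_cast
    field_simp
  have h6 : p ∣ N := by
    have h7 := congrArg (red O) h5
    rw [red_mul hm (natCast_mem' Y), h0, zero_mul, red_natCast] at h7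
    exact (CharP.cast_eq_zero_iff (RF O) p N).mp h7.symm
  obtain ⟨N', rfl⟩ := h6
  refine ⟨N' * (Y : ℂ)⁻¹, O.mul_mem _ _ (natCast_mem' N') (nat_inv_mem hpO hy), ?_⟩
  have h7 : uu D χ = (uu D χ * Y) * (Y : ℂ)⁻¹ := by field_simp
  rw [h7, h5]
  push_cast
  ring

/-- an integer in the maximal ideal is divisible by `p` -/
lemma int_dvd_of_red {p : ℕ} [hp : Fact p.Prime] {O : ValuationSubring ℂ}
    (hpO : (p : ℂ) ∈ O.nonunits) {m : ℤ} (h : red O (m : ℂ) = 0) : (p : ℤ) ∣ m := by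
  haveI := charP_RF hpO
  rw [red_intCast] at h
  exact (CharP.intCast_eq_zero_iff (RF O) p m).mp h

section dvd

variable {p : ℕ} [hp : Fact p.Prime] {O : ValuationSubring ℂ} [NeZero (p ^ (0 + 1))]

/-- Fourier inversion -/
lemma fourier_inv (m : ZMod (p ^ (0 + 1)) → ℂ) (i : ZMod (p ^ (0 + 1))) :
    ∑ t, ch p 0 (-(t * i)) * ∑ j, ch p 0 (t * j) * m j = (p : ℂ) * m i := by
  have h1 : ∀ t, ch p 0 (-(t * i)) * ∑ j, ch p 0 (t * j) * m j =
      ∑ j, ch p 0 (t * (j - i)) * m j := by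
    intro t
    rw [Finset.mul_sum]
    refine Finset.sum_congr rfl fun j _ => ?_
    rw [← mul_assoc, ← AddChar.map_add_eq_mul]
    congr 2
    ring
  rw [Finset.sum_congr rfl fun t _ => h1 t, Finset.sum_comm]
  have h2 : ∀ j, ∑ t, ch p 0 (t * (j - i)) * m j = if j = i then (p : ℂ) * m j else 0 := by
    intro j
    rw [← Finset.sum_mul, sum_all]
    simp only [sub_eq_zero]
    split_ifs
    · norm_num
    · ring
  rw [Finset.sum_congr rfl fun j _ => h2 j, Finset.sum_ite_eq', if_pos (Finset.mem_univ _)]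

/-- differences are divisible by `p` if the twisted sums are divisible by `p` -/
theorem diff_dvd (hpO : (p : ℂ) ∈ O.nonunits) (m : ZMod (p ^ (0 + 1)) → ℤ)
    (h : ∀ t : ZMod (p ^ (0 + 1)), t ≠ 0 → ∃ v ∈ O, ∑ j, ch p 0 (t * j) * (m j : ℂ) = p * v)
    (i j : ZMod (p ^ (0 + 1))) : (p : ℤ) ∣ m i - m j := by
  have hp0 : (p : ℂ) ≠ 0 := by exact_mod_cast hp.out.ne_zero
  choose! v hv hv2 using h
  apply int_dvd_of_red hpO
  have h1 := fourier_inv (fun j => (m j : ℂ)) i
  have h2 := fourier_inv (fun j => (m j : ℂ)) j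
  have h3 : (p : ℂ) * ((m i - m j : ℤ) : ℂ) = ∑ t, (ch p 0 (-(t * i)) - ch p 0 (-(t * j))) *
      ∑ j, ch p 0 (t * j) * (m j : ℂ) := by
    push_cast
    rw [mul_sub, ← h1, ← h2, ← Finset.sum_sub_distrib]
    refine Finset.sum_congr rfl fun t _ => ?_
    ring
  have h4 : ∀ t, (ch p 0 (-(t * i)) - ch p 0 (-(t * j))) * ∑ j, ch p 0 (t * j) * (m j : ℂ) =
      (p : ℂ) * ((ch p 0 (-(t * i)) - ch p 0 (-(t * j))) * if t = 0 then 0 else v t) := by
    intro t
    split_ifs with ht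
    · rw [ht]
      simp
    · rw [hv2 t ht]
      ring
  rw [Finset.sum_congr rfl fun t _ => h4 t, ← Finset.mul_sum] at h3
  have h5 := mul_left_cancel₀ hp0 h3
  have hmem : ∀ t : ZMod (p ^ (0 + 1)), (if t = 0 then 0 else v t) ∈ O := by
    intro t
    split_ifs with ht
    · exact O.zero_mem
    · exact hv t ht
  have hmem2 : ∀ t : ZMod (p ^ (0 + 1)), ch p 0 (-(t * i)) - ch p 0 (-(t * j)) ∈ O :=
    fun t => sub_mem' (ch_mem _) (ch_mem _)
  rw [h5, red_sum _ _ (fun t _ => O.mul_mem _ _ (hmem2 t) (hmem t))]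
  apply Finset.sum_eq_zero
  intro t _
  rw [red_mul (hmem2 t) (hmem t), red_sub (ch_mem _) (ch_mem _), red_ch hpO, red_ch hpO,
    sub_self, zero_mul]

end dvd

end Pool.Agent.J6H19.KB
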