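import Mathlib
import Pool.Agent.J6H19.KB.Local2

/-!
The local inequalities for subsections.
-/

set_option autoImplicit false
set_option linter.style.haveILetI false
set_option linter.unusedSectionVars false

open scoped BigOperators Classical
open Pool.Agent.Helper884 Pool.Agent.H254R3.IN Pool.Agent.N20

noncomputable section

namespace Pool.Agent.J6H19.KB

section aux

lemma card_active {X Y : Type} [Fintype X] [Fintype Y] (P : X → Prop) (R : X → Y → Prop) (N : ℕ)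
    (h : ∀ x, P x → N ≤ (Finset.univ.filter (fun y => R x y)).card) :
    N * (Finset.univ.filter P).card ≤
      (Finset.univ.filter (fun q : X × Y => P q.1 ∧ R q.1 q.2)).card := by
  calc N * (Finset.univ.filter P).card = ∑ x ∈ Finset.univ.filter P, N := by
        rw [Finset.sum_const, smul_eq_mul, mul_comm]
    _ ≤ ∑ x ∈ Finset.univ.filter P, (Finset.univ.filter (fun y => R x y)).card :=
        Finset.sum_le_sum fun x hx => h x (Finset.mem_filter.mp hx).2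
    _ = ∑ x, ∑ y, (if P x ∧ R x y then 1 else 0) := by
        rw [Finset.sum_filter]
        refine Finset.sum_congr rfl fun x _ => ?_
        split_ifs with hx
        · simp only [hx, true_and, Finset.card_filter]
        · simp only [hx, false_and, if_false, Finset.sum_const_zero]
    _ = _ := by
        rw [Finset.card_filter, Fintype.sum_prod_type]

lemma real_step {P1 Q l c N0 a k : ℝ} (hP1 : 0 < P1) (hQ : 0 < Q) (hl : 0 ≤ l)
    (hN0 : 0 < N0) (hk : 0 ≤ k) (ha : N0 * k ≤ a)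
    (h : P1 * a ^ 2 ≤ N0 ^ 2 * Q ^ 2 * l + c * (N0 * Q * a)) :
    P1 * k ^ 2 ≤ Q ^ 2 * l + c * (Q * k) := by
  set x := a / N0 with hx
  have hax : a = N0 * x := by rw [hx]; field_simp
  have hkx : k ≤ x := by
    rw [hx, le_div_iff₀ hN0]
    linarith
  have h1 : P1 * x ^ 2 ≤ Q ^ 2 * l + c * (Q * x) := by
    rw [hax] at h
    have h2 : N0 ^ 2 * (P1 * x ^ 2) ≤ N0 ^ 2 * (Q ^ 2 * l + c * (Q * x)) := by
      calc N0 ^ 2 * (P1 * x ^ 2) = P1 * (N0 * x) ^ 2 := by ring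
        _ ≤ _ := h
        _ = _ := by ring
    exact le_of_mul_le_mul_left h2 (by positivity)
  rcases le_or_gt (P1 * k) (c * Q) with h3 | h3
  · have h4 : P1 * k ^ 2 ≤ c * (Q * k) := by
      calc P1 * k ^ 2 = (P1 * k) * k := by ring
        _ ≤ (c * Q) * k := mul_le_mul_of_nonneg_right h3 hk
        _ = _ := by ring
    have h5 : 0 ≤ Q ^ 2 * l := by positivity
    linarith
  · have h4 : k * (P1 * k - c * Q) ≤ x * (P1 * x - c * Q) := by
      apply mul_le_mul hkx _ (by linarith) (by linarith)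
      have : P1 * k ≤ P1 * x := mul_le_mul_of_nonneg_left hkx hP1.le
      linarith
    nlinarith

lemma cst_nonneg {p : ℕ} [hp : Fact p.Prime] : 0 ≤ cst p :=
  Finset.sum_nonneg fun _ hm => cst_term_nonneg hm

end aux

variable {G : Type} [Group G] [Fintype G]

/-- the characters of height zero of a block -/
def B0 (O : ValuationSubring ℂ) (D : Subgroup G) (B : Set (G → ℂ)) : Finset (G → ℂ) :=
  (XB B).filter (fun χ => red O (uu D χ) ≠ 0)

lemma mem_B0 {O : ValuationSubring ℂ} {D : Subgroup G} {B : Set (G → ℂ)}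
    (hB : ∀ χ ∈ B, IsIrr χ) {χ : G → ℂ} :
    χ ∈ B0 O D B ↔ χ ∈ B ∧ red O (uu D χ) ≠ 0 := by
  unfold B0
  rw [Finset.mem_filter, mem_XB hB]

lemma card_sub_eq {S : Finset (G → ℂ)} (hS : ∀ χ ∈ S, IsIrr χ)
    (P : {χ // χ ∈ IC.Irr G} → Prop) (hP : ∀ χ, P χ ↔ (χ : G → ℂ) ∈ S) :
    (Finset.univ.filter P).card = S.card := by
  refine Finset.card_bij (fun χ _ => (χ : G → ℂ)) ?_ ?_ ?_
  · intro χ hχ
    exact (hP χ).mp (Finset.mem_filter.mp hχ).2
  · intro χ _ ψ _ h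
    exact Subtype.ext h
  · intro χ hχ
    exact ⟨⟨χ, mem_Irr.mpr (hS χ hχ)⟩,
      Finset.mem_filter.mpr ⟨Finset.mem_univ _, (hP _).mpr hχ⟩, rfl⟩

lemma card_B_eq {B : Set (G → ℂ)} (hB : ∀ χ ∈ B, IsIrr χ) : Nat.card B = (XB B).card := by
  rw [← Fintype.card_coe, ← Nat.card_eq_fintype_card]
  exact Nat.card_congr (Equiv.subtypeEquivRight fun χ => (mem_XB hB).symm)

section general

variable {p : ℕ} [hp : Fact p.Prime] {O : ValuationSubring ℂ} (hpO : (p : ℂ) ∈ O.nonunits)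
  {D : Subgroup G} {B : Set (G → ℂ)} (hB : IsBlock O B) (hD : IsDefectGroup p O B D)
  {u : G} {k : ℕ} (hu : orderOf u = p ^ (k + 1)) {b : Set (CC u → ℂ)} (hb : IsBlock O b)
  {D' : Subgroup (CC u)} (hD' : IsDefectGroup p O b D') (hbB : Induces O B (CC u) b)

include hpO hB hD hu hb hD' hbB in
/-- nonvanishing for characters of height zero -/
lemma height_red {χ : G → ℂ} (hχ : χ ∈ B) (h0 : red O (uu D χ) ≠ 0)
    (z : {θ // θ ∈ XB b} → ℤ) (hz : (∑ θ, (z θ : RF O) * red O (uu D' (θ : CC u → ℂ))) ≠ 0) :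
    red O (∑ θ : {θ // θ ∈ XB b}, (z θ : ℂ) * ((Nat.card D' : ℂ) * JJ p u 1 θ χ)) ≠ 0 := by
  have hmem : ∀ θ : {θ // θ ∈ XB b}, (θ : CC u → ℂ) ∈ b := fun θ => (mem_XB hb.irr).mp θ.2
  have hirr : ∀ θ : {θ // θ ∈ XB b}, IsIrr (θ : CC u → ℂ) := fun θ => hb.irr _ (hmem θ)
  have hX := hB.irr χ hχ
  have hm : ∀ θ : {θ // θ ∈ XB b}, uu D' (θ : CC u → ℂ) * TH p u χ θ ∈ O :=
    fun θ => O.mul_mem _ _ (Pool.Agent.N20.uu_mem hpO hb hD' (hmem θ)) (TH_mem hX (hirr θ))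
  have h4 : ∀ θ : {θ // θ ∈ XB b}, (z θ : ℂ) * ((Nat.card D' : ℂ) * JJ p u 1 θ χ) =
      (z θ : ℂ) * (uu D' (θ : CC u → ℂ) * TH p u χ θ) := by
    intro θ
    rw [card_JJ2 D' hX (hirr θ)]
  rw [Finset.sum_congr rfl (fun θ _ => h4 θ),
    red_sum _ _ (fun θ _ => O.mul_mem _ _ (intCast_mem' _) (hm θ))]
  have h5 : ∑ θ : {θ // θ ∈ XB b}, red O ((z θ : ℂ) * (uu D' (θ : CC u → ℂ) * TH p u χ θ)) =
      (∑ θ, (z θ : RF O) * red O (uu D' (θ : CC u → ℂ))) * sr p O χ χ := by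
    rw [Finset.sum_mul]
    refine Finset.sum_congr rfl fun θ _ => ?_
    rw [red_mul (intCast_mem' _) (hm θ), red_intCast,
      red_mul (Pool.Agent.N20.uu_mem hpO hb hD' (hmem θ)) (TH_mem hX (hirr θ)),
      red_TH hpO hB hu hb hbB hχ (hmem θ)]
    ring
  rw [h5, sr_eq hpO hB hD hχ hχ]
  exact mul_ne_zero hz (mul_ne_zero h0 (cc_ne hpO hB hD hχ))

include hpO hB hD hu hb hD' hbB in
/-- **Characters of height zero.** -/
theorem h0_bound (hp2 : p ≠ 2) {d : ℕ} (hd : Nat.card D' = p ^ d) :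
    ((p : ℝ) - 1) * ((B0 O D B).card : ℝ) ^ 2 ≤ ((p : ℝ) ^ d) ^ 2 * lB p b +
      cst p * ((p : ℝ) ^ d * (B0 O D B).card) := by
  haveI := charP_RF hpO
  haveI : NeZero (p ^ (k + 1)) := ⟨pow_ne_zero _ hp.out.ne_zero⟩
  obtain ⟨jj, n, E, hM, hU, hf, hK⟩ := exists_MD hpO hu hb hD' hd
  obtain ⟨z, hz⟩ := E.ex
  have hz1 : (∑ θ, (z θ : RF O) * red O (uu D' (θ : CC u → ℂ))) ≠ 0 := by
    have := left_ne_zero_of_mul hz
    simpa only [hU] using this
  set A := Finset.univ.filter (fun q : {χ // χ ∈ IC.Irr G} × ZMod (p ^ (k + 1)) ×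
    ZMod (p ^ (k + 1)) => ((q.1 : G → ℂ) ∈ B0 O D B) ∧ E.sf (E.f (q.1, q.2.1, q.2.2)) ≠ 0) with hA
  have hAcard : 2 * (p - 1) * (B0 O D B).card ≤ A.card := by
    have h1 := card_active (X := {χ // χ ∈ IC.Irr G})
      (Y := ZMod (p ^ (k + 1)) × ZMod (p ^ (k + 1)))
      (fun χ => (χ : G → ℂ) ∈ B0 O D B) (fun χ q => E.sf (E.f (χ, q.1, q.2)) ≠ 0)
      (2 * (p - 1)) (by
        intro χ hχ
        obtain ⟨h1, h2⟩ := (mem_B0 hB.irr).mp hχ
        convert count_s hf hK hpO z χ (height_red hpO hB hD hu hb hD' hbB h1 h2 z hz1))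
    rw [card_sub_eq (S := B0 O D B) (fun χ hχ => hB.irr χ ((mem_B0 hB.irr).mp hχ).1) _
      (fun χ => Iff.rfl)] at h1
    convert h1
  have hN0 : 0 < 2 * (p - 1) := by
    have := hp.out.two_le
    omega
  have h1 := E.mean hN0 hp2 A (by
    intro q hq
    exact (Finset.mem_filter.mp hq).2.2)
  have hp1 : (0 : ℝ) < (p : ℝ) - 1 := by
    have : (1 : ℝ) < p := by exact_mod_cast hp.out.one_lt
    linarith
  refine real_step (N0 := ((2 * (p - 1) : ℕ) : ℝ)) (a := A.card) hp1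
    (by have := hp.out.pos; positivity) (by positivity) (by exact_mod_cast hN0)
    (by positivity) (by exact_mod_cast hAcard) ?_
  exact h1

end general

section central

variable {H : Type} [Group H] [Fintype H]

/-- restricted norms of characters of a group with a central element of order `p` -/
lemma norm_cut_le {p : ℕ} [hp : Fact p.Prime] {c : H} (hc : orderOf c = p)
    (hcen : ∀ h : H, c * h = h * c) {θ : H → ℂ} (hθ : IsIrr θ) {lam : ℂ}
    (hlam : ∀ (t : ℕ) (h : H), θ (c ^ t * h) = lam ^ t * θ h) (hl1 : ‖lam‖ = 1) :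
    (p : ℝ) * ∑ h ∈ Finset.univ.filter (fun h : H => ¬ p ∣ orderOf h), ‖θ h‖ ^ 2 ≤
      ∑ h : H, ‖θ h‖ ^ 2 := by
  set S := Finset.univ.filter (fun h : H => ¬ p ∣ orderOf h) with hS
  have hcomm : ∀ h, Commute c h := hcen
  have hinj : Set.InjOn (fun q : ℕ × H => c ^ q.1 * q.2)
      ((Finset.range p ×ˢ S : Finset (ℕ × H)) : Set (ℕ × H)) := by
    rintro ⟨i, h⟩ h1 ⟨j, h'⟩ h2 h3
    simp only [Finset.coe_product, Set.mem_prod, Finset.mem_coe, Finset.mem_range] at h1 h2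
    obtain ⟨hi, hh⟩ := h1
    obtain ⟨hj, hh'⟩ := h2
    have hh1 := (Finset.mem_filter.mp hh).2
    have hh2 := (Finset.mem_filter.mp hh').2
    have h4 : c ^ i * h = c ^ j * h' := h3
    set m := orderOf h * orderOf h' with hm
    have hmp : Nat.Coprime p m :=
      Nat.Coprime.mul_right ((Nat.Prime.coprime_iff_not_dvd hp.out).mpr hh1)
        ((Nat.Prime.coprime_iff_not_dvd hp.out).mpr hh2)
    have h5 : (c ^ i) ^ m = (c ^ j) ^ m := by
      have h6 : (c ^ i * h) ^ m = (c ^ j * h') ^ m := by rw [h4]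
      rw [((hcomm h).pow_left i).mul_pow, ((hcomm h').pow_left j).mul_pow] at h6
      have h7 : h ^ m = 1 := by rw [hm, pow_mul, pow_orderOf_eq_one, one_pow]
      have h8 : h' ^ m = 1 := by rw [hm, mul_comm, pow_mul, pow_orderOf_eq_one, one_pow]
      rw [h7, h8, mul_one, mul_one] at h6
      exact h6
    have h6 : i = j := by
      rw [← pow_mul, ← pow_mul, pow_eq_pow_iff_modEq, hc] at h5
      have h7 : i ≡ j [MOD p] := Nat.ModEq.cancel_right_of_coprime hmp h5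
      have h8 := h7
      unfold Nat.ModEq at h8
      rwa [Nat.mod_eq_of_lt hi, Nat.mod_eq_of_lt hj] at h8
    subst h6
    have h7 : h = h' := mul_left_cancel h4
    rw [h7]
  calc (p : ℝ) * ∑ h ∈ S, ‖θ h‖ ^ 2 = ∑ i ∈ Finset.range p, ∑ h ∈ S, ‖θ h‖ ^ 2 := by
        rw [Finset.sum_const, Finset.card_range, nsmul_eq_mul]
    _ = ∑ q ∈ Finset.range p ×ˢ S, ‖θ (c ^ q.1 * q.2)‖ ^ 2 := by
        rw [Finset.sum_product]
        refine Finset.sum_congr rfl fun i _ => Finset.sum_congr rfl fun h _ => ?_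
        rw [hlam, norm_mul, norm_pow, hl1, one_pow, one_mul]
    _ = ∑ x ∈ (Finset.range p ×ˢ S).image (fun q : ℕ × H => c ^ q.1 * q.2), ‖θ x‖ ^ 2 := by
        rw [Finset.sum_image hinj]
    _ ≤ ∑ h : H, ‖θ h‖ ^ 2 :=
        Finset.sum_le_sum_of_subset_of_nonneg (Finset.subset_univ _) fun _ _ _ => sq_nonneg _

/-- the restricted inner product is a sum of squares -/
lemma B_cut_self {p : ℕ} {θ : H → ℂ} (hθ : IsIrr θ) : IC.B (cut p θ) θ =
    (((Nat.card H : ℝ)⁻¹ * ∑ h ∈ Finset.univ.filter (fun h : H => ¬ p ∣ orderOf h),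
      ‖θ h‖ ^ 2 : ℝ) : ℂ) := by
  unfold IC.B
  push_cast
  congr 1
  rw [Finset.sum_filter]
  refine Finset.sum_congr rfl fun h _ => ?_
  unfold cut
  by_cases hh : p ∣ orderOf h
  · rw [if_pos hh, if_neg (not_not.mpr hh), zero_mul]
  · rw [if_neg hh, if_pos hh, Pool.Agent.Y62.conj_char hθ h, Complex.mul_conj']

lemma B_self {θ : H → ℂ} (hθ : IsIrr θ) : ∑ h : H, ‖θ h‖ ^ 2 = (Nat.card H : ℝ) := by
  have h1 : IC.B θ θ = 1 := by rw [IC.B_irr hθ hθ, if_pos rfl]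
  have h2 : IC.B θ θ = (((Nat.card H : ℝ)⁻¹ * ∑ h : H, ‖θ h‖ ^ 2 : ℝ) : ℂ) := by
    unfold IC.B
    push_cast
    congr 1
    refine Finset.sum_congr rfl fun h _ => ?_
    rw [Pool.Agent.Y62.conj_char hθ h, Complex.mul_conj']
  rw [h1] at h2
  have h3 : (1 : ℝ) = (Nat.card H : ℝ)⁻¹ * ∑ h : H, ‖θ h‖ ^ 2 := by exact_mod_cast h2
  have h4 : (Nat.card H : ℝ) ≠ 0 := by exact_mod_cast Nat.card_pos.ne'
  field_simp at h3
  exact h3.symm

end central

section major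

variable {p : ℕ} [hp : Fact p.Prime] {O : ValuationSubring ℂ} (hpO : (p : ℂ) ∈ O.nonunits)
  {D : Subgroup G} {B : Set (G → ℂ)} (hB : IsBlock O B) (hD : IsDefectGroup p O B D)
  {u : G} (hu : orderOf u = p ^ (0 + 1)) {b : Set (CC u → ℂ)} (hb : IsBlock O b)
  {D' : Subgroup (CC u)} (hD' : IsDefectGroup p O b D') (hcard : Nat.card D' = Nat.card D)
  (hbB : Induces O B (CC u) b)

include hpO hB hD hu hb hD' hcard hbB in
lemma major_ne {χ : G → ℂ} (hχ : χ ∈ B)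
    (z : {θ // θ ∈ XB b} → ℤ) (hz : (∑ θ, (z θ : RF O) * red O (uu D' (θ : CC u → ℂ))) ≠ 0) :
    ∑ θ : {θ // θ ∈ XB b}, (z θ : ℂ) * ((Nat.card D' : ℂ) * JJ p u 1 θ χ) ≠ 0 := by
  have hmem : ∀ θ : {θ // θ ∈ XB b}, (θ : CC u → ℂ) ∈ b := fun θ => (mem_XB hb.irr).mp θ.2
  have hirr : ∀ θ : {θ // θ ∈ XB b}, IsIrr (θ : CC u → ℂ) := fun θ => hb.irr _ (hmem θ)
  intro h0
  rw [hcard] at h0
  have hX := hB.irr χ hχ
  have h1 : uu D χ * ∑ θ : {θ // θ ∈ XB b}, (z θ : ℂ) * TG p u χ θ = 0 := by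
    rw [← h0, Finset.mul_sum]
    refine Finset.sum_congr rfl fun θ _ => ?_
    rw [card_JJ hu D hX (hirr θ)]
    ring
  have h2 := (mul_eq_zero.mp h1).resolve_left (uu_ne hX)
  have h3 := congrArg (red O) h2
  rw [red_zero, red_sum _ _ (fun θ _ => O.mul_mem _ _ (intCast_mem' _)
    (TG_mem hX (hirr θ)))] at h3
  have h4 : (∑ θ, (z θ : RF O) * red O (uu D' (θ : CC u → ℂ))) * ccG O p D χ = 0 := by
    rw [← h3, Finset.sum_mul]
    refine Finset.sum_congr rfl fun θ _ => ?_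
    rw [red_mul (intCast_mem' _) (TG_mem hX (hirr θ)), red_intCast,
      red_TG hpO hB hD hu hb hD' hcard hbB hχ (hmem θ)]
    ring
  exact (mul_ne_zero hz (cc_ne hpO hB hD hχ)) h4

include hpO hB hD hu hb hD' hcard in
lemma pos_height_dvd {χ : {χ // χ ∈ IC.Irr G}} (hχ : (χ : G → ℂ) ∈ B)
    (h0 : red O (uu D (χ : G → ℂ)) = 0) [NeZero (p ^ (0 + 1))]
    {m : ZMod (p ^ (0 + 1)) → ℤ} (z : {θ // θ ∈ XB b} → ℤ)
    (hK : ∀ t : ZMod (p ^ (0 + 1)), ∑ i, ch p 0 (t * i) * (m i : ℂ) =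
          ∑ θ : {θ // θ ∈ XB b}, (z θ : ℂ) * ((Nat.card D' : ℂ) * JJ p u t.val θ χ))
    (i j : ZMod (p ^ (0 + 1))) : (p : ℤ) ∣ m i - m j := by
  have hmem : ∀ θ : {θ // θ ∈ XB b}, (θ : CC u → ℂ) ∈ b := fun θ => (mem_XB hb.irr).mp θ.2
  have hirr : ∀ θ : {θ // θ ∈ XB b}, IsIrr (θ : CC u → ℂ) := fun θ => hb.irr _ (hmem θ)
  have hX := hB.irr _ hχ
  obtain ⟨v, hv, hv2⟩ := uu_div hpO hX (Pool.Agent.N20.uu_mem hpO hB hD hχ) h0
  refine diff_dvd hpO m ?_ i j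
  intro t ht
  have htc : Nat.Coprime t.val p := by
    apply Nat.Coprime.symm
    rw [Nat.Prime.coprime_iff_not_dvd hp.out]
    intro hdvd
    have h1 : t.val < p := by
      have := ZMod.val_lt t
      simpa using this
    have h2 := Nat.eq_zero_of_dvd_of_lt hdvd h1
    exact ht ((ZMod.val_eq_zero t).mp h2)
  refine ⟨v * ∑ θ : {θ // θ ∈ XB b}, (z θ : ℂ) * TGt p u t.val χ θ, ?_, ?_⟩
  · exact O.mul_mem _ _ hv (sum_mem fun θ _ => O.mul_mem _ _ (intCast_mem' _)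
      (TGt_mem hX (hirr θ)))
  · rw [hK, ← mul_assoc, ← hv2, Finset.mul_sum]
    refine Finset.sum_congr rfl fun θ _ => ?_
    rw [hcard, card_JJt hu htc D hX (hirr θ)]
    ring

include hpO hB hD hu hb hD' hcard hbB in
/-- **The minimum of the form of a major subsection of order `p`.** -/
theorem major_min {d : ℕ} (hd : Nat.card D = p ^ d) :
    ∃ f : ℕ, (B0 O D B).card * f ≤ p ^ d * lB p b ∧
      (B0 O D B).card + p ^ 2 * ((XB B).card - (B0 O D B).card) ≤ p ^ d * f ∧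
      p * f ≤ p ^ d := by
  haveI := charP_RF hpO
  haveI : NeZero (p ^ (0 + 1)) := ⟨pow_ne_zero _ hp.out.ne_zero⟩
  have hd' : Nat.card D' = p ^ d := hcard.trans hd
  obtain ⟨jj, n, E, hM, hU, hf, hK⟩ := exists_MD hpO hu hb hD' hd'
  obtain ⟨z, hz, hmin⟩ := E.exists_min
  have hz1 : (∑ θ, (z θ : RF O) * red O (uu D' (θ : CC u → ℂ))) ≠ 0 := by
    unfold MD.uf at hz
    simpa only [hU] using hz
  have hbn := E.bf_nn z
  have hN0 : 0 < 2 * (p - 1) := by
    have := hp.out.two_le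
    omega
  have hBsub : B0 O D B ⊆ XB B := Finset.filter_subset _ _
  refine ⟨(bf E.M z z).toNat, ?_, ?_, ?_⟩
  · -- the trace
    set A := Finset.univ.filter (fun q : {χ // χ ∈ IC.Irr G} × ZMod (p ^ (0 + 1)) ×
      ZMod (p ^ (0 + 1)) => ((q.1 : G → ℂ) ∈ B0 O D B) ∧ E.sf (E.f (q.1, q.2.1, q.2.2)) ≠ 0)
      with hA
    have hAcard : 2 * (p - 1) * (B0 O D B).card ≤ A.card := by
      have h1 := card_active (X := {χ // χ ∈ IC.Irr G})
        (Y := ZMod (p ^ (0 + 1)) × ZMod (p ^ (0 + 1)))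
        (fun χ => (χ : G → ℂ) ∈ B0 O D B) (fun χ q => E.sf (E.f (χ, q.1, q.2)) ≠ 0)
        (2 * (p - 1)) (by
          intro χ hχ
          obtain ⟨h1, h2⟩ := (mem_B0 hB.irr).mp hχ
          convert count_s hf hK hpO z χ (height_red hpO hB hD hu hb hD' hbB h1 h2 z hz1))
      rw [card_sub_eq (S := B0 O D B) (fun χ hχ => hB.irr χ ((mem_B0 hB.irr).mp hχ).1) _
        (fun χ => Iff.rfl)] at h1
      convert h1
    have h1 := E.min_le (bf E.M z z) hmin A (by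
      intro q hq
      exact (Finset.mem_filter.mp hq).2.2)
    have h2 : ((2 * (p - 1) * (B0 O D B).card : ℕ) : ℤ) * (bf E.M z z) ≤ (A.card : ℤ) * bf E.M z z :=
      mul_le_mul_of_nonneg_right (by exact_mod_cast hAcard) hbn
    have h3 : ((2 * (p - 1) : ℕ) : ℤ) * (((B0 O D B).card : ℤ) * bf E.M z z) ≤
        ((2 * (p - 1) : ℕ) : ℤ) * ((p : ℤ) ^ d * lB p b) := by
      calc ((2 * (p - 1) : ℕ) : ℤ) * (((B0 O D B).card : ℤ) * bf E.M z z)
          = ((2 * (p - 1) * (B0 O D B).card : ℕ) : ℤ) * (bf E.M z z) := by push_cast; ring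
        _ ≤ _ := h2
        _ ≤ _ := h1
        _ = _ := by ring
    have h4 := le_of_mul_le_mul_left h3 (by exact_mod_cast hN0)
    have h5 : ((((B0 O D B).card * (bf E.M z z).toNat : ℕ)) : ℤ) ≤ ((p ^ d * lB p b : ℕ) : ℤ) := by
      rw [Nat.cast_mul, Nat.cast_mul, Nat.cast_pow, Int.toNat_of_nonneg hbn]
      exact h4
    exact_mod_cast h5
  · -- the frame identity
    have h1 := E.frame_one z
    rw [Fintype.sum_prod_type] at h1
    set W : {χ // χ ∈ IC.Irr G} → ℤ := fun χ => ∑ q : ZMod (p ^ (0 + 1)) × ZMod (p ^ (0 + 1)),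
      bf E.M (E.f (χ, q)) z ^ 2 with hW
    have hWnn : ∀ χ, 0 ≤ W χ := fun χ => Finset.sum_nonneg fun _ _ => sq_nonneg _
    have hcnt : ∀ χ : {χ // χ ∈ IC.Irr G}, (χ : G → ℂ) ∈ B →
        2 * (p - 1) ≤ (Finset.univ.filter (fun q : ZMod (p ^ (0 + 1)) × ZMod (p ^ (0 + 1)) =>
          bf E.M (E.f (χ, q.1, q.2)) z ≠ 0)).card := by
      intro χ hχ
      exact count_z hf hK z χ (major_ne hpO hB hD hu hb hD' hcard hbB hχ z hz1)
    have hlow : ∀ (χ : {χ // χ ∈ IC.Irr G}) (c : ℤ), 0 ≤ c → (χ : G → ℂ) ∈ B →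
        (∀ q : ZMod (p ^ (0 + 1)) × ZMod (p ^ (0 + 1)), bf E.M (E.f (χ, q.1, q.2)) z ≠ 0 →
          c ≤ bf E.M (E.f (χ, q.1, q.2)) z ^ 2) → ((2 * (p - 1) : ℕ) : ℤ) * c ≤ W χ := by
      intro χ c hc hχ hq
      calc ((2 * (p - 1) : ℕ) : ℤ) * c ≤ ((Finset.univ.filter
            (fun q : ZMod (p ^ (0 + 1)) × ZMod (p ^ (0 + 1)) =>
              bf E.M (E.f (χ, q.1, q.2)) z ≠ 0)).card : ℤ) * c :=
            mul_le_mul_of_nonneg_right (by exact_mod_cast hcnt χ hχ) hc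
        _ = ∑ q ∈ Finset.univ.filter (fun q : ZMod (p ^ (0 + 1)) × ZMod (p ^ (0 + 1)) =>
              bf E.M (E.f (χ, q.1, q.2)) z ≠ 0), c := by
            rw [Finset.sum_const, nsmul_eq_mul]
        _ ≤ ∑ q ∈ Finset.univ.filter (fun q : ZMod (p ^ (0 + 1)) × ZMod (p ^ (0 + 1)) =>
              bf E.M (E.f (χ, q.1, q.2)) z ≠ 0), bf E.M (E.f (χ, q.1, q.2)) z ^ 2 :=
            Finset.sum_le_sum fun q hq' => hq q (Finset.mem_filter.mp hq').2
        _ ≤ W χ := Finset.sum_le_sum_of_subset_of_nonneg (Finset.subset_univ _)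
            fun _ _ _ => sq_nonneg _
    have hW0 : ∀ χ : {χ // χ ∈ IC.Irr G}, (χ : G → ℂ) ∈ B → ((2 * (p - 1) : ℕ) : ℤ) * 1 ≤ W χ := by
      intro χ hχ
      refine hlow χ 1 zero_le_one hχ fun q hq => ?_
      have h2 : 0 < bf E.M (E.f (χ, q.1, q.2)) z ^ 2 := by positivity
      linarith
    have hW1 : ∀ χ : {χ // χ ∈ IC.Irr G}, (χ : G → ℂ) ∈ B → red O (uu D (χ : G → ℂ)) = 0 →
        ((2 * (p - 1) : ℕ) : ℤ) * (p : ℤ) ^ 2 ≤ W χ := by
      intro χ hχ h0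
      refine hlow χ ((p : ℤ) ^ 2) (by positivity) hχ fun q hq => ?_
      have hdvd : (p : ℤ) ∣ bf E.M (E.f (χ, q.1, q.2)) z := by
        rw [bf_f hf]
        split_ifs with hr
        · exact pos_height_dvd hpO hB hD hu hb hD' hcard hχ h0 z (fun t => hK t z χ) q.1 q.2
        · exact dvd_zero _
      obtain ⟨c, hc⟩ := hdvd
      rw [hc] at hq ⊢
      have hc0 : c ≠ 0 := by
        rintro rfl
        exact hq (mul_zero _)
      have h2 : 0 < c ^ 2 := by positivity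
      have h3 : 0 ≤ (p : ℤ) ^ 2 := by positivity
      nlinarith
    set S0 := Finset.univ.filter (fun χ : {χ // χ ∈ IC.Irr G} => (χ : G → ℂ) ∈ B0 O D B)
      with hS0
    set S1 := Finset.univ.filter (fun χ : {χ // χ ∈ IC.Irr G} => (χ : G → ℂ) ∈ XB B \ B0 O D B)
      with hS1
    have hc0 : S0.card = (B0 O D B).card := by
      convert card_sub_eq (S := B0 O D B) (fun χ hχ => hB.irr χ ((mem_B0 hB.irr).mp hχ).1) _
        (fun χ => Iff.rfl)
    have hc1 : S1.card = (XB B).card - (B0 O D B).card := by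
      rw [← Finset.card_sdiff_of_subset hBsub]
      convert card_sub_eq (S := XB B \ B0 O D B) (fun χ hχ => hB.irr χ ((mem_XB hB.irr).mp
        (Finset.mem_sdiff.mp hχ).1)) _ (fun χ => Iff.rfl)
    have hdis : Disjoint S0 S1 := by
      rw [Finset.disjoint_left]
      intro χ h2 h3
      exact (Finset.mem_sdiff.mp (Finset.mem_filter.mp h3).2).2 (Finset.mem_filter.mp h2).2
    have hsum : ((2 * (p - 1) : ℕ) : ℤ) * (((B0 O D B).card : ℤ) +
        (p : ℤ) ^ 2 * (((XB B).card - (B0 O D B).card : ℕ) : ℤ)) ≤ ∑ χ, W χ := by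
      calc ((2 * (p - 1) : ℕ) : ℤ) * (((B0 O D B).card : ℤ) +
            (p : ℤ) ^ 2 * (((XB B).card - (B0 O D B).card : ℕ) : ℤ))
          = ∑ χ ∈ S0, ((2 * (p - 1) : ℕ) : ℤ) * 1 +
            ∑ χ ∈ S1, ((2 * (p - 1) : ℕ) : ℤ) * (p : ℤ) ^ 2 := by
            rw [Finset.sum_const, Finset.sum_const, hc0, hc1, nsmul_eq_mul, nsmul_eq_mul]
            ring
        _ ≤ ∑ χ ∈ S0, W χ + ∑ χ ∈ S1, W χ := by
            apply add_le_add
            · refine Finset.sum_le_sum fun χ hχ => hW0 χ ?_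
              exact ((mem_B0 hB.irr).mp (Finset.mem_filter.mp hχ).2).1
            · refine Finset.sum_le_sum fun χ hχ => ?_
              obtain ⟨h2, h3⟩ := Finset.mem_sdiff.mp (Finset.mem_filter.mp hχ).2
              have h4 := (mem_XB hB.irr).mp h2
              refine hW1 χ h4 ?_
              by_contra h5
              exact h3 ((mem_B0 hB.irr).mpr ⟨h4, h5⟩)
        _ = ∑ χ ∈ S0 ∪ S1, W χ := (Finset.sum_union hdis).symm
        _ ≤ ∑ χ, W χ := Finset.sum_le_sum_of_subset_of_nonneg (Finset.subset_univ _)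
            fun χ _ _ => hWnn χ
    have h1' : ∑ χ, W χ = ((2 * (p - 1) : ℕ) : ℤ) * (p : ℤ) ^ d * bf E.M z z := h1
    rw [h1'] at hsum
    have h2 : ((B0 O D B).card : ℤ) + (p : ℤ) ^ 2 * (((XB B).card - (B0 O D B).card : ℕ) : ℤ) ≤
        (p : ℤ) ^ d * bf E.M z z := by
      apply le_of_mul_le_mul_left _ (by exact_mod_cast hN0 : (0 : ℤ) < ((2 * (p - 1) : ℕ) : ℤ))
      calc _ ≤ _ := hsum
        _ = _ := by ring
    have h3 : (((B0 O D B).card + p ^ 2 * ((XB B).card - (B0 O D B).card) : ℕ) : ℤ) ≤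
        ((p ^ d * (bf E.M z z).toNat : ℕ) : ℤ) := by
      rw [Nat.cast_add, Nat.cast_mul, Nat.cast_mul, Nat.cast_pow, Nat.cast_pow,
        Int.toNat_of_nonneg hbn]
      exact h2
    exact_mod_cast h3
  · -- the norm of a character of height zero
    obtain ⟨θ₀, hθ₀, hθ₀ne⟩ := exists_uu_ne hpO hb hD'
    have hθi := hb.irr θ₀ hθ₀
    set θ₁ : {θ // θ ∈ XB b} := ⟨θ₀, (mem_XB hb.irr).mpr hθ₀⟩ with hθ₁
    set w : {θ // θ ∈ XB b} → ℤ := fun θ => if θ = θ₁ then 1 else 0 with hw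
    have h1 : E.uf w ≠ 0 := by
      have h2 : E.uf w = red O (uu D' θ₀) := by
        unfold MD.uf
        rw [Finset.sum_eq_single θ₁]
        · rw [hU, hw]
          simp [hθ₁]
        · intro θ _ hne
          rw [hw]
          simp [hne]
        · intro h
          exact absurd (Finset.mem_univ _) h
      rw [h2]
      exact hθ₀ne
    have h2 := hmin w h1
    have h3 : bf E.M w w = E.M θ₁ θ₁ := by
      unfold bf
      rw [Finset.sum_eq_single θ₁]
      · rw [Finset.sum_eq_single θ₁]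
        · simp [hw]
        · intro θ _ hne
          simp [hw, hne]
        · intro h
          exact absurd (Finset.mem_univ _) h
      · intro θ _ hne
        simp [hw, hne]
      · intro h
        exact absurd (Finset.mem_univ _) h
    have hcr : orderOf (uc u) = p := by
      have h4 : orderOf (uc u) = orderOf u := Subgroup.orderOf_mk u _
      rw [h4, hu, zero_add, pow_one]
    have hl1 : ‖cu u θ₀‖ = 1 := by
      have h4 := cu_pow u hθi
      exact Complex.norm_eq_one_of_pow_eq_one h4 (by rw [hu]; exact pow_ne_zero _ hp.out.ne_zero)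
    have h4 := norm_cut_le hcr (uc_comm u) hθi (fun t h => cu_val u hθi t h) hl1
    rw [B_self hθi] at h4
    have h5 : (E.M θ₁ θ₁ : ℂ) = (((Nat.card D' : ℝ) * ((Nat.card (CC u) : ℝ)⁻¹ *
        ∑ h ∈ Finset.univ.filter (fun h : CC u => ¬ p ∣ orderOf h), ‖θ₀ h‖ ^ 2) : ℝ) : ℂ) := by
      rw [hM, B_cut_self hθi]
      push_cast
      rfl
    have h6 : (E.M θ₁ θ₁ : ℝ) = (Nat.card D' : ℝ) * ((Nat.card (CC u) : ℝ)⁻¹ *
        ∑ h ∈ Finset.univ.filter (fun h : CC u => ¬ p ∣ orderOf h), ‖θ₀ h‖ ^ 2) := by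
      exact_mod_cast h5
    have hH : (0 : ℝ) < Nat.card (CC u) := by exact_mod_cast Nat.card_pos
    have h7 : (p : ℝ) * (E.M θ₁ θ₁ : ℝ) ≤ (p : ℝ) ^ d := by
      rw [h6, hd']
      push_cast
      have h8 : (Nat.card (CC u) : ℝ)⁻¹ * ((p : ℝ) *
          ∑ h ∈ Finset.univ.filter (fun h : CC u => ¬ p ∣ orderOf h), ‖θ₀ h‖ ^ 2) ≤ 1 := by
        rw [inv_mul_le_iff₀ hH, mul_one]
        exact h4
      have hpd : (0 : ℝ) ≤ (p : ℝ) ^ d := by positivity
      calc (p : ℝ) * ((p : ℝ) ^ d * ((Nat.card (CC u) : ℝ)⁻¹ *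
            ∑ h ∈ Finset.univ.filter (fun h : CC u => ¬ p ∣ orderOf h), ‖θ₀ h‖ ^ 2))
          = (p : ℝ) ^ d * ((Nat.card (CC u) : ℝ)⁻¹ * ((p : ℝ) *
            ∑ h ∈ Finset.univ.filter (fun h : CC u => ¬ p ∣ orderOf h), ‖θ₀ h‖ ^ 2)) := by ring
        _ ≤ (p : ℝ) ^ d * 1 := mul_le_mul_of_nonneg_left h8 hpd
        _ = _ := mul_one _
    have h8 : (p : ℤ) * E.M θ₁ θ₁ ≤ (p : ℤ) ^ d := by exact_mod_cast h7
    have h9 : ((p * (bf E.M z z).toNat : ℕ) : ℤ) ≤ ((p ^ d : ℕ) : ℤ) := by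
      rw [Nat.cast_mul, Int.toNat_of_nonneg hbn]
      push_cast
      rw [h3] at h2
      have : (0 : ℤ) ≤ p := by positivity
      nlinarith
    exact_mod_cast h9

end major

end Pool.Agent.J6H19.KB
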