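import Mathlib
import Pool.Agent.J6H19.KB.Mean

/-!
Numerical estimates.
-/

set_option autoImplicit false

open scoped BigOperators Classical

noncomputable section

namespace Pool.Agent.J6H19.KB

/-- the core estimate -/
lemma num_core {P X q k0 k f l c A : ℝ} (hP : 3 ≤ P) (hX : 0 < X) (hq : 0 < q) (hk0 : 0 ≤ k0)
    (hqX : q ≤ P ^ 3 * X)
    (a : (P - 1) * k0 ^ 2 ≤ q ^ 2 * l + c * (q * k0)) (b1 : k0 * f ≤ q * l)
    (b2 : k0 + P ^ 2 * (k - k0) ≤ q * f) (b3 : P * f ≤ q)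
    (hl : l ≤ A * P * X ^ 2) (hA : A ≤ 2) (hA0 : 0 < A)
    (hc : 45 * c ≤ (81 * (P - 1) - 25 * A * P) * X) : k ≤ 2 * q * X := by
  obtain ⟨t, ht⟩ : ∃ t, k0 = t * (q * X) := ⟨k0 / (q * X), by field_simp⟩
  have hqX0 : 0 < q * X := mul_pos hq hX
  have ht0 : 0 ≤ t := by
    by_contra h
    push Not at h
    nlinarith
  -- rescaled inequalities
  have a' : (P - 1) * t ^ 2 * X ≤ A * P * X + c * t := by
    have h1 : q ^ 2 * X * ((P - 1) * t ^ 2 * X) ≤ q ^ 2 * X * (A * P * X + c * t) := by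
      calc q ^ 2 * X * ((P - 1) * t ^ 2 * X) = (P - 1) * k0 ^ 2 := by rw [ht]; ring
        _ ≤ q ^ 2 * l + c * (q * k0) := a
        _ ≤ q ^ 2 * (A * P * X ^ 2) + c * (q * k0) := by
            have := mul_le_mul_of_nonneg_left hl (sq_nonneg q)
            linarith
        _ = _ := by rw [ht]; ring
    exact le_of_mul_le_mul_left h1 (by positivity)
  have b1' : t * f ≤ A * P * X := by
    have h1 : (q * X) * (t * f) ≤ (q * X) * (A * P * X) := by
      calc (q * X) * (t * f) = k0 * f := by rw [ht]; ring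
        _ ≤ q * l := b1
        _ ≤ q * (A * P * X ^ 2) := mul_le_mul_of_nonneg_left hl hq.le
        _ = _ := by ring
    exact le_of_mul_le_mul_left h1 hqX0
  have b2' : P ^ 2 * k ≤ q * (f + (P ^ 2 - 1) * t * X) := by
    calc P ^ 2 * k = (k0 + P ^ 2 * (k - k0)) + (P ^ 2 - 1) * k0 := by ring
      _ ≤ q * f + (P ^ 2 - 1) * k0 := by linarith
      _ = _ := by rw [ht]; ring
  have hP2 : 0 < P ^ 2 := by positivity
  have hP21 : 0 < P ^ 2 - 1 := by nlinarith
  suffices h : f + (P ^ 2 - 1) * t * X ≤ 2 * P ^ 2 * X by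
    have h1 : P ^ 2 * k ≤ P ^ 2 * (2 * q * X) := by
      calc P ^ 2 * k ≤ q * (f + (P ^ 2 - 1) * t * X) := b2'
        _ ≤ q * (2 * P ^ 2 * X) := mul_le_mul_of_nonneg_left h hq.le
        _ = _ := by ring
    exact le_of_mul_le_mul_left h1 hP2
  rcases le_or_gt t 1 with h1 | h1
  · have h2 : f ≤ P ^ 2 * X := by
      have h3 : P * f ≤ P * (P ^ 2 * X) := by
        calc P * f ≤ q := b3
          _ ≤ P ^ 3 * X := hqX
          _ = _ := by ring
      exact le_of_mul_le_mul_left h3 (by linarith)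
    have h3 : (P ^ 2 - 1) * t * X ≤ (P ^ 2 - 1) * 1 * X := by
      apply mul_le_mul_of_nonneg_right _ hX.le
      exact mul_le_mul_of_nonneg_left h1 hP21.le
    nlinarith
  · have ht95 : t ≤ 9 / 5 := by
      by_contra hcon
      push Not at hcon
      have h2 : 0 < (t - 9 / 5) * ((P - 1) * t + 5 * A * P / 9) * X := by
        apply mul_pos _ hX
        apply mul_pos (by linarith)
        have : 0 < A * P := by nlinarith
        nlinarith
      have h3 : 45 * (c * t) ≤ (81 * (P - 1) - 25 * A * P) * X * t := by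
        have := mul_le_mul_of_nonneg_right hc ht0
        linarith
      nlinarith
    have h2 : t * (f + (P ^ 2 - 1) * t * X) ≤ t * (2 * P ^ 2 * X) := by
      have h3 : (P ^ 2 - 1) * t ^ 2 + 2 * P ≤ 2 * P ^ 2 * t := by
        nlinarith [mul_nonneg (sub_nonneg.mpr h1.le) (sub_nonneg.mpr ht95),
          mul_nonneg hP21.le (mul_nonneg (sub_nonneg.mpr h1.le) (sub_nonneg.mpr ht95)),
          mul_nonneg (sub_nonneg.mpr h1.le) (sq_nonneg (P - 3)),
          mul_nonneg (sub_nonneg.mpr ht95) (sq_nonneg (P - 1)),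
          mul_nonneg (sub_nonneg.mpr h1.le) (by nlinarith [sq_nonneg (P - 3)] :
            0 ≤ 9 * P ^ 2 - 50 * P + 81)]
      have h4 : A * P * X ≤ 2 * P * X := by
        apply mul_le_mul_of_nonneg_right _ hX.le
        nlinarith
      calc t * (f + (P ^ 2 - 1) * t * X) = t * f + ((P ^ 2 - 1) * t ^ 2) * X := by ring
        _ ≤ 2 * P * X + ((P ^ 2 - 1) * t ^ 2) * X := by linarith
        _ = ((P ^ 2 - 1) * t ^ 2 + 2 * P) * X := by ring
        _ ≤ (2 * P ^ 2 * t) * X := mul_le_mul_of_nonneg_right h3 hX.le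
        _ = _ := by ring
    exact le_of_mul_le_mul_left h2 (by linarith)

/-- a bound for the constant of the mean value estimate -/
lemma cst_le {p : ℕ} [hp : Fact p.Prime] : cst p ≤ ((p : ℝ) - 1) * (√p + 1) / 2 := by
  have hp2 := hp.out.two_le
  have hpR : (2 : ℝ) ≤ p := by exact_mod_cast hp2
  set s := Nat.sqrt p with hs
  have hs1 : 1 ≤ s := by
    rw [hs]
    exact Nat.sqrt_pos.mpr (by omega)
  have hsR : (s : ℝ) ≤ √p := Real.nat_sqrt_le_real_sqrt
  have h1 : cst p ≤ ∑ m ∈ sm p, (if m = 1 then ((p : ℝ) - 1) else ((p : ℝ) - 1) / 2) := by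
    refine Finset.sum_le_sum fun m hm => ?_
    obtain ⟨h2, h3, -⟩ := mem_sm hm
    have hmR : (0 : ℝ) < m := by exact_mod_cast h2
    split_ifs with h
    · rw [h]
      norm_num
    · have h4 : (2 : ℝ) ≤ m := by
        have : 2 ≤ m := by omega
        exact_mod_cast this
      have h5 : ((p : ℝ) - 1) / m ≤ ((p : ℝ) - 1) / 2 :=
        div_le_div_of_nonneg_left (by linarith) (by norm_num) h4
      linarith
  have hsub : sm p ⊆ insert 1 (Finset.Icc 2 s) := by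
    intro m hm
    obtain ⟨h2, h3, -⟩ := mem_sm hm
    rw [Finset.mem_insert, Finset.mem_Icc]
    by_cases h : m = 1
    · left; exact h
    · right
      refine ⟨by omega, ?_⟩
      rw [hs, Nat.le_sqrt']
      omega
  have h2 : ∑ m ∈ sm p, (if m = 1 then ((p : ℝ) - 1) else ((p : ℝ) - 1) / 2) ≤
      ∑ m ∈ insert 1 (Finset.Icc 2 s), (if m = 1 then ((p : ℝ) - 1) else ((p : ℝ) - 1) / 2) := by
    apply Finset.sum_le_sum_of_subset_of_nonneg hsub
    intro m _ _
    split_ifs <;> linarith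
  rw [Finset.sum_insert (by simp), if_pos rfl] at h2
  have h3 : ∑ m ∈ Finset.Icc 2 s, (if m = 1 then ((p : ℝ) - 1) else ((p : ℝ) - 1) / 2) =
      ((s : ℝ) - 1) * (((p : ℝ) - 1) / 2) := by
    rw [Finset.sum_congr rfl (g := fun _ => ((p : ℝ) - 1) / 2)]
    · rw [Finset.sum_const, Nat.card_Icc, nsmul_eq_mul]
      congr 1
      have : s + 1 - 2 = s - 1 := by omega
      rw [this, Nat.cast_sub hs1, Nat.cast_one]
    · intro m hm
      rw [if_neg]
      have := (Finset.mem_Icc.mp hm).1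
      omega
  rw [h3] at h2
  have h4 : ((s : ℝ) - 1) * (((p : ℝ) - 1) / 2) ≤ (√p - 1) * (((p : ℝ) - 1) / 2) :=
    mul_le_mul_of_nonneg_right (by linarith) (by linarith)
  calc cst p ≤ _ := h1
    _ ≤ _ := h2
    _ ≤ ((p : ℝ) - 1) + (√p - 1) * (((p : ℝ) - 1) / 2) := by linarith
    _ = _ := by ring

lemma cst_three : cst 3 = 1 := by
  have : sm 3 = {1} := by decide
  unfold cst
  rw [this, Finset.sum_singleton]
  norm_num

/-- the exponent function -/
def XX (p d : ℕ) : ℝ := (p : ℝ) ^ ((d : ℝ) - 3 + 2 ^ (2 - (d : ℝ)))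

lemma XX_pos {p : ℕ} (hp : 0 < p) (d : ℕ) : 0 < XX p d :=
  Real.rpow_pos_of_pos (by exact_mod_cast hp) _

lemma XX_step {p : ℕ} (hp : 0 < p) (d : ℕ) :
    XX p (d + 1) ^ 2 * (p : ℝ) = (p : ℝ) ^ d * XX p d := by
  have hp' : (0 : ℝ) < p := by exact_mod_cast hp
  unfold XX
  rw [← Real.rpow_natCast, ← Real.rpow_mul hp'.le, ← Real.rpow_natCast, ← Real.rpow_add hp']
  nth_rewrite 2 [← Real.rpow_one (p : ℝ)]
  rw [← Real.rpow_add hp']
  congr 1
  have h1 : (2 : ℝ) ^ (2 - ((d + 1 : ℕ) : ℝ)) * 2 = 2 ^ (2 - (d : ℝ)) := by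
    rw [show (2 : ℝ) - (d : ℝ) = (2 - ((d + 1 : ℕ) : ℝ)) + 1 by push_cast; ring,
      Real.rpow_add_one (by norm_num)]
  push_cast at h1 ⊢
  linarith

lemma XX_ge {p : ℕ} (hp : 1 ≤ p) (d : ℕ) : (p : ℝ) ^ d ≤ (p : ℝ) ^ 3 * XX p d := by
  have hp' : (0 : ℝ) < p := by exact_mod_cast hp
  have hp1 : (1 : ℝ) ≤ p := by exact_mod_cast hp
  unfold XX
  rw [← Real.rpow_natCast, ← Real.rpow_natCast, ← Real.rpow_add hp']
  apply Real.rpow_le_rpow_of_exponent_le hp1
  have : (0 : ℝ) < 2 ^ (2 - (d : ℝ)) := Real.rpow_pos_of_pos (by norm_num) _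
  push_cast
  linarith

lemma XX_three_sq {p : ℕ} (hp : 0 < p) : XX p 3 ^ 2 = p := by
  have hp' : (0 : ℝ) < p := by exact_mod_cast hp
  unfold XX
  rw [← Real.rpow_natCast, ← Real.rpow_mul hp'.le]
  have h1 : (2 : ℝ) ^ (2 - ((3 : ℕ) : ℝ)) = 2⁻¹ := by
    rw [show (2 - ((3 : ℕ) : ℝ)) = -1 by norm_num, Real.rpow_neg_one]
  rw [h1]
  norm_num

lemma XX_ge_four {p : ℕ} (hp : 1 ≤ p) {d : ℕ} (hd : 4 ≤ d) :
    (p : ℝ) ^ ((5 : ℝ) / 4) ≤ XX p d := by
  have hp1 : (1 : ℝ) ≤ p := by exact_mod_cast hp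
  unfold XX
  apply Real.rpow_le_rpow_of_exponent_le hp1
  rcases Nat.eq_or_lt_of_le hd with h | h
  · rw [← h]
    have h1 : (2 : ℝ) ^ (2 - ((4 : ℕ) : ℝ)) = 4⁻¹ := by
      rw [show (2 - ((4 : ℕ) : ℝ)) = ((-2 : ℤ) : ℝ) by norm_num, Real.rpow_intCast]
      norm_num
    rw [h1]
    norm_num
  · have h1 : (0 : ℝ) < 2 ^ (2 - (d : ℝ)) := Real.rpow_pos_of_pos (by norm_num) _
    have h2 : (5 : ℝ) ≤ d := by exact_mod_cast h
    linarith

lemma three_pow : (15 : ℝ) / 4 ≤ (3 : ℝ) ^ ((5 : ℝ) / 4) := by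
  by_contra hcon
  push Not at hcon
  have h0 : (0 : ℝ) ≤ (3 : ℝ) ^ ((5 : ℝ) / 4) := by positivity
  have h1 : ((3 : ℝ) ^ ((5 : ℝ) / 4)) ^ 4 = 243 := by
    rw [← Real.rpow_natCast, ← Real.rpow_mul (by norm_num)]
    norm_num
  have h2 : ((3 : ℝ) ^ ((5 : ℝ) / 4)) ^ 4 ≤ ((15 : ℝ) / 4) ^ 4 := pow_le_pow_left₀ h0 hcon.le 4
  rw [h1] at h2
  norm_num at h2

/-- the numerical condition in defect at least four -/
lemma cond_four {p : ℕ} [hp : Fact p.Prime] (hp3 : 3 ≤ p) {d : ℕ} (hd : 4 ≤ d) :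
    45 * cst p ≤ (81 * ((p : ℝ) - 1) - 25 * 2 * p) * XX p d := by
  have h1 := XX_ge_four (p := p) (by omega) hd
  rcases eq_or_ne p 3 with h3 | h3
  · subst h3
    rw [cst_three]
    have h2 := three_pow
    push_cast at h1 ⊢
    linarith
  · have hp5 : 5 ≤ p := by
      by_contra hcon
      have h4 : p = 4 := by omega
      have h5 := hp.out
      rw [h4] at h5
      exact absurd h5 (by decide)
    have hp5R : (5 : ℝ) ≤ p := by exact_mod_cast hp5
    have h2 : (p : ℝ) ≤ XX p d := by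
      refine le_trans ?_ h1
      conv_lhs => rw [← Real.rpow_one (p : ℝ)]
      exact Real.rpow_le_rpow_of_exponent_le (by linarith) (by norm_num)
    have h4 := cst_le (p := p)
    have h5 : √(p : ℝ) ≤ p / 2 := by
      rw [Real.sqrt_le_left (by linarith)]
      nlinarith
    have h6 : (81 * ((p : ℝ) - 1) - 25 * 2 * p) * p ≤
        (81 * ((p : ℝ) - 1) - 25 * 2 * p) * XX p d :=
      mul_le_mul_of_nonneg_left h2 (by linarith)
    have h7 : ((p : ℝ) - 1) * (√p + 1) ≤ ((p : ℝ) - 1) * (p / 2 + 1) :=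
      mul_le_mul_of_nonneg_left (by linarith) (by linarith)
    nlinarith

end Pool.Agent.J6H19.KB
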