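import Mathlib
import Pool.Agent.J6H19.KB.Brauer

/-!
Existence of major subsections.
-/

set_option autoImplicit false
set_option linter.style.haveILetI false
set_option linter.unusedSectionVars false

open scoped BigOperators Classical
open Pool.Agent.Helper884 Pool.Agent.H254R3.IN Pool.Agent.N20

noncomputable section

namespace Pool.Agent.J6H19.KB

/-- blocks have defect groups -/
theorem exists_defect {H : Type} [Group H] [Fintype H] {O : ValuationSubring ℂ} {p : ℕ}
    [Fact p.Prime] {b : Set (H → ℂ)} (hb : IsBlock O b) :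
    ∃ D' : Subgroup H, IsDefectGroup p O b D' := by
  obtain ⟨χ, hχ⟩ := hb.nonempty
  have hχi := hb.irr χ hχ
  have h1 := Pool.Agent.N20.red_Om (O := O) hχi (blockCoeff_cl hb.irr) (blockCoeff_mem hb)
  rw [Om_blockCoeff hb.irr hχi, if_pos hχ, red_one] at h1
  have h2 : ∃ K : ConjClasses H, red O (blockCoeff b (rep K)) * red O (omega χ (rep K)) ≠ 0 := by
    by_contra hcon
    push Not at hcon
    rw [Finset.sum_eq_zero fun K _ => hcon K] at h1
    exact one_ne_zero h1
  obtain ⟨K, hK⟩ := h2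
  let P : Sylow p (Subgroup.centralizer ({rep K} : Set H)) := default
  refine ⟨(P : Subgroup (Subgroup.centralizer ({rep K} : Set H))).map
    (Subgroup.centralizer ({rep K} : Set H)).subtype, rep K, ⟨P, rfl⟩, ?_, ?_⟩
  · intro ψ hψ h
    apply right_ne_zero_of_mul hK
    rw [hb.red_eq hχ hψ, red_eq_zero h]
  · intro h
    exact left_ne_zero_of_mul hK (red_eq_zero h)

variable {G : Type} [Group G] [Fintype G]

lemma card_map_sylow {p : ℕ} {x : G} (P : Sylow p (Subgroup.centralizer ({x} : Set G))) :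
    Nat.card ((P : Subgroup (Subgroup.centralizer ({x} : Set G))).map
      (Subgroup.centralizer ({x} : Set G)).subtype) = Nat.card P :=
  (Nat.card_congr ((P : Subgroup (Subgroup.centralizer ({x} : Set G))).equivMapOfInjective _
      (Subgroup.centralizer ({x} : Set G)).subtype_injective).toEquiv).symm

/-- restriction of class indicators -/
lemma Om_rs_ind {u : G} {θ : CC u → ℂ} (y : G) :
    Om (rs u (ind y)) θ = ∑ᶠ h : {h : CC u // IsConj y (h : G)}, θ h / θ 1 := by
  rw [finsum_eq_sum_of_fintype]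
  have h3 : ∑ h : {h : CC u // IsConj y (h : G)}, θ h / θ 1 =
      ∑ h ∈ Finset.univ.filter (fun h : CC u => IsConj y (h : G)), θ h / θ 1 := by
    rw [← Finset.sum_subtype (p := fun h : CC u => IsConj y (h : G))
      (Finset.univ.filter (fun h : CC u => IsConj y (h : G))) (by simp) (fun h => θ h / θ 1)]
  rw [h3]
  unfold Om rs ind
  simp only [ite_mul, one_mul, zero_mul]
  rw [← Finset.sum_filter, Finset.sum_div]

/-- **Existence of major subsections.** -/
theorem exists_major {p : ℕ} [hp : Fact p.Prime] {O : ValuationSubring ℂ}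
    (hpO : (p : ℂ) ∈ O.nonunits) {D : Subgroup G} {B : Set (G → ℂ)} (hB : IsBlock O B)
    (hD : IsDefectGroup p O B D) {u : G} {k : ℕ} (hu : orderOf u = p ^ k) (huD : u ∈ D)
    (huZ : ∀ g ∈ D, u * g = g * u) :
    ∃ (b : Set (CC u → ℂ)) (D' : Subgroup (CC u)), IsBlock O b ∧ IsDefectGroup p O b D' ∧
      Nat.card D' = Nat.card D ∧ Induces O B (CC u) b := by
  haveI := charP_RF hpO
  have hDp := Pool.Agent.N20.defect_pgroup hD
  obtain ⟨x, ⟨P, hDP⟩, hω, ha⟩ := hD
  have hD : IsDefectGroup p O B D := ⟨x, ⟨P, hDP⟩, hω, ha⟩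
  have hxreg : ¬ p ∣ orderOf x := by
    intro h
    apply ha
    rw [blockCoeff_sing hpO hB h]
    exact O.nonunits.zero_mem
  have hDle : ∀ d ∈ D, x * d = d * x := by
    intro d hd
    rw [hDP] at hd
    obtain ⟨c, -, rfl⟩ := Subgroup.mem_map.mp hd
    exact Subgroup.mem_centralizer_iff.mp c.2 x (Set.mem_singleton x)
  have hxu : x ∈ CC u := mem_CC.mpr (hDle u huD).symm
  set x' : CC u := ⟨x, hxu⟩ with hx'
  have hecl := blockCoeff_cl hB.irr
  have heO := blockCoeff_mem hB
  -- the characters of the centralizer on which `e_B` acts as the identity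
  obtain ⟨C, hC⟩ : ∃ C : Set (CC u → ℂ), ∀ θ, θ ∈ C ↔
      IsIrr θ ∧ Lam O u θ (blockCoeff B) ≠ 0 :=
    ⟨{θ | IsIrr θ ∧ Lam O u θ (blockCoeff B) ≠ 0}, fun θ => Iff.rfl⟩
  have hCi : ∀ θ ∈ C, IsIrr θ := fun θ hθ => ((hC θ).mp hθ).1
  have hC2 : ∀ θ ∈ C, ∀ χ ∈ blk O θ, χ ∈ C := by
    intro θ hθ χ hχ
    rw [hC] at hθ ⊢
    refine ⟨hχ.1, ?_⟩
    rw [Lam_congr hecl heO hθ.1 hχ]
    exact hθ.2
  have hEO : ∀ y, blockCoeff C y ∈ O := by
    intro y
    rw [blockCoeff_union (O := O) hCi hC2]
    refine sum_mem fun b hb => ?_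
    obtain ⟨θ, hθ, rfl⟩ := Finset.mem_image.mp hb
    exact blockCoeff_mem (blk_block (mem_Irr.mp (Finset.mem_filter.mp hθ).1)) y
  have hidem : ∀ θ, IsIrr θ → Lam O u θ (blockCoeff B) = if θ ∈ C then 1 else 0 := by
    intro θ hθ
    have h1 := Lam_conv hpO hu hecl hecl heO heO hθ
    rw [conv_blockCoeff hB.irr] at h1
    split_ifs with h
    · have h2 := ((hC θ).mp h).2
      exact mul_left_cancel₀ h2 (by rw [← h1, mul_one])
    · by_contra h2
      exact h ((hC θ).mpr ⟨hθ, h2⟩)
  have haa : toA O (rs u (blockCoeff B)) * toA O (rs u (blockCoeff B)) =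
      toA O (rs u (blockCoeff B)) := by
    have hrO : ∀ y, rs u (blockCoeff B) y ∈ O := fun _ => heO _
    rw [← toA_conv hrO hrO]
    have h1 : toA O (rs u (conv (blockCoeff B) (blockCoeff B))) =
        toA O (conv (rs u (blockCoeff B)) (rs u (blockCoeff B))) :=
      toA_congr (red_rs_conv hpO hu hecl hecl heO heO)
    rw [← h1, conv_blockCoeff hB.irr]
  have hee : toA O (blockCoeff C) * toA O (blockCoeff C) = toA O (blockCoeff C) := by
    rw [← toA_conv hEO hEO, conv_blockCoeff hCi]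
  have hkey := idem_eq (O := O) (rs_cl u hecl) (blockCoeff_cl hCi) (fun _ => heO _) hEO haa hee
    (by
      intro θ hθ
      have h1 := hidem θ hθ
      unfold Lam at h1
      rw [h1, Om_blockCoeff hCi hθ]
      split_ifs
      · rw [red_one]
      · rw [red_zero]) x'
  have hne : red O (blockCoeff C x') ≠ 0 := by
    rw [← hkey]
    intro h0
    exact ha ((red_eq_zero_iff (heO x)).mp h0)
  -- choose the block
  rw [blockCoeff_union (O := O) hCi hC2, red_sum] at hne
  swap
  · intro b hb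
    obtain ⟨θ, hθ, rfl⟩ := Finset.mem_image.mp hb
    exact blockCoeff_mem (blk_block (mem_Irr.mp (Finset.mem_filter.mp hθ).1)) _
  obtain ⟨b, hb, hbne⟩ := Finset.exists_ne_zero_of_sum_ne_zero hne
  obtain ⟨θ, hθ, rfl⟩ := Finset.mem_image.mp hb
  have hθC : θ ∈ C := (Finset.mem_filter.mp hθ).2
  have hθi : IsIrr θ := hCi θ hθC
  have hbb : IsBlock O (blk O θ) := blk_block hθi
  have hθb : θ ∈ blk O θ := mem_blk hθi
  have hind : Induces O B (CC u) (blk O θ) := by
    intro χ hχ θ' hθ' y
    have hχi := hB.irr χ hχ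
    have hθ'C := (hC θ').mp (hC2 θ hθC θ' hθ')
    have h1 := Lam_eq hpO hu hB hθ'C.1 hθ'C.2 (ind_cl y) (ind_mem O y) hχ
    rw [Om_ind hχi] at h1
    unfold Lam at h1
    rw [← Om_rs_ind, ← red_eq_iff (hχi.omega_mem O y)
      (Om_mem hθ'C.1 (rs_cl u (ind_cl y)) (fun _ => ind_mem O y _))]
    exact h1.symm
  obtain ⟨D', hD'⟩ := exists_defect (p := p) hbb
  refine ⟨blk O θ, D', hbb, hD', ?_, hind⟩
  obtain ⟨d, hd⟩ := IsPGroup.iff_card.mp hDp
  obtain ⟨e, he⟩ := IsPGroup.iff_card.mp (Pool.Agent.N20.defect_pgroup hD')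
  -- upper bound
  have h1 : Nat.card D' ∣ Nat.card D := by
    obtain ⟨χ, hχ⟩ := hB.nonempty
    have hχi := hB.irr χ hχ
    have h2 := induced_sum' hχi hθi (hind χ hχ θ hθb x)
    have h3 : red O (omega χ x) ≠ 0 :=
      fun h => hω χ hχ ((red_eq_zero_iff (hχi.omega_mem O x)).mp h)
    rw [h2] at h3
    obtain ⟨L, -, hL⟩ := Finset.exists_ne_zero_of_sum_ne_zero h3
    have hconj : IsConj x ((rep L : CC u) : G) := by
      by_contra h4
      rw [if_neg h4] at hL
      exact hL rfl
    rw [if_pos hconj] at hL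
    obtain ⟨g, hg⟩ := lam_ne hpO hbb hD' hθb hL
    have h4 := card_dvd_of_conj hg
    have h5 : Nat.card (Subgroup.centralizer ({rep L} : Set (CC u))) ∣
        Nat.card (Subgroup.centralizer ({((rep L : CC u) : G)} : Set G)) := by
      have h6 : (Subgroup.centralizer ({rep L} : Set (CC u))).map (CC u).subtype ≤
          Subgroup.centralizer ({((rep L : CC u) : G)} : Set G) := by
        intro g hg
        obtain ⟨c, hc, rfl⟩ := Subgroup.mem_map.mp hg
        rw [Subgroup.mem_centralizer_iff]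
        intro h hh
        rw [Set.mem_singleton_iff] at hh
        rw [hh]
        exact congrArg Subtype.val (Subgroup.mem_centralizer_iff.mp hc (rep L)
          (Set.mem_singleton _))
      have h7 := Subgroup.card_dvd_of_le h6
      rwa [← Nat.card_congr ((Subgroup.centralizer ({rep L} : Set (CC u))).equivMapOfInjective _
        (CC u).subtype_injective).toEquiv] at h7
    have h6 : Nat.card D' ∣ Nat.card (Subgroup.centralizer ({x} : Set G)) := by
      rw [card_centralizer_congr hconj]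
      exact h4.trans h5
    rw [he] at h6 ⊢
    have h7 : Nat.card D = p ^ (Nat.card (Subgroup.centralizer ({x} : Set G))).factorization p := by
      rw [hDP, card_map_sylow]
      exact P.card_eq_multiplicity
    rw [h7]
    exact pow_dvd_pow p ((hp.out.pow_dvd_iff_le_factorization Nat.card_pos.ne').mp h6)
  -- the centralizer of `x`
  have h2 : Nat.card D ∣ Nat.card (Subgroup.centralizer ({x'} : Set (CC u))) := by
    have hDH : D ≤ CC u := fun g hg => mem_CC.mpr (huZ g hg)
    have h3 : D.subgroupOf (CC u) ≤ Subgroup.centralizer ({x'} : Set (CC u)) := by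
      intro g hg
      rw [Subgroup.mem_centralizer_iff]
      intro h hh
      rw [Set.mem_singleton_iff] at hh
      rw [hh]
      exact Subtype.ext (hDle g (Subgroup.mem_subgroupOf.mp hg))
    have h4 := Subgroup.card_dvd_of_le h3
    rwa [Nat.card_congr (Subgroup.subgroupOfEquivOfLe hDH).toEquiv] at h4
  have hx'reg : ¬ p ∣ orderOf x'⁻¹ := by
    rw [orderOf_inv]
    have : orderOf x' = orderOf x := Subgroup.orderOf_mk x _
    rw [this]
    exact hxreg
  have h3 := red_blockCoeff hpO hbb hD' hθb hx'reg (by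
    rw [centralizer_inv]
    exact h1.trans h2)
  rw [inv_inv] at h3
  rw [h3] at hbne
  have h4 : red O (nn D' x'⁻¹) ≠ 0 := right_ne_zero_of_mul (left_ne_zero_of_mul hbne)
  rw [nn_inv] at h4
  obtain ⟨c, hc⟩ := h1.trans h2
  have h5 : nn D' x' = (c : ℂ) := by
    unfold nn
    rw [hc]
    have hD0 : (Nat.card D' : ℂ) ≠ 0 := by exact_mod_cast Nat.card_pos.ne'
    push_cast
    rw [mul_div_cancel_left₀ _ hD0]
  rw [h5] at h4
  have hpc : ¬ p ∣ c := fun h => h4 ((red_nat_eq_zero_iff hpO c).mpr h)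
  apply Nat.dvd_antisymm h1
  rw [hc, hd] at h2
  rw [hd]
  exact (Nat.Coprime.pow_left d ((Nat.Prime.coprime_iff_not_dvd hp.out).mpr hpc)).dvd_of_dvd_mul_right h2

end Pool.Agent.J6H19.KB
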