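import Mathlib
import Pool.Agent.J6H19.KB.Major

/-!
Blocks of a group with a central element `z` of order `p` and of the quotient by `⟨z⟩`.
-/

set_option autoImplicit false
set_option linter.style.haveILetI false
set_option linter.unusedSectionVars false

open scoped BigOperators Classical
open Pool.Agent.Helper884 Pool.Agent.H254R3.IN Pool.Agent.N20

noncomputable section

namespace Pool.Agent.J6H19.KB

/-- block membership is detected on `p`-regular elements -/
theorem mem_of_reg {H : Type} [Group H] [Fintype H] {O : ValuationSubring ℂ} {p : ℕ}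
    [hp : Fact p.Prime] (hpO : (p : ℂ) ∈ O.nonunits) {B : Set (H → ℂ)} (hB : IsBlock O B)
    {χ ψ : H → ℂ} (hχ : χ ∈ B) (hψ : IsIrr ψ)
    (h : ∀ x : H, ¬ p ∣ orderOf x → red O (omega ψ x) = red O (omega χ x)) : ψ ∈ B := by
  have hχi := hB.irr χ hχ
  have h1 := Pool.Agent.N20.red_Om (O := O) hχi (blockCoeff_cl hB.irr) (blockCoeff_mem hB)
  have h2 := Pool.Agent.N20.red_Om (O := O) hψ (blockCoeff_cl hB.irr) (blockCoeff_mem hB)
  rw [Om_blockCoeff hB.irr hχi, if_pos hχ, red_one] at h1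
  by_contra hcon
  rw [Om_blockCoeff hB.irr hψ, if_neg hcon, red_zero] at h2
  apply one_ne_zero (α := RF O)
  rw [h1, h2]
  refine Finset.sum_congr rfl fun K _ => ?_
  by_cases hK : p ∣ orderOf (rep K)
  · rw [blockCoeff_sing hpO hB hK, red_zero, zero_mul, zero_mul]
  · rw [h _ hK]

section quot

variable {H K : Type} [Group H] [Fintype H] [Group K] [Fintype K] {π : H →* K}
  (hπ : Function.Surjective π) {z : H} {p : ℕ} [hp : Fact p.Prime] (hz : orderOf z = p)
  (hc : ∀ h, z * h = h * z) (hker : π.ker = Subgroup.zpowers z)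

include hπ in
/-- inflation of irreducible characters -/
lemma infl_isIrr {ψ : K → ℂ} (hψ : IsIrr ψ) : IsIrr (fun g => ψ (π g)) := by
  obtain ⟨V, _, _, _, ρ, hr, rfl⟩ := hψ
  have h1 := (Pool.Agent.W446.AS.irred_iff ρ).mpr hr
  refine ⟨V, _, _, inferInstance, ρ.comp π,
    (Pool.Agent.W446.AS.irred_iff (ρ.comp π)).mp ⟨h1.1, fun W hW => h1.2 W ?_⟩, rfl⟩
  intro y v hv
  obtain ⟨g, rfl⟩ := hπ y
  exact hW g v hv

include hπ hz hker in
lemma card_quot : Nat.card H = p * Nat.card K := by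
  have h1 : Nat.card H = Nat.card π.ker * π.ker.index := (Subgroup.card_mul_index π.ker).symm
  rw [h1, Subgroup.index_ker, hker, Nat.card_zpowers, hz,
    Nat.card_congr (Equiv.ofBijective (fun y : π.range => (y : K)) ⟨Subtype.val_injective,
      fun y => by
        obtain ⟨x, rfl⟩ := hπ y
        exact ⟨⟨π x, x, rfl⟩, rfl⟩⟩)]

include hz hker in
lemma fiber {x y : H} (h : π x = π y) : ∃ i < p, y = z ^ i * x := by
  have h1 : y * x⁻¹ ∈ π.ker := by
    rw [MonoidHom.mem_ker, map_mul, map_inv, h, mul_inv_cancel]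
  rw [hker] at h1
  have h2 : y * x⁻¹ ∈ Submonoid.powers z := by
    rw [mem_powers_iff_mem_zpowers]
    exact h1
  obtain ⟨i, hi⟩ := h2
  refine ⟨i % p, Nat.mod_lt _ hp.out.pos, ?_⟩
  have h3 : z ^ (i % p) = z ^ i := by
    conv_lhs => rw [← hz]
    exact pow_mod_orderOf z i
  have h4 : z ^ i = y * x⁻¹ := hi
  rw [h3, h4, inv_mul_cancel_right]

include hz hc in
lemma reg_unique {x : H} {i : ℕ} (hi : i < p) (hx : ¬ p ∣ orderOf x)
    (hy : ¬ p ∣ orderOf (z ^ i * x)) : i = 0 := by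
  have hcomm : Commute (z ^ i) x := (show Commute z x from hc x).pow_left i
  set m := orderOf x * orderOf (z ^ i * x) with hm
  have h1 : (z ^ i * x) ^ m = 1 := by rw [hm, mul_comm, pow_mul, pow_orderOf_eq_one, one_pow]
  have h2 : x ^ m = 1 := by rw [hm, pow_mul, pow_orderOf_eq_one, one_pow]
  rw [hcomm.mul_pow, h2, mul_one, ← pow_mul] at h1
  have h3 : p ∣ i * m := by
    rw [← hz]
    exact orderOf_dvd_of_pow_eq_one h1
  rcases (Nat.Prime.dvd_mul hp.out).mp h3 with h4 | h4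
  · exact Nat.eq_zero_of_dvd_of_lt h4 hi
  · rcases (Nat.Prime.dvd_mul hp.out).mp h4 with h5 | h5
    · exact absurd h5 hx
    · exact absurd h5 hy

include hz hc hker in
/-- the fibre of a `p`-regular element contains just one `p`-regular element -/
lemma reg_eq {x y : H} (h : π x = π y) (hx : ¬ p ∣ orderOf x) (hy : ¬ p ∣ orderOf y) : y = x := by
  obtain ⟨i, hi, rfl⟩ := fiber hz hker h
  rw [reg_unique hz hc hi hx hy, pow_zero, one_mul]

include hπ hz hker in
/-- `p`-regular elements lift -/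
lemma reg_lift {y : K} (hy : ¬ p ∣ orderOf y) : ∃ x : H, π x = y ∧ ¬ p ∣ orderOf x := by
  obtain ⟨h, rfl⟩ := hπ y
  set m := orderOf (π h) with hm
  have hcop : Nat.Coprime p m := (Nat.Prime.coprime_iff_not_dvd hp.out).mpr hy
  obtain ⟨a, ha⟩ := exists_pow_eq_self_of_coprime (x := π h) (n := p) hcop
  refine ⟨(h ^ p) ^ a, ?_, ?_⟩
  · rw [map_pow, map_pow, ha]
  · have h1 : h ^ m ∈ π.ker := by
      rw [MonoidHom.mem_ker, map_pow, hm, pow_orderOf_eq_one]
    rw [hker] at h1
    obtain ⟨i, hi⟩ := Subgroup.mem_zpowers_iff.mp h1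
    have h2 : (h ^ m) ^ p = 1 := by
      rw [← hi, ← zpow_natCast, ← zpow_mul, mul_comm, zpow_mul, zpow_natCast, ← hz,
        pow_orderOf_eq_one, one_zpow]
    have h3 : ((h ^ p) ^ a) ^ m = 1 := by
      have : ((h ^ p) ^ a) ^ m = ((h ^ m) ^ p) ^ a := by
        rw [← pow_mul, ← pow_mul, ← pow_mul, ← pow_mul]
        congr 1
        ring
      rw [this, h2, one_pow]
    intro h4
    have h5 := h4.trans (orderOf_dvd_of_pow_eq_one h3)
    exact hy h5

lemma orderOf_map_reg {x : H} (hx : ¬ p ∣ orderOf x) : ¬ p ∣ orderOf (π x) :=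
  fun h => hx (h.trans (orderOf_map_dvd π x))

include hπ hz hc hker in
/-- class sizes of `p`-regular elements -/
lemma card_class_reg {x : H} (hx : ¬ p ∣ orderOf x) :
    Nat.card {y : H // IsConj x y} = Nat.card {y : K // IsConj (π x) y} := by
  refine Nat.card_congr (Equiv.ofBijective
    (fun y : {y : H // IsConj x y} => (⟨π y, ?_⟩ : {y : K // IsConj (π x) y})) ⟨?_, ?_⟩)
  · obtain ⟨c, hc'⟩ := isConj_iff.mp y.2
    exact isConj_iff.mpr ⟨π c, by rw [← map_mul, ← map_inv, ← map_mul, hc']⟩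
  · rintro ⟨y, hy⟩ ⟨y', hy'⟩ h
    have h1 : π y = π y' := congrArg Subtype.val h
    have e1 : orderOf y = orderOf x := by
      obtain ⟨c, rfl⟩ := isConj_iff.mp hy
      exact orderOf_conj' x c
    have e2 : orderOf y' = orderOf x := by
      obtain ⟨c, rfl⟩ := isConj_iff.mp hy'
      exact orderOf_conj' x c
    exact Subtype.ext (reg_eq hz hc hker h1 (by rwa [e1]) (by rwa [e2])).symm
  · rintro ⟨y, hy⟩
    obtain ⟨c, hc'⟩ := isConj_iff.mp hy
    obtain ⟨g, rfl⟩ := hπ c
    subst hc'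
    exact ⟨⟨g * x * g⁻¹, isConj_iff.mpr ⟨g, rfl⟩⟩, Subtype.ext (by
      change π (g * x * g⁻¹) = _
      rw [map_mul, map_mul, map_inv])⟩

include hπ hz hc hker in
lemma omega_reg (θ : K → ℂ) {x : H} (hx : ¬ p ∣ orderOf x) :
    omega (fun g => θ (π g)) x = omega θ (π x) := by
  unfold omega
  rw [card_class_reg hπ hz hc hker hx]
  simp only [map_one]

include hπ hz hc hker in
lemma card_cent_reg {x : H} (hx : ¬ p ∣ orderOf x) :
    Nat.card (Subgroup.centralizer ({x} : Set H)) =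
      p * Nat.card (Subgroup.centralizer ({π x} : Set K)) := by
  have h1 := card_class_mul x
  have h2 := card_class_mul (π x)
  rw [card_class_reg hπ hz hc hker hx, card_quot hπ hz hker, ← h2] at h1
  have h3 : 0 < Nat.card {y : K // IsConj (π x) y} := card_class_pos (π x)
  apply Nat.eq_of_mul_eq_mul_left h3
  rw [h1]
  ring

/-- push-forward of a function -/
def psh (π : H →* K) (f : H → ℂ) (y : K) : ℂ :=
  ∑ h ∈ Finset.univ.filter (fun h : H => π h = y), f h

include hπ in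
lemma psh_cl {f : H → ℂ} (hf : IsCl f) : IsCl (psh π f) := by
  intro y c
  obtain ⟨g, rfl⟩ := hπ c
  unfold psh
  symm
  refine Finset.sum_bij (fun h _ => g * h * g⁻¹) ?_ ?_ ?_ ?_
  · intro h hh
    rw [Finset.mem_filter] at hh ⊢
    exact ⟨Finset.mem_univ _, by rw [map_mul, map_mul, map_inv, hh.2]⟩
  · intro a _ b _ hab
    exact mul_left_cancel (mul_right_cancel hab)
  · intro h hh
    refine ⟨g⁻¹ * h * g, ?_, by group⟩
    rw [Finset.mem_filter] at hh ⊢
    exact ⟨Finset.mem_univ _, by rw [map_mul, map_mul, map_inv, hh.2]; group⟩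
  · intro h _
    exact (hf h g).symm

lemma sum_psh (f : H → ℂ) (g : K → ℂ) : ∑ y, psh π f y * g y = ∑ h, f h * g (π h) := by
  unfold psh
  simp only [Finset.sum_mul]
  rw [← Finset.sum_fiberwise Finset.univ π (fun h => f h * g (π h))]
  refine Finset.sum_congr rfl fun y _ => Finset.sum_congr rfl fun h hh => ?_
  rw [(Finset.mem_filter.mp hh).2]

lemma Om_psh (f : H → ℂ) (θ : K → ℂ) : Om (psh π f) θ = Om f (fun g => θ (π g)) := by
  unfold Om
  rw [sum_psh]
  simp only [map_one]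

include hz hc hker in
lemma psh_reg {f : H → ℂ} (hf : ∀ h, p ∣ orderOf h → f h = 0) {x : H} (hx : ¬ p ∣ orderOf x) :
    psh π f (π x) = f x := by
  unfold psh
  rw [Finset.sum_eq_single x]
  · intro h hh hne
    apply hf
    by_contra hcon
    exact hne (reg_eq hz hc hker (Finset.mem_filter.mp hh).2.symm hx hcon)
  · intro h
    exfalso
    apply h
    rw [Finset.mem_filter]
    exact ⟨Finset.mem_univ _, rfl⟩

end quot

section block

variable {H K : Type} [Group H] [Fintype H] [Group K] [Fintype K] {π : H →* K}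
  (hπ : Function.Surjective π) {z : H} {p : ℕ} [hp : Fact p.Prime] (hz : orderOf z = p)
  (hc : ∀ h, z * h = h * z) (hker : π.ker = Subgroup.zpowers z)
  {O : ValuationSubring ℂ} (hpO : (p : ℂ) ∈ O.nonunits) {b : Set (H → ℂ)} (hb : IsBlock O b)

/-- the characters of the quotient lying in a block -/
def dn (π : H →* K) (b : Set (H → ℂ)) : Set (K → ℂ) :=
  {θ | IsIrr θ ∧ (fun g => θ (π g)) ∈ b}

include hπ hb in
lemma blockCoeff_dn : blockCoeff (dn π b) = psh π (blockCoeff b) := by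
  have h1 : ∀ θ ∈ dn π b, IsIrr θ := fun θ hθ => hθ.1
  apply eq_of_Om (blockCoeff_cl h1) (psh_cl hπ (blockCoeff_cl hb.irr))
  intro χ hχ
  rw [Om_psh, Om_blockCoeff h1 hχ, Om_blockCoeff hb.irr (infl_isIrr hπ hχ)]
  by_cases h : (fun g => χ (π g)) ∈ b
  · rw [if_pos h, if_pos (show χ ∈ dn π b from ⟨hχ, h⟩)]
  · rw [if_neg h, if_neg (fun h2 : χ ∈ dn π b => h h2.2)]

include hπ hz hc hker hpO hb in
lemma blockCoeff_dn_reg {x : H} (hx : ¬ p ∣ orderOf x) :
    blockCoeff (dn π b) (π x) = blockCoeff b x := by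
  rw [blockCoeff_dn hπ hb]
  exact psh_reg hz hc hker (fun h hh => blockCoeff_sing hpO hb hh) hx

lemma blockCoeff_one_ne {b : Set (H → ℂ)} (hb : ∀ χ ∈ b, IsIrr χ) (hne : ∃ χ, χ ∈ b) :
    blockCoeff b 1 ≠ 0 := by
  have hG0 : (Nat.card H : ℂ) ≠ 0 := by exact_mod_cast Nat.card_pos.ne'
  rw [blockCoeff_eq hb]
  apply mul_ne_zero (inv_ne_zero hG0)
  choose! n hn using fun χ (hχ : χ ∈ (IC.Irr H).filter (· ∈ b)) =>
    (mem_Irr.mp (Finset.mem_filter.mp hχ).1).deg
  have h1 : ∑ χ ∈ (IC.Irr H).filter (· ∈ b), χ 1 * χ (1 : H)⁻¹ =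
      ((∑ χ ∈ (IC.Irr H).filter (· ∈ b), n χ * n χ : ℕ) : ℂ) := by
    push_cast
    refine Finset.sum_congr rfl fun χ hχ => ?_
    rw [inv_one, (hn χ hχ).2]
  rw [h1]
  obtain ⟨χ, hχ⟩ := hne
  have hχ' : χ ∈ (IC.Irr H).filter (· ∈ b) := Finset.mem_filter.mpr ⟨mem_Irr.mpr (hb χ hχ), hχ⟩
  have h2 : 0 < ∑ χ ∈ (IC.Irr H).filter (· ∈ b), n χ * n χ := by
    apply Finset.sum_pos' (fun _ _ => Nat.zero_le _)
    exact ⟨χ, hχ', Nat.mul_pos (hn χ hχ').1 (hn χ hχ').1⟩
  exact_mod_cast h2.ne'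

include hπ hz hc hker hpO hb in
lemma dn_nonempty : ∃ θ, θ ∈ dn π b := by
  by_contra hcon
  push Not at hcon
  have h1 : ¬ p ∣ orderOf (1 : H) := by
    rw [orderOf_one]
    exact hp.out.one_lt.ne' ∘ Nat.dvd_one.mp
  have h2 := blockCoeff_dn_reg hπ hz hc hker hpO hb h1
  have h3 : blockCoeff (dn π b) (π 1) = 0 := by
    rw [blockCoeff_eq (fun θ hθ => hθ.1), Finset.sum_eq_zero, mul_zero]
    intro χ hχ
    exact absurd (Finset.mem_filter.mp hχ).2 (hcon χ)
  rw [h3] at h2
  exact blockCoeff_one_ne hb.irr hb.nonempty h2.symm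

include hπ hz hc hker hpO hb in
/-- the characters of the quotient lying in a block form a block -/
theorem dn_block : IsBlock O (dn π b) := by
  obtain ⟨θ₁, hθ₁⟩ := dn_nonempty hπ hz hc hker hpO hb
  have hi₁ := hθ₁.1
  have hI₁ := infl_isIrr hπ hi₁
  have hreg : ∀ θ : K → ℂ, IsIrr θ → ∀ x : H, ¬ p ∣ orderOf x →
      red O (omega (fun g => θ (π g)) x) = red O (omega θ (π x)) := by
    intro θ _ x hx
    rw [omega_reg hπ hz hc hker θ hx]
  refine ⟨θ₁, hi₁, ?_⟩
  ext θ
  constructor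
  · intro hθ
    have hI := infl_isIrr hπ hθ.1
    refine mem_of_reg hpO (blk_block (O := O) hi₁) (mem_blk hi₁) hθ.1 ?_
    intro y hy
    obtain ⟨x, rfl, hx⟩ := reg_lift hπ hz hker hy
    rw [← hreg θ hθ.1 x hx, ← hreg θ₁ hi₁ x hx]
    exact hb.red_eq hθ.2 hθ₁.2 x
  · intro hθ
    have hθi : IsIrr θ := hθ.1
    refine ⟨hθi, mem_of_reg hpO hb hθ₁.2 (infl_isIrr hπ hθi) ?_⟩
    intro x hx
    rw [hreg θ hθi x hx, hreg θ₁ hi₁ x hx]
    exact (mem_blk_iff hi₁ hθi).mp hθ (π x)

include hπ hz hc hker hpO hb in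
/-- defect groups of the quotient block -/
theorem dn_defect {D' : Subgroup H} (hD' : IsDefectGroup p O b D') :
    ∃ D₁ : Subgroup K, IsDefectGroup p O (dn π b) D₁ ∧ Nat.card D' = p * Nat.card D₁ := by
  obtain ⟨x, ⟨P, hDP⟩, hω, ha⟩ := hD'
  have hx : ¬ p ∣ orderOf x := by
    intro h
    apply ha
    rw [blockCoeff_sing hpO hb h]
    exact O.nonunits.zero_mem
  let P₁ : Sylow p (Subgroup.centralizer ({π x} : Set K)) := default
  refine ⟨(P₁ : Subgroup (Subgroup.centralizer ({π x} : Set K))).map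
    (Subgroup.centralizer ({π x} : Set K)).subtype, ⟨π x, ⟨P₁, rfl⟩, ?_, ?_⟩, ?_⟩
  · intro θ hθ
    rw [← omega_reg hπ hz hc hker θ hx]
    exact hω _ hθ.2
  · rw [blockCoeff_dn_reg hπ hz hc hker hpO hb hx]
    exact ha
  · rw [hDP, card_map_sylow, card_map_sylow]
    have h1 : Nat.card P = p ^ (Nat.card (Subgroup.centralizer ({x} : Set H))).factorization p :=
      P.card_eq_multiplicity
    have h2 : Nat.card P₁ =
        p ^ (Nat.card (Subgroup.centralizer ({π x} : Set K))).factorization p :=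
      P₁.card_eq_multiplicity
    rw [h1, h2, card_cent_reg hπ hz hc hker hx,
      Nat.factorization_mul hp.out.ne_zero Nat.card_pos.ne', Finsupp.add_apply,
      hp.out.factorization_self, pow_add, pow_one]

include hπ hz hc hker hpO hb in
/-- **The number of Brauer characters is bounded by the number of characters of the quotient
block.** -/
theorem lB_le_dn : lB p b ≤ Nat.card (dn π b) := by
  have hdn := dn_block hπ hz hc hker hpO hb
  have hdi : ∀ θ ∈ dn π b, IsIrr θ := fun θ hθ => hθ.1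
  unfold lB
  set F : (K → ℂ) → ({g : H // ¬ p ∣ orderOf g} → ℂ) := fun θ g => θ (π g) with hF
  have hle : Submodule.span ℂ ((fun χ : H → ℂ => fun g : {g : H // ¬ p ∣ orderOf g} => χ g) '' b) ≤
      Submodule.span ℂ (((XB (dn π b)).image F : Finset _) : Set ({g : H // ¬ p ∣ orderOf g} → ℂ))
      := by
    rw [Submodule.span_le]
    rintro _ ⟨χ, hχ, rfl⟩
    have hχi := hb.irr χ hχ
    have hcl : IsCl χ := fun g y => hχi.conj g y
    have hpcl : IsCl (psh π (cut p χ)) := psh_cl hπ (cut_cl hcl)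
    have h1 : (fun g : {g : H // ¬ p ∣ orderOf g} => χ g) =
        ∑ θ ∈ XB (dn π b), IC.B (psh π (cut p χ)) θ • F θ := by
      funext g
      have h2 := congrFun (IC.expand (psh π (cut p χ)) hpcl) (π g)
      have h3 : psh π (cut p χ) (π g) = χ g := by
        rw [psh_reg hz hc hker (fun h hh => by unfold cut; rw [if_pos hh]) g.2]
        unfold cut
        rw [if_neg g.2]
      rw [h3] at h2
      simp only [Finset.sum_apply, Pi.smul_apply, smul_eq_mul] at h2 ⊢
      rw [h2]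
      unfold XB
      rw [← Finset.sum_filter_add_sum_filter_not (IC.Irr K) (· ∈ dn π b)]
      rw [Finset.sum_eq_zero (s := (IC.Irr K).filter (· ∉ dn π b)), add_zero]
      intro θ hθ
      obtain ⟨h4, h5⟩ := Finset.mem_filter.mp hθ
      have hθi := mem_Irr.mp h4
      have h6 : (fun g => θ (π g)) ∉ b := fun h => h5 ⟨hθi, h⟩
      have h7 := blk_orth hpO hb hχ (infl_isIrr hπ hθi) h6
      have h8 : IC.B (psh π (cut p χ)) θ = (p : ℂ) * IC.B (cut p χ) (fun g => θ (π g)) := by
        unfold IC.B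
        rw [sum_psh (π := π) (cut p χ) (fun y => θ y⁻¹), card_quot hπ hz hker]
        have hp0 : (p : ℂ) ≠ 0 := by exact_mod_cast hp.out.ne_zero
        have hK0 : (Nat.card K : ℂ) ≠ 0 := by exact_mod_cast Nat.card_pos.ne'
        push_cast
        simp only [map_inv]
        field_simp
      rw [h8, h7, mul_zero, zero_mul]
    change (fun g : {g : H // ¬ p ∣ orderOf g} => χ g) ∈ _
    rw [h1]
    refine Submodule.sum_mem _ fun θ hθ => Submodule.smul_mem _ _ (Submodule.subset_span ?_)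
    exact Finset.mem_coe.mpr (Finset.mem_image_of_mem F hθ)
  calc Module.finrank ℂ (Submodule.span ℂ
        ((fun χ : H → ℂ => fun g : {g : H // ¬ p ∣ orderOf g} => χ g) '' b))
      ≤ Module.finrank ℂ (Submodule.span ℂ
        (((XB (dn π b)).image F : Finset _) : Set ({g : H // ¬ p ∣ orderOf g} → ℂ))) :=
        Submodule.finrank_mono hle
    _ ≤ ((XB (dn π b)).image F).card := finrank_span_finset_le_card _
    _ ≤ (XB (dn π b)).card := Finset.card_image_le
    _ = Nat.card (dn π b) := by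
        rw [← Fintype.card_coe, ← Nat.card_eq_fintype_card]
        exact Nat.card_congr (Equiv.subtypeEquivRight fun θ => mem_XB hdi)

end block

end Pool.Agent.J6H19.KB
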