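import Mathlib
import Pool.Agent.J6H19.KB.Num
import Pool.Agent.J6H19.KB.LocalThm
import Pool.Agent.J6H19.KB.Quot

/-!
A general upper bound for the number of irreducible characters in a block, for odd primes.
-/

set_option autoImplicit false
set_option linter.style.haveILetI false
set_option linter.unusedSectionVars false

open scoped BigOperators Classical
open Pool.Agent.Helper884 Pool.Agent.H254R3.IN Pool.Agent.N20

noncomputable section

namespace Pool.Agent.J6H19.KB

/-- a nontrivial finite `p`-group has a central element of order `p` -/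
lemma exists_central {G : Type} [Group G] [Finite G] {p : ℕ} [hp : Fact p.Prime] {D : Subgroup G}
    {d : ℕ} (hd : Nat.card D = p ^ (d + 1)) :
    ∃ u ∈ D, orderOf u = p ∧ ∀ g ∈ D, u * g = g * u := by
  have hP : IsPGroup p D := IsPGroup.of_card hd
  haveI : Nontrivial D := by
    rw [← Finite.one_lt_card_iff_nontrivial, hd]
    exact Nat.one_lt_pow (Nat.succ_ne_zero d) hp.out.one_lt
  haveI := hP.center_nontrivial
  have h1 : p ∣ Nat.card (Subgroup.center D) := by
    obtain ⟨n, hn⟩ := IsPGroup.iff_card.mp (hP.to_subgroup (Subgroup.center D))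
    have h2 : 1 < Nat.card (Subgroup.center D) := Finite.one_lt_card
    rw [hn] at h2 ⊢
    have h3 : n ≠ 0 := by
      rintro rfl
      simp at h2
    exact dvd_pow_self p h3
  obtain ⟨u, hu⟩ := exists_prime_orderOf_dvd_card' p h1
  refine ⟨((u : D) : G), (u : D).2, ?_, ?_⟩
  · rw [Subgroup.orderOf_coe, Subgroup.orderOf_coe, hu]
  · intro g hg
    have h2 := Subgroup.mem_center_iff.mp u.2 ⟨g, hg⟩
    exact (congrArg Subtype.val h2).symm

/-- one step down: a major subsection of order `p` and the block of the quotient -/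
theorem descend {G : Type} [Group G] [Fintype G] {p : ℕ} [hp : Fact p.Prime]
    {O : ValuationSubring ℂ} (hpO : (p : ℂ) ∈ O.nonunits) {D : Subgroup G} {B : Set (G → ℂ)}
    (hB : IsBlock O B) (hD : IsDefectGroup p O B D) {d : ℕ} (hd : Nat.card D = p ^ (d + 1)) :
    ∃ (u : G) (b : Set (CC u → ℂ)) (D' : Subgroup (CC u)), orderOf u = p ∧ IsBlock O b ∧
      IsDefectGroup p O b D' ∧ Nat.card D' = Nat.card D ∧ Induces O B (CC u) b ∧
      ∃ (K : Type) (_ : Group K) (_ : Fintype K) (B₁ : Set (K → ℂ)) (D₁ : Subgroup K),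
        IsBlock O B₁ ∧ IsDefectGroup p O B₁ D₁ ∧ Nat.card D₁ = p ^ d ∧
        lB p b ≤ Nat.card B₁ := by
  obtain ⟨u, huD, hu, huZ⟩ := exists_central hd
  have hu1 : orderOf u = p ^ 1 := by rw [pow_one]; exact hu
  obtain ⟨b, D', hb, hD', hcard, hind⟩ := exists_major hpO hB hD hu1 huD huZ
  refine ⟨u, b, D', hu, hb, hD', hcard, hind, ?_⟩
  have hz : orderOf (uc u) = p := by
    have h4 : orderOf (uc u) = orderOf u := Subgroup.orderOf_mk u _
    rw [h4, hu]
  haveI hnorm : (Subgroup.zpowers (uc u)).Normal := by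
    constructor
    intro n hn g
    obtain ⟨i, rfl⟩ := Subgroup.mem_zpowers_iff.mp hn
    have h1 : Commute (uc u) g := uc_comm u g
    rw [← (h1.zpow_left i).eq, mul_inv_cancel_right]
    exact Subgroup.mem_zpowers_iff.mpr ⟨i, rfl⟩
  haveI : Fintype (CC u ⧸ Subgroup.zpowers (uc u)) := Fintype.ofFinite _
  have hπ : Function.Surjective (QuotientGroup.mk' (Subgroup.zpowers (uc u))) :=
    QuotientGroup.mk'_surjective _
  have hker : (QuotientGroup.mk' (Subgroup.zpowers (uc u))).ker = Subgroup.zpowers (uc u) :=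
    QuotientGroup.ker_mk' _
  have hblk := dn_block hπ hz (uc_comm u) hker hpO hb
  obtain ⟨D₁, hD₁, hc₁⟩ := dn_defect hπ hz (uc_comm u) hker hpO hb hD'
  refine ⟨_, inferInstance, inferInstance, _, D₁, hblk, hD₁, ?_,
    lB_le_dn hπ hz (uc_comm u) hker hpO hb⟩
  rw [hcard, hd, pow_succ, mul_comm] at hc₁
  exact (Nat.eq_of_mul_eq_mul_left hp.out.pos hc₁).symm

/-- blocks of defect zero -/
lemma defect_zero {G : Type} [Group G] [Fintype G] {p : ℕ} [hp : Fact p.Prime]
    {O : ValuationSubring ℂ} (hpO : (p : ℂ) ∈ O.nonunits) {D : Subgroup G} {B : Set (G → ℂ)}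
    (hB : IsBlock O B) (hD : IsDefectGroup p O B D) (hd : Nat.card D = 1) : Nat.card B ≤ 1 := by
  have h1 := block_bound hp.out hpO hB hD
  have h2 := lB_le (p := p) hB
  rw [hd, one_mul] at h1
  rcases le_total p (lB p B) with h4 | h4
  · rw [max_eq_right h4] at h1
    have h5 := hp.out.two_le
    nlinarith
  · rw [max_eq_left h4] at h1
    exact Nat.le_of_mul_le_mul_left (by rwa [mul_one]) hp.out.pos

/-- defects at most two -/
theorem small_defect {p : ℕ} [hp : Fact p.Prime] {O : ValuationSubring ℂ}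
    (hpO : (p : ℂ) ∈ O.nonunits) : ∀ d : ℕ, d ≤ 2 → ∀ (G : Type) [Group G] [Fintype G]
    (D : Subgroup G) (B : Set (G → ℂ)), IsBlock O B → IsDefectGroup p O B D →
    Nat.card D = p ^ d → Nat.card B ≤ p ^ d := by
  intro d
  induction d with
  | zero =>
    intro _ G _ _ D B hB hD hd
    rw [pow_zero] at hd ⊢
    exact defect_zero hpO hB hD hd
  | succ d ih =>
    intro hd2 G _ _ D B hB hD hd
    obtain ⟨u, b, D', hu, hb, hD', hcard, hind, K, _, _, B₁, D₁, hB₁, hD₁, hc₁, hl⟩ :=
      descend hpO hB hD hd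
    have h1 := ih (by omega) K D₁ B₁ hB₁ hD₁ hc₁
    have h2 : lB p b ≤ p + 1 := by
      have h3 : p ^ d ≤ p ^ 1 := Nat.pow_le_pow_right hp.out.pos (by omega)
      rw [pow_one] at h3
      omega
    have h3 := major_bound hp.out hpO hB hD (k := 1) (by rw [pow_one]; exact hu) hb hD' hcard hind
    rw [max_eq_left h2, hd, mul_comm] at h3
    exact Nat.le_of_mul_le_mul_right h3 (Nat.succ_pos p)

/-- **The general bound.** -/
theorem general_bound {p : ℕ} [hp : Fact p.Prime] (hp2 : p ≠ 2) {O : ValuationSubring ℂ}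
    (hpO : (p : ℂ) ∈ O.nonunits) : ∀ d : ℕ, ∀ (G : Type) [Group G] [Fintype G]
    (D : Subgroup G) (B : Set (G → ℂ)), IsBlock O B → IsDefectGroup p O B D →
    Nat.card D = p ^ (d + 3) → (Nat.card B : ℝ) ≤ 2 * (p : ℝ) ^ (d + 3) * XX p (d + 3) := by
  have hp0 := hp.out.pos
  have hp3 : 3 ≤ p := by
    have := hp.out.two_le
    omega
  have hpR : (3 : ℝ) ≤ p := by exact_mod_cast hp3
  -- the local step
  have step : ∀ (d : ℕ) (G : Type) [Group G] [Fintype G] (D : Subgroup G) (B : Set (G → ℂ)),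
      IsBlock O B → IsDefectGroup p O B D → Nat.card D = p ^ (d + 3) →
      ∀ (u : G) (b : Set (CC u → ℂ)) (D' : Subgroup (CC u)), orderOf u = p → IsBlock O b →
      IsDefectGroup p O b D' → Nat.card D' = Nat.card D → Induces O B (CC u) b →
      ∀ A : ℝ, 0 < A → A ≤ 2 → (lB p b : ℝ) ≤ A * p * XX p (d + 3) ^ 2 →
      45 * cst p ≤ (81 * ((p : ℝ) - 1) - 25 * A * p) * XX p (d + 3) →
      (Nat.card B : ℝ) ≤ 2 * (p : ℝ) ^ (d + 3) * XX p (d + 3) := by
    intro d G _ _ D B hB hD hd u b D' hu hb hD' hcard hind A hA0 hA2 hl hc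
    have hu1 : orderOf u = p ^ (0 + 1) := by rw [zero_add, pow_one]; exact hu
    have a := h0_bound hpO hB hD hu1 hb hD' hind hp2 (hcard.trans hd)
    obtain ⟨f, b1, b2, b3⟩ := major_min hpO hB hD hu1 hb hD' hcard hind hd
    have hsub : (B0 O D B).card ≤ (XB B).card := Finset.card_le_card (Finset.filter_subset _ _)
    rw [card_B_eq hB.irr]
    refine num_core (P := p) (X := XX p (d + 3)) (q := (p : ℝ) ^ (d + 3))
      (k0 := ((B0 O D B).card : ℝ)) (f := (f : ℝ)) (l := (lB p b : ℝ)) (c := cst p) (A := A)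
      hpR (XX_pos hp0 _) (pow_pos (by linarith) _) (Nat.cast_nonneg _) (XX_ge (by omega) _) a
      (by exact_mod_cast b1) ?_ ?_ hl hA2 hA0 hc
    · have h1 : (((B0 O D B).card + p ^ 2 * ((XB B).card - (B0 O D B).card) : ℕ) : ℝ) ≤
          ((p ^ (d + 3) * f : ℕ) : ℝ) := by exact_mod_cast b2
      rw [Nat.cast_add, Nat.cast_mul, Nat.cast_sub hsub] at h1
      push_cast at h1
      exact h1
    · have h1 : ((p * f : ℕ) : ℝ) ≤ ((p ^ (d + 3) : ℕ) : ℝ) := by exact_mod_cast b3
      push_cast at h1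
      exact h1
  intro d
  induction d with
  | zero =>
    intro G _ _ D B hB hD hd
    obtain ⟨u, b, D', hu, hb, hD', hcard, hind, K, _, _, B₁, D₁, hB₁, hD₁, hc₁, hl⟩ :=
      descend hpO hB hD hd
    have h1 := small_defect hpO 2 le_rfl K D₁ B₁ hB₁ hD₁ hc₁
    have h2 : lB p b ≤ p ^ 2 := hl.trans h1
    have hX2 : XX p (0 + 3) ^ 2 = p := XX_three_sq hp0
    have hX0 : 0 < XX p (0 + 3) := XX_pos hp0 _
    rcases eq_or_ne p 3 with h3 | h3
    · -- `p = 3`
      have h4 := major_bound hp.out hpO hB hD (k := 1) (by rw [pow_one]; exact hu) hb hD' hcard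
        hind
      have h5 : max (p + 1) (lB p b) ≤ 9 := by
        rw [h3] at h2 ⊢
        apply max_le <;> omega
      have h6 : (p + 1) * Nat.card B ≤ Nat.card D * 9 := h4.trans (Nat.mul_le_mul_left _ h5)
      rw [hd, h3] at h6
      have h7 : Nat.card B ≤ 60 := by omega
      have h8 : (Nat.card B : ℝ) ≤ 60 := by exact_mod_cast h7
      rw [h3] at hX2 hX0 ⊢
      push_cast at hX2 ⊢
      nlinarith
    · have hp5 : 5 ≤ p := by
        by_contra hcon
        have h4 : p = 4 := by omega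
        have h5 := hp.out
        rw [h4] at h5
        exact absurd h5 (by decide)
      have hp5R : (5 : ℝ) ≤ p := by exact_mod_cast hp5
      have hXs : XX p (0 + 3) = √p := by
        rw [← hX2]
        exact (Real.sqrt_sq hX0.le).symm
      refine step 0 G D B hB hD hd u b D' hu hb hD' hcard hind 1 one_pos one_le_two ?_ ?_
      · have h4 : (lB p b : ℝ) ≤ ((p ^ 2 : ℕ) : ℝ) := by exact_mod_cast h2
        rw [hX2]
        push_cast at h4
        nlinarith
      · have h4 := cst_le (p := p)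
        rw [← hXs] at h4
        have h5 : 2 ≤ XX p (0 + 3) := by
          by_contra hcon
          push Not at hcon
          nlinarith
        nlinarith
  | succ d ih =>
    intro G _ _ D B hB hD hd
    obtain ⟨u, b, D', hu, hb, hD', hcard, hind, K, _, _, B₁, D₁, hB₁, hD₁, hc₁, hl⟩ :=
      descend (d := d + 3) hpO hB hD (by rw [hd])
    have h1 := ih K D₁ B₁ hB₁ hD₁ hc₁
    have h2 : (lB p b : ℝ) ≤ 2 * (p : ℝ) ^ (d + 3) * XX p (d + 3) :=
      le_trans (by exact_mod_cast hl) h1
    have h3 := XX_step hp0 (d + 3)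
    have h3' : XX p (d + 1 + 3) ^ 2 * p = (p : ℝ) ^ (d + 3) * XX p (d + 3) := by
      have : d + 1 + 3 = d + 3 + 1 := by ring
      rw [this]
      exact h3
    have hX0 : 0 < XX p (d + 1 + 3) := XX_pos hp0 _
    refine step (d + 1) G D B hB hD hd u b D' hu hb hD' hcard hind 2 two_pos le_rfl ?_ ?_
    · calc (lB p b : ℝ) ≤ 2 * (p : ℝ) ^ (d + 3) * XX p (d + 3) := h2
        _ = 2 * ((p : ℝ) ^ (d + 3) * XX p (d + 3)) := by ring
        _ = _ := by rw [← h3']; ring
    · exact cond_four hp3 (by omega)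

end Pool.Agent.J6H19.KB
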