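import Mathlib
import Pool.Agent.J6H19.KB.LocalThm

/-!
The mean value estimate for the trivial subsection, and the general inequality for characters of
height zero.
-/

set_option autoImplicit false
set_option linter.style.haveILetI false
set_option linter.unusedSectionVars false

open scoped BigOperators Classical
open Pool.Agent.Helper884 Pool.Agent.H254R3.IN Pool.Agent.N20

noncomputable section

namespace Pool.Agent.J6H19.KB

variable {G : Type} [Group G] [Fintype G]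

/-- The contribution matrix of a block of the centralizer of the identity. -/
theorem exists_MD_one {p : ℕ} [hp : Fact p.Prime] {O : ValuationSubring ℂ}
    (hpO : (p : ℂ) ∈ O.nonunits) {u : G} (hu : orderOf u = p ^ 0)
    {b : Set (CC u → ℂ)} (hb : IsBlock O b) {D' : Subgroup (CC u)}
    (hD' : IsDefectGroup p O b D') {d : ℕ} (hd : Nat.card D' = p ^ d) :
    ∃ (E : MD p d (lB p b) 1 (RF O) {θ // θ ∈ XB b} {χ // χ ∈ IC.Irr G}),
      (∀ θ : {θ // θ ∈ XB b}, E.U θ = red O (uu D' (θ : CC u → ℂ))) ∧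
      (∀ (z : {θ // θ ∈ XB b} → ℤ) (χ : {χ // χ ∈ IC.Irr G}),
        (bf E.M z (E.f χ) : ℂ) =
          ∑ θ : {θ // θ ∈ XB b}, (z θ : ℂ) * ((Nat.card D' : ℂ) * JJ p u 1 θ χ)) := by
  haveI := charP_RF hpO
  have hD0 : (Nat.card D' : ℂ) ≠ 0 := by exact_mod_cast Nat.card_pos.ne'
  have hDp : (Nat.card D' : ℂ) = (p : ℂ) ^ d := by rw [hd]; push_cast; rfl
  have hmem : ∀ θ : {θ // θ ∈ XB b}, (θ : CC u → ℂ) ∈ b := fun θ => (mem_XB hb.irr).mp θ.2
  have hirr : ∀ θ : {θ // θ ∈ XB b}, IsIrr (θ : CC u → ℂ) := fun θ => hb.irr _ (hmem θ)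
  choose M hM using fun θ η : {θ // θ ∈ XB b} => contr_int hpO hb hD' (hmem θ) (hmem η)
  have hsym : ∀ θ η : {θ // θ ∈ XB b}, M θ η = M η θ := by
    intro θ η
    have : (M θ η : ℂ) = M η θ := by
      rw [hM, hM, B_cut_comm]
    exact_mod_cast this
  have hsq : ∀ θ η, ∑ φ, M θ φ * M φ η = (p : ℤ) ^ d * M θ η := by
    intro θ η
    have : ((∑ φ, M θ φ * M φ η : ℤ) : ℂ) = (((p : ℤ) ^ d * M θ η : ℤ) : ℂ) := by
      have h1 := B_cut_idem hpO hb (χ := θ) (ψ := η) (hmem θ)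
      rw [← Finset.sum_coe_sort (XB b)
        (fun φ : CC u → ℂ => IC.B (cut p (θ : CC u → ℂ)) φ * IC.B (cut p φ) η)] at h1
      push_cast
      simp only [hM]
      rw [← h1, ← hDp, Finset.mul_sum, Finset.mul_sum]
      refine Finset.sum_congr rfl fun φ _ => ?_
      ring
    exact_mod_cast this
  have htr : ∑ θ, M θ θ = (p : ℤ) ^ d * (lB p b : ℤ) := by
    have : ((∑ θ, M θ θ : ℤ) : ℂ) = (((p : ℤ) ^ d * (lB p b : ℤ) : ℤ) : ℂ) := by
      push_cast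
      simp only [hM]
      rw [← trace_eq hpO hb, ← Finset.mul_sum,
        ← Finset.sum_coe_sort (XB b) (fun φ : CC u → ℂ => IC.B (cut p φ) φ), hDp]
    exact_mod_cast this
  obtain ⟨θ₀, hθ₀, hθ₀ne⟩ := exists_uu_ne hpO hb hD'
  have hredM : ∀ θ η, ((M θ η : ℤ) : RF O) = red O (uu D' (θ : CC u → ℂ)) * sr p O θ₀ η := by
    intro θ η
    rw [← red_intCast, hM, card_mul_B D' (hirr θ) (fun g y => (hirr η).conj g y),
      red_mul (Pool.Agent.N20.uu_mem hpO hb hD' (hmem θ)) (SS_mem (hirr θ) (hirr η)),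
      red_SS (hirr θ) (hirr η), sr_block hb (hmem θ) hθ₀]
  have hX : ∀ χ : {χ // χ ∈ IC.Irr G}, IsIrr (χ : G → ℂ) := fun χ => mem_Irr.mp χ.2
  choose n hn using fun (χ : {χ // χ ∈ IC.Irr G}) (η : {θ // θ ∈ XB b}) =>
    mm_int u (hX χ) (hirr η)
  have hcu : ∀ η : {θ // θ ∈ XB b}, cu u (η : CC u → ℂ) ^ 1 = 1 := by
    intro η
    have := cu_pow u (hirr η)
    rwa [hu, pow_zero] at this
  have K1 : ∀ (θ : {θ // θ ∈ XB b}) (χ : {χ // χ ∈ IC.Irr G}),
      (Nat.card D' : ℂ) * JJ p u 1 θ χ = ((∑ η, M θ η * n χ η : ℤ) : ℂ) := by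
    intro θ χ
    rw [JJ_eq hpO u hb (hmem θ) (hX χ) 1, Finset.mul_sum,
      ← Finset.sum_coe_sort (XB b) (fun η : CC u → ℂ =>
        (Nat.card D' : ℂ) * (mm u χ η * cu u η ^ 1 * IC.B (cut p (θ : CC u → ℂ)) η))]
    push_cast
    refine Finset.sum_congr rfl fun η _ => ?_
    rw [hM, hn, hcu]
    ring
  have K2 : ∀ θ θ' : {θ // θ ∈ XB b},
      ∑ χ : {χ // χ ∈ IC.Irr G}, (starRingEnd ℂ) ((Nat.card D' : ℂ) * JJ p u 1 θ χ) *
        ((Nat.card D' : ℂ) * JJ p u 1 θ' χ) = (Nat.card D' : ℂ) * M θ θ' := by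
    intro θ θ'
    have h1 := sec_frame hu (Nat.coprime_one_left p) (a := (θ : CC u → ℂ)) (a' := (θ' : CC u → ℂ))
      (fun s => (Pool.Agent.Y62.conj_char (hirr θ) s).symm) (fun g y => (hirr θ').conj g y)
      (fun s => (Pool.Agent.Y62.conj_char (hirr θ') s).symm)
    rw [← Finset.sum_coe_sort (IC.Irr G) (fun χ : G → ℂ =>
      (starRingEnd ℂ) (JJ p u 1 (θ : CC u → ℂ) χ) * JJ p u 1 (θ' : CC u → ℂ) χ)] at h1
    rw [hM, ← h1, Finset.mul_sum, Finset.mul_sum]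
    refine Finset.sum_congr rfl fun χ _ => ?_
    rw [map_mul, Complex.conj_natCast]
    ring
  have hex : ∃ z : {θ // θ ∈ XB b} → ℤ,
      (∑ θ, (z θ : RF O) * red O (uu D' (θ : CC u → ℂ))) *
        (∑ η, (z η : RF O) * sr p O θ₀ η) ≠ 0 := by
    refine ⟨fun θ => if (θ : CC u → ℂ) = θ₀ then 1 else 0, ?_⟩
    have h1 : ∀ w : (CC u → ℂ) → RF O, ∑ θ : {θ // θ ∈ XB b},
        (((if (θ : CC u → ℂ) = θ₀ then 1 else 0 : ℤ)) : RF O) * w θ = w θ₀ := by
      intro w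
      rw [Finset.sum_eq_single (⟨θ₀, (mem_XB hb.irr).mpr hθ₀⟩ : {θ // θ ∈ XB b})]
      · simp
      · intro θ _ hne
        rw [if_neg]
        · simp
        · intro h
          exact hne (Subtype.ext h)
      · intro h
        exact absurd (Finset.mem_univ _) h
    rw [h1 (fun θ => red O (uu D' θ)), h1 (fun η => sr p O θ₀ η), sr_eq hpO hb hD' hθ₀ hθ₀]
    exact mul_ne_zero hθ₀ne (mul_ne_zero hθ₀ne (cc_ne hpO hb hD' hθ₀))
  have hfr : ∀ θ θ', ∑ χ, (∑ η, M θ η * n χ η) * (∑ η, M θ' η * n χ η) =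
      ((1 : ℕ) : ℤ) * (p : ℤ) ^ d * M θ θ' := by
    intro θ θ'
    have h1 := K2 θ θ'
    simp only [K1, map_intCast] at h1
    rw [hDp] at h1
    have h2 : ((∑ χ : {χ // χ ∈ IC.Irr G}, (∑ η, M θ η * n χ η) * (∑ η, M θ' η * n χ η) : ℤ) : ℂ)
        = ((((1 : ℕ) : ℤ) * (p : ℤ) ^ d * M θ θ' : ℤ) : ℂ) := by
      push_cast
      push_cast at h1
      rw [h1]
      ring
    exact_mod_cast h2
  refine ⟨⟨M, hsym, hsq, htr, fun θ => red O (uu D' (θ : CC u → ℂ)),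
    fun η => sr p O θ₀ η, hredM, hex, n, hfr⟩, fun _ => rfl, ?_⟩
  intro z χ
  change (bf M z (n χ) : ℂ) = _
  simp only [K1]
  unfold bf
  push_cast
  refine Finset.sum_congr rfl fun θ _ => ?_
  rw [Finset.mul_sum]
  refine Finset.sum_congr rfl fun η _ => ?_
  ring

section general

variable {p : ℕ} [hp : Fact p.Prime] {O : ValuationSubring ℂ} (hpO : (p : ℂ) ∈ O.nonunits)
  {D : Subgroup G} {B : Set (G → ℂ)} (hB : IsBlock O B) (hD : IsDefectGroup p O B D)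
  {u : G} {b : Set (CC u → ℂ)} (hb : IsBlock O b)
  {D' : Subgroup (CC u)} (hD' : IsDefectGroup p O b D') (hbB : Induces O B (CC u) b)

include hpO hB hD hb hD' hbB in
/-- nonvanishing for characters of height zero -/
lemma height_red' {k : ℕ} (hu : orderOf u = p ^ k) {χ : G → ℂ} (hχ : χ ∈ B)
    (h0 : red O (uu D χ) ≠ 0)
    (z : {θ // θ ∈ XB b} → ℤ) (hz : (∑ θ, (z θ : RF O) * red O (uu D' (θ : CC u → ℂ))) ≠ 0) :
    red O (∑ θ : {θ // θ ∈ XB b}, (z θ : ℂ) * ((Nat.card D' : ℂ) * JJ p u 1 θ χ)) ≠ 0 := by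
  have hmem : ∀ θ : {θ // θ ∈ XB b}, (θ : CC u → ℂ) ∈ b := fun θ => (mem_XB hb.irr).mp θ.2
  have hirr : ∀ θ : {θ // θ ∈ XB b}, IsIrr (θ : CC u → ℂ) := fun θ => hb.irr _ (hmem θ)
  have hX := hB.irr χ hχ
  have hm : ∀ θ : {θ // θ ∈ XB b}, uu D' (θ : CC u → ℂ) * TH p u χ θ ∈ O :=
    fun θ => O.mul_mem _ _ (Pool.Agent.N20.uu_mem hpO hb hD' (hmem θ)) (TH_mem hX (hirr θ))
  have h4 : ∀ θ : {θ // θ ∈ XB b}, (z θ : ℂ) * ((Nat.card D' : ℂ) * JJ p u 1 θ χ) =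
      (z θ : ℂ) * (uu D' (θ : CC u → ℂ) * TH p u χ θ) := by
    intro θ
    rw [card_JJ2 D' hX (hirr θ)]
  rw [Finset.sum_congr rfl (fun θ _ => h4 θ),
    red_sum _ _ (fun θ _ => O.mul_mem _ _ (intCast_mem' _) (hm θ))]
  have h5 : ∑ θ : {θ // θ ∈ XB b}, red O ((z θ : ℂ) * (uu D' (θ : CC u → ℂ) * TH p u χ θ)) =
      (∑ θ, (z θ : RF O) * red O (uu D' (θ : CC u → ℂ))) * sr p O χ χ := by
    rw [Finset.sum_mul]
    refine Finset.sum_congr rfl fun θ _ => ?_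
    rw [red_mul (intCast_mem' _) (hm θ), red_intCast,
      red_mul (Pool.Agent.N20.uu_mem hpO hb hD' (hmem θ)) (TH_mem hX (hirr θ)),
      red_TH hpO hB hu hb hbB hχ (hmem θ)]
    ring
  rw [h5, sr_eq hpO hB hD hχ hχ]
  exact mul_ne_zero hz (mul_ne_zero h0 (cc_ne hpO hB hD hχ))

include hpO hB hD hb hD' hbB in
/-- **Characters of height zero**, all subsections. -/
theorem h0_bound_all (hp2 : p ≠ 2) {k : ℕ} (hu : orderOf u = p ^ k) {d : ℕ}
    (hd : Nat.card D' = p ^ d) :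
    ((p : ℝ) - 1) * ((B0 O D B).card : ℝ) ^ 2 ≤ ((p : ℝ) ^ d) ^ 2 * lB p b +
      cst p * ((p : ℝ) ^ d * (B0 O D B).card) := by
  rcases k with _ | k
  · haveI := charP_RF hpO
    obtain ⟨E, hU, hK⟩ := exists_MD_one hpO hu hb hD' hd
    obtain ⟨z, hz⟩ := E.ex
    have hz1 : (∑ θ, (z θ : RF O) * red O (uu D' (θ : CC u → ℂ))) ≠ 0 := by
      have := left_ne_zero_of_mul hz
      simpa only [hU] using this
    set A := Finset.univ.filter (fun χ : {χ // χ ∈ IC.Irr G} => (χ : G → ℂ) ∈ B0 O D B) with hA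
    have hAcard : A.card = (B0 O D B).card := by
      convert card_sub_eq (S := B0 O D B) (fun χ hχ => hB.irr χ ((mem_B0 hB.irr).mp hχ).1) _
        (fun χ => Iff.rfl)
    have h1 := E.mean one_pos hp2 A (by
      intro χ hχ h0
      obtain ⟨h2, h3⟩ := (mem_B0 hB.irr).mp (Finset.mem_filter.mp hχ).2
      apply height_red' hpO hB hD hb hD' hbB hu h2 h3 z hz1
      rw [← hK z χ, red_intCast, E.bf_red, h0, mul_zero])
    rw [hAcard] at h1
    calc _ ≤ _ := h1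
      _ = _ := by push_cast; ring
  · exact h0_bound hpO hB hD hu hb hD' hbB hp2 hd

include hpO hB hD hb hD' hbB in
/-- the inequality in terms of the degrees -/
theorem height_zero_mean (hp2 : p ≠ 2) {k : ℕ} (hu : orderOf u = p ^ k) :
    ((p : ℝ) - 1) * (Nat.card {χ : G → ℂ // χ ∈ B ∧ HeightZero p D χ} : ℝ) ^ 2 ≤
      (Nat.card D' : ℝ) ^ 2 * lB p b +
      cst p * ((Nat.card D' : ℝ) * Nat.card {χ : G → ℂ // χ ∈ B ∧ HeightZero p D χ}) := by
  obtain ⟨d, hd⟩ := IsPGroup.iff_card.mp (Pool.Agent.N20.defect_pgroup hD')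
  have h1 := h0_bound_all hpO hB hD hb hD' hbB hp2 hu hd
  have hle : Nat.card {χ : G → ℂ // χ ∈ B ∧ HeightZero p D χ} ≤ (B0 O D B).card := by
    rw [← Fintype.card_coe, ← Nat.card_eq_fintype_card]
    exact Nat.card_le_card_of_injective
      (fun χ : {χ : G → ℂ // χ ∈ B ∧ HeightZero p D χ} =>
        (⟨χ.1, (mem_B0 hB.irr).mpr ⟨χ.2.1, uu_unit hpO (hB.irr _ χ.2.1) χ.2.2⟩⟩ :
          {χ // χ ∈ B0 O D B}))
      (fun a b h => Subtype.ext (congrArg (fun x : {χ // χ ∈ B0 O D B} => x.1) h))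
  have hp1 : (0 : ℝ) < (p : ℝ) - 1 := by
    have : (1 : ℝ) < p := by exact_mod_cast hp.out.one_lt
    linarith
  rw [hd]
  push_cast
  refine real_step (N0 := 1) (a := ((B0 O D B).card : ℝ)) hp1
    (by have := hp.out.pos; positivity) (by positivity) one_pos (by positivity)
    (by rw [one_mul]; exact_mod_cast hle) ?_
  calc _ ≤ _ := h1
    _ = _ := by ring

end general

end Pool.Agent.J6H19.KB
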